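import Mathlib

/-!
Constants and Laguerre polynomials for the transfer operator `G_4`.
-/

namespace Pool.Agent.Lib.MP_9ff751_an

open Real

/-- the golden ratio -/
noncomputable def phi : ℝ := (1 + √5) / 2

/-- `q = phi ^ (-2) = 2 - phi = (3 - √5) / 2` -/
noncomputable def qq : ℝ := 2 - phi

/-- `√5 = 2 phi - 1` -/
noncomputable def s5 : ℝ := 2 * phi - 1

theorem s5_eq : s5 = √5 := by unfold s5 phi; ring

theorem phi_sq : phi ^ 2 = phi + 1 := by
  have h : √5 ^ 2 = 5 := Real.sq_sqrt (by norm_num)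
  unfold phi
  nlinarith [h]

theorem s5_sq : s5 ^ 2 = 5 := by
  unfold s5
  nlinarith [phi_sq]

theorem phi_gt : 1.618 < phi := by
  have h : (2.236 : ℝ) < √5 := by
    rw [Real.lt_sqrt (by norm_num)]
    norm_num
  unfold phi
  linarith

theorem phi_lt : phi < 1.6181 := by
  have h : √5 < (2.2362 : ℝ) := by
    rw [Real.sqrt_lt' (by norm_num)]
    norm_num
  unfold phi
  linarith

theorem phi_pos : 0 < phi := by linarith [phi_gt]

theorem s5_pos : 0 < s5 := by unfold s5; linarith [phi_gt]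

theorem qq_pos : 0 < qq := by unfold qq; linarith [phi_lt]

theorem qq_lt : qq < 0.382 := by unfold qq; linarith [phi_gt]

theorem phi_mul : phi * (phi - 1) = 1 := by nlinarith [phi_sq]

theorem qq_mul : qq * phi ^ 2 = 1 := by
  unfold qq
  nlinarith [phi_sq, phi_mul]

/-- the Laguerre polynomials `L_n^(α)(x) = ∑ j ≤ n, (-1)^j C(n+α, n-j) x^j / j!` -/
noncomputable def lag (α n : ℕ) (x : ℝ) : ℝ :=
  ∑ j ∈ Finset.range (n + 1), (-1) ^ j * ((n + α).choose (n - j) : ℝ) * x ^ j / (j.factorial : ℝ)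

/-- `C(n+3, 3) = (n+1)(n+2)(n+3)/6` -/
noncomputable def pw (n : ℕ) : ℝ := ((n : ℝ) + 1) * (n + 2) * (n + 3) / 6

theorem pw_pos (n : ℕ) : 0 < pw n := by unfold pw; positivity

/-- `C(n+2, 2) = (n+1)(n+2)/2` -/
noncomputable def tw (n : ℕ) : ℝ := ((n : ℝ) + 1) * (n + 2) / 2

theorem tw_pos (n : ℕ) : 0 < tw n := by unfold tw; positivity

/-- the function `w_n(t) = exp(-t/phi) L_n^(3)(√5 t) / √(C(n+3,3))` -/
noncomputable def wf (n : ℕ) (t : ℝ) : ℝ :=
  Real.exp (-(phi - 1) * t) * lag 3 n (s5 * t) / √(pw n)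

/-- the density `t^3 / (exp t - 1)` -/
noncomputable def dens (t : ℝ) : ℝ := t ^ 3 / (Real.exp t - 1)

/-- the Gram matrix of the functions `w_n` for the density `t^3/(exp t - 1)` -/
noncomputable def gram (n m : ℕ) : ℝ :=
  ∫ t in Set.Ioi (0 : ℝ), wf n t * wf m t * dens t

end Pool.Agent.Lib.MP_9ff751_an
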