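import Pool.Agent.Lib.MP_9ff751_an.Const

/-!
The Banach space `X` of the functions continuous on the closed disc with centre `1` and radius
`3/2` and analytic in its interior; the golden coordinate; the functions `W_n`.
-/

namespace Pool.Agent.Lib.MP_9ff751_an

open Set Classical

/-- the closed disc with centre `1` and radius `3/2` -/
abbrev Dbar : Set ℂ := Metric.closedBall (1 : ℂ) (3 / 2)

instance : CompactSpace Dbar := isCompact_iff_compactSpace.1 (isCompact_closedBall _ _)

/-- the extension of a function on the closed disc by the value zero outside -/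
noncomputable def ext (f : C(Dbar, ℂ)) (z : ℂ) : ℂ :=
  if h : z ∈ Dbar then f ⟨z, h⟩ else 0

theorem ext_add (f g : C(Dbar, ℂ)) (z : ℂ) : ext (f + g) z = ext f z + ext g z := by
  unfold ext
  split_ifs <;> simp

theorem ext_smul (c : ℂ) (f : C(Dbar, ℂ)) (z : ℂ) : ext (c • f) z = c * ext f z := by
  unfold ext
  split_ifs <;> simp

theorem ext_zero (z : ℂ) : ext 0 z = 0 := by
  unfold ext
  split_ifs <;> simp

theorem ext_coe (f : C(Dbar, ℂ)) (z : Dbar) : ext f z = f z := by
  unfold ext
  rw [dif_pos z.2]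

theorem norm_ext_le (f : C(Dbar, ℂ)) (z : ℂ) : ‖ext f z‖ ≤ ‖f‖ := by
  unfold ext
  split_ifs with h
  · exact f.norm_coe_le_norm ⟨z, h⟩
  · simp

theorem X_add_mem {f g : C(Dbar, ℂ)} (hf : DifferentiableOn ℂ (ext f) (Metric.ball (1 : ℂ) (3 / 2)))
    (hg : DifferentiableOn ℂ (ext g) (Metric.ball (1 : ℂ) (3 / 2))) :
    DifferentiableOn ℂ (ext (f + g)) (Metric.ball (1 : ℂ) (3 / 2)) := by
  have : ext (f + g) = fun z => ext f z + ext g z := funext (ext_add f g)
  rw [this]
  exact DifferentiableOn.fun_add hf hg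

theorem X_zero_mem : DifferentiableOn ℂ (ext 0) (Metric.ball (1 : ℂ) (3 / 2)) := by
  have : ext 0 = fun _ => 0 := funext ext_zero
  rw [this]
  exact differentiableOn_const _

theorem X_smul_mem (c : ℂ) {f : C(Dbar, ℂ)}
    (hf : DifferentiableOn ℂ (ext f) (Metric.ball (1 : ℂ) (3 / 2))) :
    DifferentiableOn ℂ (ext (c • f)) (Metric.ball (1 : ℂ) (3 / 2)) := by
  have : ext (c • f) = fun z => c * ext f z := funext (ext_smul c f)
  rw [this]
  exact DifferentiableOn.const_mul hf c

/-- The space `X`: the functions continuous on the closed disc and analytic (that is, complex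
differentiable) in the open disc, with the supremum norm. -/
def X : Submodule ℂ C(Dbar, ℂ) where
  carrier := {f | DifferentiableOn ℂ (ext f) (Metric.ball (1 : ℂ) (3 / 2))}
  add_mem' := X_add_mem
  zero_mem' := X_zero_mem
  smul_mem' := fun c _ hf => X_smul_mem c hf

/-- the inverse of the map `u = (z - (phi - 1)) / (z + phi)` -/
noncomputable def wU (u : ℂ) : ℂ := ((phi - 1 : ℝ) + phi * u) / (1 - u)

/-- the function `W_n(z) = ∑ k, (z + k - (phi - 1))^n / (z + k + phi)^(n+4)` -/
noncomputable def Wf (n : ℕ) (z : ℂ) : ℂ :=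
  ∑' k : ℕ, (z + k - (phi - 1 : ℝ)) ^ n / (z + k + phi) ^ (n + 4)

end Pool.Agent.Lib.MP_9ff751_an
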