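import Mathlib
import Pool.Agent.Lib.MP_9ff751_an.Const
import Pool.Agent.Lib.MP_9ff751_an.XDef

section

/-!
The operator `K = ∑ (-q)^n w_n ⊗ w_n` and the contraction `V`.
-/

namespace Pool.Agent.Lib.MP_9ff751_an

open Module Module.End

section Op

variable {H : Type*} [NormedAddCommGroup H] [InnerProductSpace ℂ H]

theorem op_summable (w : ℕ → H) (q C : ℝ) (hq : 0 < q) (hC0 : 0 ≤ C) (hC : C < 1)
    (hgram : ∀ (N : ℕ) (c : ℕ → ℂ), q * ‖∑ n ∈ Finset.range N, c n • w (n + 1)‖ ^ 2 ≤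
      C * ‖∑ n ∈ Finset.range N, c n • w n‖ ^ 2) :
    Summable (fun n => q ^ n * ‖w n‖ ^ 2) := by
  have hstep : ∀ n, q * ‖w (n + 1)‖ ^ 2 ≤ C * ‖w n‖ ^ 2 := by
    intro n
    have h := hgram (n + 1) (fun k => if k = n then 1 else 0)
    simpa [ite_smul, Finset.sum_ite_eq'] using h
  have hbd : ∀ n, q ^ n * ‖w n‖ ^ 2 ≤ C ^ n * ‖w 0‖ ^ 2 := by
    intro n
    induction n with
    | zero => simp
    | succ n ih =>
      calc q ^ (n + 1) * ‖w (n + 1)‖ ^ 2 = q ^ n * (q * ‖w (n + 1)‖ ^ 2) := by ring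
        _ ≤ q ^ n * (C * ‖w n‖ ^ 2) := mul_le_mul_of_nonneg_left (hstep n) (by positivity)
        _ = C * (q ^ n * ‖w n‖ ^ 2) := by ring
        _ ≤ C * (C ^ n * ‖w 0‖ ^ 2) := mul_le_mul_of_nonneg_left ih hC0
        _ = C ^ (n + 1) * ‖w 0‖ ^ 2 := by ring
  refine Summable.of_nonneg_of_le (fun n => by positivity) hbd ?_
  exact (summable_geometric_of_lt_one hC0 hC).mul_right _

theorem op_linearIndependent (w v : ℕ → H) (κ : ℝ) (hκ : κ ≠ 0)
    (hv : ∀ n m, inner ℂ (v n) (w m) = if n = m then (κ : ℂ) else 0) :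
    LinearIndependent ℂ w := by
  rw [linearIndependent_iff']
  intro s g hg i hi
  have h1 : inner ℂ (v i) (∑ j ∈ s, g j • w j) = g i * κ := by
    rw [inner_sum]
    simp only [inner_smul_right, hv]
    simp [hi]
  rw [hg, inner_zero_right] at h1
  have h2 : (κ : ℂ) ≠ 0 := by exact_mod_cast hκ
  rcases mul_eq_zero.1 h1.symm with h | h
  · exact h
  · exact absurd h h2

/-- the rank one operators -/
noncomputable def rk (w : ℕ → H) (q : ℝ) (n : ℕ) : H →L[ℂ] H :=
  ((-q : ℂ) ^ n) • (innerSL ℂ (w n)).smulRight (w n)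

theorem rk_apply (w : ℕ → H) (q : ℝ) (n : ℕ) (x : H) :
    rk w q n x = ((-q) ^ n * inner ℂ (w n) x : ℂ) • w n := by
  simp [rk, smul_smul]

theorem norm_rk_le (w : ℕ → H) (q : ℝ) (hq : 0 < q) (n : ℕ) :
    ‖rk w q n‖ ≤ q ^ n * ‖w n‖ ^ 2 := by
  refine ContinuousLinearMap.opNorm_le_bound _ (by positivity) fun x => ?_
  rw [rk_apply, norm_smul, norm_mul, norm_pow, norm_neg, Complex.norm_real, Real.norm_eq_abs,
    abs_of_pos hq]
  have := norm_inner_le_norm (𝕜 := ℂ) (w n) x
  calc q ^ n * ‖inner ℂ (w n) x‖ * ‖w n‖ ≤ q ^ n * (‖w n‖ * ‖x‖) * ‖w n‖ := by gcongr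
    _ = q ^ n * ‖w n‖ ^ 2 * ‖x‖ := by ring

theorem compact_rk (w : ℕ → H) (q : ℝ) (n : ℕ) : IsCompactOperator (rk w q n) := by
  have h1 : IsCompactOperator (((-q : ℂ) ^ n) • innerSL ℂ (w n) : H →L[ℂ] ℂ) :=
    isCompactOperator_of_locallyCompactSpace_dom _
  have h2 := h1.clm_comp (ContinuousLinearMap.toSpanSingleton ℂ (w n))
  have h3 : (rk w q n : H → H) =
      (ContinuousLinearMap.toSpanSingleton ℂ (w n)) ∘ (((-q : ℂ) ^ n) • innerSL ℂ (w n)) := by
    funext x
    simp [rk_apply, ContinuousLinearMap.toSpanSingleton_apply]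
  rw [h3]
  exact h2

theorem conj_coef (q : ℝ) (n : ℕ) : (starRingEnd ℂ) ((-q : ℂ) ^ n) = (-q : ℂ) ^ n := by
  simp

theorem symm_rk (w : ℕ → H) (q : ℝ) (n : ℕ) (x y : H) :
    inner ℂ (rk w q n x) y = inner ℂ x (rk w q n y) := by
  rw [rk_apply, rk_apply, inner_smul_left, inner_smul_right, map_mul, conj_coef,
    inner_conj_symm]
  ring

theorem re_rk (w : ℕ → H) (q : ℝ) (n : ℕ) (x : H) :
    (inner ℂ (rk w q n x) x).re = (-q) ^ n * ‖inner ℂ (w n) x‖ ^ 2 := by
  rw [rk_apply, inner_smul_left, map_mul, conj_coef, mul_assoc, mul_comm ((starRingEnd ℂ) _),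
    Complex.mul_conj, Complex.normSq_eq_norm_sq]
  have : ((-q : ℂ) ^ n) = (((-q) ^ n : ℝ) : ℂ) := by push_cast; ring
  rw [this, ← Complex.ofReal_mul, Complex.ofReal_re]

theorem compact_sum (w : ℕ → H) (q : ℝ) (N : ℕ) :
    IsCompactOperator (fun x => ∑ b ∈ Finset.range N, rk w q b x) := by
  induction N with
  | zero =>
    have e1 : (fun x : H => ∑ b ∈ Finset.range 0, rk w q b x) = (0 : H → H) := by
      funext x
      rw [Finset.sum_range_zero]
      rfl
    rw [e1]
    exact isCompactOperator_zero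
  | succ N ih =>
    have e1 : (fun x : H => ∑ b ∈ Finset.range (N + 1), rk w q b x) =
        (fun x : H => ∑ b ∈ Finset.range N, rk w q b x) + (fun x => rk w q N x) := by
      funext x
      rw [Finset.sum_range_succ]
      rfl
    rw [e1]
    exact ih.add (compact_rk w q N)

theorem hasSum_rk_apply (w : ℕ → H) (q : ℝ) (K : H →L[ℂ] H)
    (hK : HasSum (rk w q) K) (x : H) : HasSum (fun n => rk w q n x) (K x) := by
  have h := (ContinuousLinearMap.apply ℂ H x).hasSum hK
  exact h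

theorem compact_of_hasSum [CompleteSpace H] (w : ℕ → H) (q : ℝ) (K : H →L[ℂ] H)
    (hK : HasSum (rk w q) K) : IsCompactOperator K := by
  have h1 : ∀ N, IsCompactOperator (∑ b ∈ Finset.range N, rk w q b : H →L[ℂ] H) := by
    intro N
    have e1 : ((∑ b ∈ Finset.range N, rk w q b : H →L[ℂ] H) : H → H) =
        fun x => ∑ b ∈ Finset.range N, rk w q b x := by
      funext x
      exact sum_apply _ _ _
    rw [e1]
    exact compact_sum w q N
  have h2 := hK.tendsto_sum_nat
  exact isCompactOperator_of_tendsto h2 (Filter.Eventually.of_forall h1)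

theorem exists_rk_sum [CompleteSpace H] (w : ℕ → H) (q : ℝ) (hq : 0 < q)
    (hsum : Summable (fun n => q ^ n * ‖w n‖ ^ 2)) : ∃ K, HasSum (rk w q) K :=
  Summable.of_norm_bounded hsum (fun n => norm_rk_le w q hq n)

theorem op_sum [CompleteSpace H] (w : ℕ → H) (q : ℝ) (hq : 0 < q)
    (hsum : Summable (fun n => q ^ n * ‖w n‖ ^ 2)) :
    ∃ K : H →L[ℂ] H, IsCompactOperator K ∧ ∀ x, HasSum (fun n => rk w q n x) (K x) := by
  obtain ⟨K, hK⟩ := exists_rk_sum w q hq hsum
  exact ⟨K, compact_of_hasSum w q K hK, fun x => hasSum_rk_apply w q K hK x⟩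

theorem op_symm (w : ℕ → H) (q : ℝ) (K : H →L[ℂ] H)
    (hK : ∀ x, HasSum (fun n => rk w q n x) (K x)) : (K : H →ₗ[ℂ] H).IsSymmetric := by
  intro x y
  have h1 : HasSum (fun n => inner ℂ (rk w q n x) y) (inner ℂ (K x) y) := by
    have h := ((innerSL ℂ y).hasSum (hK x)).star
    have e1 : (fun n => inner ℂ (rk w q n x) y) = fun n => star (innerSL ℂ y (rk w q n x)) := by
      funext n
      rw [innerSL_apply_apply]
      exact (inner_conj_symm _ _).symm
    have e2 : inner ℂ (K x) y = star (innerSL ℂ y (K x)) := by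
      rw [innerSL_apply_apply]
      exact (inner_conj_symm _ _).symm
    rw [e1, e2]
    exact h
  have h2 : HasSum (fun n => inner ℂ x (rk w q n y)) (inner ℂ x (K y)) :=
    (innerSL ℂ x).hasSum (hK y)
  simp only [symm_rk] at h1
  exact h1.unique h2

theorem op_re (w : ℕ → H) (q : ℝ) (K : H →L[ℂ] H)
    (hK : ∀ x, HasSum (fun n => rk w q n x) (K x)) (x : H) :
    HasSum (fun n => (-q) ^ n * ‖inner ℂ (w n) x‖ ^ 2) (inner ℂ (K x) x).re := by
  have h2 : HasSum (fun n => inner ℂ x (rk w q n x)) (inner ℂ x (K x)) :=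
    (innerSL ℂ x).hasSum (hK x)
  have h3 := Complex.hasSum_re h2
  have h4 : (inner ℂ x (K x)).re = (inner ℂ (K x) x).re := by
    rw [← inner_conj_symm, Complex.conj_re]
  rw [h4] at h3
  have e1 : (fun n => (-q) ^ n * ‖inner ℂ (w n) x‖ ^ 2) =
      fun n => (inner ℂ x (rk w q n x)).re := by
    funext n
    rw [← symm_rk, re_rk]
  rw [e1]
  exact h3

theorem op_injective (w v : ℕ → H) (hd : Dense (Submodule.span ℂ (Set.range w) : Set H))
    (q κ : ℝ) (hq : 0 < q) (hκ : κ ≠ 0)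
    (hv : ∀ n m, inner ℂ (v n) (w m) = if n = m then (κ : ℂ) else 0) (K : H →L[ℂ] H)
    (hK : ∀ x, HasSum (fun n => rk w q n x) (K x)) (x : H) (hx : K x = 0) : x = 0 := by
  have hw : ∀ n, inner ℂ (w n) x = 0 := by
    intro n
    have h1 : HasSum (fun m => inner ℂ (v n) (rk w q m x)) (inner ℂ (v n) (K x)) :=
      (innerSL ℂ (v n)).hasSum (hK x)
    have h2 : HasSum (fun m => inner ℂ (v n) (rk w q m x)) (inner ℂ (v n) (rk w q n x)) := by
      refine hasSum_single n fun m hm => ?_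
      rw [rk_apply, inner_smul_right, hv, if_neg (Ne.symm hm), mul_zero]
    have h3 := h1.unique h2
    rw [hx, inner_zero_right, rk_apply, inner_smul_right, hv, if_pos rfl] at h3
    have h4 : (κ : ℂ) ≠ 0 := by exact_mod_cast hκ
    have h5 : ((-q : ℂ) ^ n) ≠ 0 := pow_ne_zero _ (neg_ne_zero.2 (by exact_mod_cast hq.ne'))
    rcases mul_eq_zero.1 h3.symm with h | h
    · rcases mul_eq_zero.1 h with h | h
      · exact absurd h h5
      · exact h
    · exact absurd h h4
  refine hd.eq_zero_of_inner_right ℂ fun y hy => ?_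
  refine Submodule.span_induction (p := fun y _ => inner ℂ y x = 0) ?_ ?_ ?_ ?_ hy
  · rintro _ ⟨n, rfl⟩
    exact hw n
  · exact inner_zero_left _
  · intro a b _ _ ha hb
    rw [inner_add_left, ha, hb, add_zero]
  · intro c a _ ha
    rw [inner_smul_left, ha, mul_zero]

theorem op_V [CompleteSpace H] (w : ℕ → H)
    (hd : Dense (Submodule.span ℂ (Set.range w) : Set H))
    (q C : ℝ) (hq : 0 < q) (hC0 : 0 ≤ C)
    (hgram : ∀ (N : ℕ) (c : ℕ → ℂ), q * ‖∑ n ∈ Finset.range N, c n • w (n + 1)‖ ^ 2 ≤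
      C * ‖∑ n ∈ Finset.range N, c n • w n‖ ^ 2) :
    ∃ V : H →L[ℂ] H, (∀ x, ‖V x‖ ^ 2 ≤ C * ‖x‖ ^ 2) ∧
      ∀ n x, inner ℂ (w n) (V x) = (Real.sqrt q : ℂ) * inner ℂ (w (n + 1)) x := by
  let e : (ℕ →₀ ℂ) →ₗ[ℂ] H := Finsupp.linearCombination ℂ w
  let f : (ℕ →₀ ℂ) →ₗ[ℂ] H :=
    (Real.sqrt q : ℂ) • Finsupp.linearCombination ℂ (fun n => w (n + 1))
  have he : DenseRange e := by
    have h1 : Set.range e = (Submodule.span ℂ (Set.range w) : Set H) := by
      rw [← LinearMap.coe_range, Finsupp.range_linearCombination]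
    unfold DenseRange
    rw [h1]
    exact hd
  have hfe : ∀ c, ‖f c‖ ≤ Real.sqrt C * ‖e c‖ := by
    intro c
    obtain ⟨N, hN⟩ : ∃ N, c.support ⊆ Finset.range N := by
      obtain ⟨N, hN⟩ := c.support.exists_nat_subset_range
      exact ⟨N, hN⟩
    have h1 : e c = ∑ n ∈ Finset.range N, c n • w n := by
      change Finsupp.linearCombination ℂ w c = _
      rw [Finsupp.linearCombination_apply]
      exact Finsupp.sum_of_support_subset _ hN _ (by simp)
    have h2 : f c = (Real.sqrt q : ℂ) • ∑ n ∈ Finset.range N, c n • w (n + 1) := by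
      change (Real.sqrt q : ℂ) • Finsupp.linearCombination ℂ (fun n => w (n + 1)) c = _
      rw [Finsupp.linearCombination_apply]
      congr 1
      exact Finsupp.sum_of_support_subset _ hN _ (by simp)
    rw [h1, h2, norm_smul, Complex.norm_real, Real.norm_eq_abs, abs_of_nonneg (Real.sqrt_nonneg q)]
    have h3 := hgram N c
    have h4 : Real.sqrt (q * ‖∑ n ∈ Finset.range N, c n • w (n + 1)‖ ^ 2) ≤
      Real.sqrt (C * ‖∑ n ∈ Finset.range N, c n • w n‖ ^ 2) := Real.sqrt_le_sqrt h3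
    rwa [Real.sqrt_mul hq.le, Real.sqrt_mul hC0, Real.sqrt_sq (norm_nonneg _),
      Real.sqrt_sq (norm_nonneg _)] at h4
  obtain ⟨V0, hV0⟩ : ∃ V0 : H →L[ℂ] H, V0 = f.extendOfNorm e := ⟨_, rfl⟩
  have hV0w : ∀ n, V0 (w n) = (Real.sqrt q : ℂ) • w (n + 1) := by
    intro n
    have h1 := LinearMap.extendOfNorm_eq he ⟨_, hfe⟩ (Finsupp.single n 1)
    have h2 : e (Finsupp.single n 1) = w n := by
      change Finsupp.linearCombination ℂ w _ = _
      simp
    have h3 : f (Finsupp.single n 1) = (Real.sqrt q : ℂ) • w (n + 1) := by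
      change (Real.sqrt q : ℂ) • Finsupp.linearCombination ℂ (fun n => w (n + 1)) _ = _
      simp
    rw [h2, h3] at h1
    rw [hV0]
    exact h1
  have hV0n : ‖V0‖ ≤ Real.sqrt C := by
    rw [hV0]
    exact LinearMap.opNorm_extendOfNorm_le he (Real.sqrt_nonneg C) hfe
  refine ⟨ContinuousLinearMap.adjoint V0, ?_, ?_⟩
  · intro x
    have h1 : ‖ContinuousLinearMap.adjoint V0‖ = ‖V0‖ :=
      (ContinuousLinearMap.adjoint (𝕜 := ℂ) (E := H) (F := H)).norm_map V0
    have h2 := (ContinuousLinearMap.adjoint V0).le_opNorm x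
    rw [h1] at h2
    have h3 : ‖ContinuousLinearMap.adjoint V0 x‖ ≤ Real.sqrt C * ‖x‖ :=
      h2.trans (mul_le_mul_of_nonneg_right hV0n (norm_nonneg _))
    calc ‖ContinuousLinearMap.adjoint V0 x‖ ^ 2 ≤ (Real.sqrt C * ‖x‖) ^ 2 :=
          pow_le_pow_left₀ (norm_nonneg _) h3 2
      _ = C * ‖x‖ ^ 2 := by rw [mul_pow, Real.sq_sqrt hC0]
  · intro n x
    rw [ContinuousLinearMap.adjoint_inner_right, hV0w, inner_smul_left, Complex.conj_ofReal]

end Op

/-- `w` is a sequence of vectors of a Hilbert space `H` with dense span, whose Gram matrix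
dominates `q / C` times its shift, and `v` is a sequence dual to `w`. -/
theorem exists_operator {H : Type*} [NormedAddCommGroup H] [InnerProductSpace ℂ H]
    [CompleteSpace H] (w v : ℕ → H) (hd : Dense (Submodule.span ℂ (Set.range w) : Set H))
    (q C κ : ℝ) (hq : 0 < q) (hC0 : 0 ≤ C) (hC : C < 1)
    (hκ : κ ≠ 0)
    (hgram : ∀ (N : ℕ) (c : ℕ → ℂ), q * ‖∑ n ∈ Finset.range N, c n • w (n + 1)‖ ^ 2 ≤
      C * ‖∑ n ∈ Finset.range N, c n • w n‖ ^ 2)
    (hv : ∀ n m, inner ℂ (v n) (w m) = if n = m then (κ : ℂ) else 0) :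
    Summable (fun n => q ^ n * ‖w n‖ ^ 2) ∧ ¬ FiniteDimensional ℂ H ∧
    ∃ K V : H →L[ℂ] H, IsCompactOperator K ∧ (K : H →ₗ[ℂ] H).IsSymmetric ∧
      (∀ x, K x = 0 → x = 0) ∧
      (∀ x, HasSum (fun n => ((-q) ^ n * inner ℂ (w n) x : ℂ) • w n) (K x)) ∧
      (∀ x, ‖V x‖ ^ 2 ≤ C * ‖x‖ ^ 2) ∧
      ∀ x, (inner ℂ (K (V x)) (V x)).re = - (inner ℂ (K x) x).re + ‖inner ℂ (w 0) x‖ ^ 2 := by
  have hsum := op_summable w q C hq hC0 hC hgram
  refine ⟨hsum, ?_, ?_⟩
  · intro hfin
    have hli := op_linearIndependent w v κ hκ hv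
    have := hli.finite_of_isNoetherian
    exact not_finite ℕ
  obtain ⟨K, hKc, hK⟩ := op_sum w q hq hsum
  obtain ⟨V, hV1, hV2⟩ := op_V w hd q C hq hC0 hgram
  refine ⟨K, V, hKc, op_symm w q K hK, op_injective w v hd q κ hq hκ hv K hK, ?_, hV1, ?_⟩
  · intro x
    have := hK x
    simp only [rk_apply] at this
    exact this
  · intro x
    have h1 := op_re w q K hK x
    have h2 := op_re w q K hK (V x)
    have h3 : HasSum (fun n => (-q) ^ (n + 1) * ‖inner ℂ (w (n + 1)) x‖ ^ 2)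
        (- (inner ℂ (K (V x)) (V x)).re) := by
      have h4 := h2.neg
      have e1 : (fun n => (-q) ^ (n + 1) * ‖inner ℂ (w (n + 1)) x‖ ^ 2) =
          fun n => -((-q) ^ n * ‖inner ℂ (w n) (V x)‖ ^ 2) := by
        funext n
        rw [hV2, norm_mul, Complex.norm_real, Real.norm_eq_abs, abs_of_nonneg (Real.sqrt_nonneg q),
          mul_pow, Real.sq_sqrt hq.le]
        ring
      rw [e1]
      exact h4
    have h5 := (hasSum_nat_add_iff' 1).2 h1
    have h6 := h3.unique h5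
    rw [Finset.sum_range_one, pow_zero, one_mul] at h6
    linarith

end Pool.Agent.Lib.MP_9ff751_an
end

section

/-!
The generating function of the Laguerre polynomials, and their Laplace transforms.
-/

namespace Pool.Agent.Lib.MP_9ff751_an

open MeasureTheory Set

/-- the double family behind the generating function -/
noncomputable def gfam (y u : ℂ) (p : ℕ × ℕ) : ℂ :=
  y ^ p.1 / (p.1.factorial : ℂ) * ((((p.2 + (p.1 + 3)).choose (p.1 + 3) : ℕ) : ℂ) * u ^ (p.1 + p.2))

theorem gfam_row (y u : ℂ) (hu : ‖u‖ < 1) (j : ℕ) :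
    HasSum (fun i => gfam y u (j, i))
      (((1 - u) ^ 4)⁻¹ * ((y * u / (1 - u)) ^ j / (j.factorial : ℂ))) := by
  have h1 : (1 - u) ≠ 0 := by
    intro h
    have : u = 1 := by linear_combination -h
    rw [this, norm_one] at hu
    exact lt_irrefl _ hu
  have h := (hasSum_choose_mul_geometric_of_norm_lt_one (j + 3) hu).mul_left
    (y ^ j / (j.factorial : ℂ) * u ^ j)
  have hf : (j.factorial : ℂ) ≠ 0 := by exact_mod_cast Nat.factorial_ne_zero j
  have e1 : (fun i => gfam y u (j, i)) = fun i =>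
      y ^ j / (j.factorial : ℂ) * u ^ j * ((((i + (j + 3)).choose (j + 3) : ℕ) : ℂ) * u ^ i) := by
    funext i
    simp only [gfam]
    rw [pow_add u j i]
    ring
  have e2 : ((1 - u) ^ 4)⁻¹ * ((y * u / (1 - u)) ^ j / (j.factorial : ℂ)) =
      y ^ j / (j.factorial : ℂ) * u ^ j * (1 / (1 - u) ^ (j + 3 + 1)) := by
    rw [div_pow, mul_pow, pow_add (1 - u) (j + 3) 1, pow_add (1 - u) j 3]
    field_simp
  rw [e1, e2]
  exact h

theorem gfam_summable_real (y r : ℝ) (hy : 0 ≤ y) (hr : 0 ≤ r) (hr1 : r < 1) :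
    Summable (fun p : ℕ × ℕ => y ^ p.1 / (p.1.factorial : ℝ) *
      ((((p.2 + (p.1 + 3)).choose (p.1 + 3) : ℕ) : ℝ) * r ^ (p.1 + p.2))) := by
  have h1 : (1 - r) ≠ 0 := by linarith
  have hn : ‖r‖ < 1 := by rwa [Real.norm_eq_abs, abs_of_nonneg hr]
  have hrow : ∀ j : ℕ, HasSum (fun i => y ^ j / (j.factorial : ℝ) *
      ((((i + (j + 3)).choose (j + 3) : ℕ) : ℝ) * r ^ (j + i)))
      (((1 - r) ^ 4)⁻¹ * ((y * r / (1 - r)) ^ j / (j.factorial : ℝ))) := by
    intro j
    have h := (hasSum_choose_mul_geometric_of_norm_lt_one (j + 3) hn).mul_left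
      (y ^ j / (j.factorial : ℝ) * r ^ j)
    have hf : (j.factorial : ℝ) ≠ 0 := by exact_mod_cast Nat.factorial_ne_zero j
    have e1 : (fun i => y ^ j / (j.factorial : ℝ) *
      ((((i + (j + 3)).choose (j + 3) : ℕ) : ℝ) * r ^ (j + i))) = fun i =>
        y ^ j / (j.factorial : ℝ) * r ^ j * ((((i + (j + 3)).choose (j + 3) : ℕ) : ℝ) * r ^ i) := by
      funext i
      rw [pow_add r j i]
      ring
    have e2 : ((1 - r) ^ 4)⁻¹ * ((y * r / (1 - r)) ^ j / (j.factorial : ℝ)) =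
        y ^ j / (j.factorial : ℝ) * r ^ j * (1 / (1 - r) ^ (j + 3 + 1)) := by
      rw [div_pow, mul_pow, pow_add (1 - r) (j + 3) 1, pow_add (1 - r) j 3]
      field_simp
    rw [e1, e2]
    exact h
  rw [summable_prod_of_nonneg]
  · refine ⟨fun j => (hrow j).summable, ?_⟩
    have : (fun j => ∑' i, y ^ (j, i).1 / ((j, i).1.factorial : ℝ) *
      (((((j, i).2 + ((j, i).1 + 3)).choose ((j, i).1 + 3) : ℕ) : ℝ) * r ^ ((j, i).1 + (j, i).2)))
        = fun j => ((1 - r) ^ 4)⁻¹ * ((y * r / (1 - r)) ^ j / (j.factorial : ℝ)) := by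
      funext j
      exact (hrow j).tsum_eq
    rw [this]
    exact (Real.summable_pow_div_factorial _).mul_left _
  · intro p
    show (0 : ℝ) ≤ _
    positivity

theorem gfam_summable (y u : ℂ) (hu : ‖u‖ < 1) : Summable (gfam y u) := by
  refine Summable.of_norm_bounded (gfam_summable_real ‖y‖ ‖u‖ (norm_nonneg _) (norm_nonneg _) hu) ?_
  intro p
  unfold gfam
  rw [norm_mul, norm_div, norm_pow, norm_mul, norm_pow, Complex.norm_natCast, Complex.norm_natCast]

theorem gfam_hasSum (y u : ℂ) (hu : ‖u‖ < 1) :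
    HasSum (gfam y u) (((1 - u) ^ 4)⁻¹ * Complex.exp (y * u / (1 - u))) := by
  have h1 := (gfam_summable y u hu).hasSum
  have h2 := h1.prod_fiberwise (fun j => gfam_row y u hu j)
  have h3 : HasSum (fun j : ℕ => ((1 - u) ^ 4)⁻¹ * ((y * u / (1 - u)) ^ j / (j.factorial : ℂ)))
      (((1 - u) ^ 4)⁻¹ * Complex.exp (y * u / (1 - u))) := by
    refine HasSum.mul_left _ ?_
    have h4 := NormedSpace.expSeries_div_hasSum_exp (𝔸 := ℂ) (y * u / (1 - u))
    rw [← Complex.exp_eq_exp_ℂ] at h4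
    exact h4
  rw [h2.unique h3] at h1
  exact h1

theorem lag_eq_sum (x : ℝ) (u : ℂ) (n : ℕ) :
    (lag 3 n x : ℂ) * u ^ n = ∑ p ∈ Finset.HasAntidiagonal.antidiagonal n, gfam (-(x : ℂ)) u p := by
  rw [Finset.Nat.sum_antidiagonal_eq_sum_range_succ_mk]
  unfold lag
  push_cast
  rw [Finset.sum_mul]
  refine Finset.sum_congr rfl fun j hj => ?_
  have hj' : j ≤ n := Nat.lt_succ_iff.1 (Finset.mem_range.1 hj)
  unfold gfam
  have h1 : (n - j + (j + 3)).choose (j + 3) = (n + 3).choose (n - j) := by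
    have : n - j + (j + 3) = n + 3 := by omega
    rw [this]
    exact Nat.choose_symm_of_eq_add (by omega)
  have h2 : j + (n - j) = n := by omega
  simp only
  rw [h1, h2, neg_pow (x : ℂ) j]
  ring

/-- the generating function -/
theorem hasSum_lag (x : ℝ) (u : ℂ) (hu : ‖u‖ < 1) :
    HasSum (fun n => (lag 3 n x : ℂ) * u ^ n)
      (((1 - u) ^ 4)⁻¹ * Complex.exp (-(x * u / (1 - u)))) := by
  have h1 := gfam_hasSum (-(x : ℂ)) u hu
  have h2 := (Finset.HasAntidiagonal.sigmaAntidiagonalEquivProd (A := ℕ)).hasSum_iff.2 h1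
  have h3 := h2.sigma (g := fun n => (lag 3 n x : ℂ) * u ^ n) (fun n => by
    have h4 := hasSum_fintype (fun c : Finset.HasAntidiagonal.antidiagonal n =>
      (gfam (-(x : ℂ)) u ∘ Finset.HasAntidiagonal.sigmaAntidiagonalEquivProd) ⟨n, c⟩)
    convert h4 using 1
    rw [lag_eq_sum]
    exact (Finset.sum_coe_sort (Finset.HasAntidiagonal.antidiagonal n) (gfam (-(x : ℂ)) u)).symm)
  convert h3 using 3
  ring

theorem abs_lag_le (x : ℝ) (hx : 0 ≤ x) (n : ℕ) : |lag 3 n x| ≤ lag 3 n (-x) := by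
  unfold lag
  refine (Finset.abs_sum_le_sum_abs _ _).trans (le_of_eq (Finset.sum_congr rfl fun j _ => ?_))
  rw [abs_div, abs_mul, abs_mul, abs_pow, abs_neg, abs_one, one_pow, abs_pow, abs_of_nonneg hx,
    Nat.abs_cast, Nat.abs_cast, neg_pow x j]
  have h : ((-1 : ℝ) ^ j) * (-1) ^ j = 1 := by
    rw [← mul_pow]; norm_num
  rw [show (-1 : ℝ) ^ j * (((n + 3).choose (n - j) : ℕ) : ℝ) * ((-1) ^ j * x ^ j) =
    ((-1) ^ j * (-1) ^ j) * ((((n + 3).choose (n - j) : ℕ) : ℝ) * x ^ j) by ring, h]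
  ring

/-- absolute convergence, with a bound -/
theorem summable_lag (x : ℝ) (hx : 0 ≤ x) (r : ℝ) (hr : 0 ≤ r) (hr1 : r < 1) :
    Summable (fun n => |lag 3 n x| * r ^ n) ∧
      ∑' n, |lag 3 n x| * r ^ n ≤ ((1 - r) ^ 4)⁻¹ * Real.exp (x * r / (1 - r)) := by
  have hn : ‖(r : ℂ)‖ < 1 := by
    rw [Complex.norm_real, Real.norm_eq_abs, abs_of_nonneg hr]; exact hr1
  have h1 := hasSum_lag (-x) (r : ℂ) hn
  have h2 : HasSum (fun n => lag 3 n (-x) * r ^ n)
      (((1 - r) ^ 4)⁻¹ * Real.exp (x * r / (1 - r))) := by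
    rw [← Complex.hasSum_ofReal]
    convert h1 using 1
    · funext n
      push_cast
      rfl
    · push_cast
      congr 2
      ring
  have hle : ∀ n, |lag 3 n x| * r ^ n ≤ lag 3 n (-x) * r ^ n := fun n =>
    mul_le_mul_of_nonneg_right (abs_lag_le x hx n) (pow_nonneg hr n)
  have hs : Summable (fun n => |lag 3 n x| * r ^ n) :=
    Summable.of_nonneg_of_le (fun n => mul_nonneg (abs_nonneg _) (pow_nonneg hr n)) hle h2.summable
  refine ⟨hs, ?_⟩
  rw [← h2.tsum_eq]
  exact hs.tsum_le_tsum hle h2.summable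

theorem integrable_pow_exp (p : ℕ) (a : ℂ) (ha : 0 < a.re) :
    IntegrableOn (fun t : ℝ => (t : ℂ) ^ p * Complex.exp (-(a * t))) (Ioi 0) := by
  have h1 := integrableOn_rpow_mul_exp_neg_mul_rpow (p := 1) (s := (p : ℝ)) (b := a.re)
    (by have : (0 : ℝ) ≤ p := Nat.cast_nonneg p
        linarith) one_pos ha
  refine Integrable.mono' h1 ?_ ?_
  · exact Continuous.aestronglyMeasurable (by fun_prop)
  · refine (ae_restrict_iff' measurableSet_Ioi).2 (Filter.Eventually.of_forall fun t ht => ?_)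
    have ht0 : (0 : ℝ) < t := ht
    rw [norm_mul, norm_pow, Complex.norm_real, Real.norm_eq_abs, abs_of_pos ht0,
      Complex.norm_exp, Real.rpow_natCast, Real.rpow_one]
    apply le_of_eq
    congr 2
    simp

theorem tendsto_pow_exp (p : ℕ) (a : ℂ) (ha : 0 < a.re) :
    Filter.Tendsto (fun t : ℝ => (t : ℂ) ^ p * Complex.exp (-(a * t))) Filter.atTop (nhds 0) := by
  rw [tendsto_zero_iff_norm_tendsto_zero]
  have h1 := tendsto_rpow_mul_exp_neg_mul_atTop_nhds_zero (p : ℝ) a.re ha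
  refine h1.congr' ?_
  filter_upwards [Filter.eventually_gt_atTop (0 : ℝ)] with t ht0
  rw [norm_mul, norm_pow, Complex.norm_real, Real.norm_eq_abs, abs_of_pos ht0,
    Complex.norm_exp, Real.rpow_natCast]
  congr 2
  simp

theorem integral_pow_exp (p : ℕ) (a : ℂ) (ha : 0 < a.re) :
    ∫ t in Ioi (0 : ℝ), (t : ℂ) ^ p * Complex.exp (-(a * t)) = (p.factorial : ℂ) / a ^ (p + 1) := by
  have ha0 : a ≠ 0 := by
    rintro rfl
    simp at ha
  have hder : ∀ (t : ℝ), HasDerivAt (fun t : ℝ => Complex.exp (-(a * t)))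
      (-a * Complex.exp (-(a * t))) t := by
    intro t
    have h1 : HasDerivAt (fun t : ℝ => (t : ℂ)) 1 t := Complex.ofRealCLM.hasDerivAt
    have h2 : HasDerivAt (fun t : ℝ => -(a * (t : ℂ))) (-(a * 1)) t := (h1.const_mul a).neg
    exact h2.cexp.congr_deriv (by ring)
  induction p with
  | zero =>
    have h1 := integral_Ioi_of_hasDerivAt_of_tendsto' (a := (0 : ℝ))
      (f := fun t : ℝ => (-a⁻¹) * Complex.exp (-(a * t)))
      (f' := fun t : ℝ => (t : ℂ) ^ 0 * Complex.exp (-(a * t))) (m := (-a⁻¹) * 0)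
      (fun t _ => by
        refine ((hder t).const_mul (-a⁻¹)).congr_deriv ?_
        rw [pow_zero]
        field_simp) (integrable_pow_exp 0 a ha)
      (by
        have h3 := (tendsto_pow_exp 0 a ha).const_mul (-a⁻¹)
        simpa using h3)
    rw [h1]
    simp
  | succ p ih =>
    have hd : ∀ t : ℝ, HasDerivAt (fun t : ℝ => (t : ℂ) ^ (p + 1) * Complex.exp (-(a * t)))
        (((p : ℂ) + 1) * ((t : ℂ) ^ p * Complex.exp (-(a * t))) -
          a * ((t : ℂ) ^ (p + 1) * Complex.exp (-(a * t)))) t := by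
      intro t
      have h1 : HasDerivAt (fun t : ℝ => (t : ℂ)) 1 t := Complex.ofRealCLM.hasDerivAt
      have h2 := (h1.pow (p + 1)).mul (hder t)
      refine h2.congr_deriv ?_
      simp
      ring
    have hI1 := integrable_pow_exp p a ha
    have hI2 := integrable_pow_exp (p + 1) a ha
    have h1 := integral_Ioi_of_hasDerivAt_of_tendsto' (a := (0 : ℝ)) (fun t _ => hd t)
      ((hI1.const_mul _).sub (hI2.const_mul _)) (tendsto_pow_exp (p + 1) a ha)
    rw [integral_sub (hI1.const_mul _) (hI2.const_mul _), integral_const_mul,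
      integral_const_mul, ih] at h1
    have h0 : ((0 : ℝ) : ℂ) ^ (p + 1) * Complex.exp (-(a * ((0 : ℝ) : ℂ))) = 0 := by
      simp
    simp only [h0, sub_zero] at h1
    have h2 : a * ∫ t in Ioi (0 : ℝ), (t : ℂ) ^ (p + 1) * Complex.exp (-(a * t)) =
        ((p : ℂ) + 1) * ((p.factorial : ℂ) / a ^ (p + 1)) := by
      linear_combination -h1
    have h3 : ∫ t in Ioi (0 : ℝ), (t : ℂ) ^ (p + 1) * Complex.exp (-(a * t)) =
        a⁻¹ * (((p : ℂ) + 1) * ((p.factorial : ℂ) / a ^ (p + 1))) := by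
      rw [← h2, ← mul_assoc, inv_mul_cancel₀ ha0, one_mul]
    rw [h3, Nat.factorial_succ, pow_succ a (p + 1)]
    push_cast
    field_simp

/-- the Laplace transform of `t^3 L_n(c t)` -/
theorem integral_laplace (n : ℕ) (c : ℝ) (a : ℂ) (ha : 0 < a.re) :
    IntegrableOn (fun t : ℝ => (t : ℂ) ^ 3 * (lag 3 n (c * t) : ℂ) * Complex.exp (-(a * t)))
      (Ioi 0) ∧
    ∫ t in Ioi (0 : ℝ), (t : ℂ) ^ 3 * (lag 3 n (c * t) : ℂ) * Complex.exp (-(a * t)) =
      6 * (pw n : ℂ) * (a - c) ^ n / a ^ (n + 4) := by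
  have ha0 : a ≠ 0 := by
    rintro rfl
    simp at ha
  have hexp : (fun t : ℝ => (t : ℂ) ^ 3 * (lag 3 n (c * t) : ℂ) * Complex.exp (-(a * t))) =
      fun t : ℝ => ∑ j ∈ Finset.range (n + 1),
        ((-1) ^ j * (((n + 3).choose (n - j) : ℕ) : ℂ) * (c : ℂ) ^ j / (j.factorial : ℂ)) *
          ((t : ℂ) ^ (j + 3) * Complex.exp (-(a * t))) := by
    funext t
    unfold lag
    push_cast
    rw [Finset.mul_sum, Finset.sum_mul]
    refine Finset.sum_congr rfl fun j _ => ?_
    rw [mul_pow, pow_add]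
    ring
  have hint : ∀ j ∈ Finset.range (n + 1), IntegrableOn (fun t : ℝ =>
      ((-1) ^ j * (((n + 3).choose (n - j) : ℕ) : ℂ) * (c : ℂ) ^ j / (j.factorial : ℂ)) *
          ((t : ℂ) ^ (j + 3) * Complex.exp (-(a * t)))) (Ioi 0) := fun j _ =>
    (integrable_pow_exp (j + 3) a ha).const_mul _
  rw [hexp]
  refine ⟨integrable_finsetSum _ hint, ?_⟩
  rw [integral_finsetSum _ hint]
  have hterm : ∀ j ∈ Finset.range (n + 1),
      ∫ t in Ioi (0 : ℝ), ((-1) ^ j * (((n + 3).choose (n - j) : ℕ) : ℂ) * (c : ℂ) ^ j /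
        (j.factorial : ℂ)) * ((t : ℂ) ^ (j + 3) * Complex.exp (-(a * t))) =
      6 * (pw n : ℂ) / a ^ (n + 4) * ((-(c : ℂ)) ^ j * a ^ (n - j) * ((n.choose j : ℕ) : ℂ)) := by
    intro j hj
    have hj' : j ≤ n := Nat.lt_succ_iff.1 (Finset.mem_range.1 hj)
    rw [integral_const_mul, integral_pow_exp (j + 3) a ha]
    obtain ⟨k, rfl⟩ := Nat.exists_eq_add_of_le hj'
    have e1 : j + k - j = k := by omega
    rw [e1]
    have e2 : (((j + k + 3).choose k : ℕ) : ℂ) * ((j + 3).factorial : ℂ) * (k.factorial : ℂ) =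
        ((j + k + 3).factorial : ℂ) := by
      have := Nat.choose_mul_factorial_mul_factorial (n := j + k + 3) (k := k) (by omega)
      have e : j + k + 3 - k = j + 3 := by omega
      rw [e] at this
      have h' : (j + k + 3).choose k * (j + 3).factorial * k.factorial = (j + k + 3).factorial := by
        rw [← this]; ring
      exact_mod_cast h'
    have e3 : (((j + k).choose j : ℕ) : ℂ) * (j.factorial : ℂ) * (k.factorial : ℂ) =
        ((j + k).factorial : ℂ) := by
      have := Nat.choose_mul_factorial_mul_factorial (n := j + k) (k := j) (by omega)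
      rw [e1] at this
      exact_mod_cast this
    have e4 : ((j + k + 3).factorial : ℂ) = 6 * (pw (j + k) : ℂ) * ((j + k).factorial : ℂ) := by
      rw [Nat.factorial_succ, Nat.factorial_succ, Nat.factorial_succ]
      unfold pw
      push_cast
      ring
    have fj : (j.factorial : ℂ) ≠ 0 := by exact_mod_cast Nat.factorial_ne_zero j
    have fk : (k.factorial : ℂ) ≠ 0 := by exact_mod_cast Nat.factorial_ne_zero k
    have e5 : (((j + k + 3).choose k : ℕ) : ℂ) * ((j + 3).factorial : ℂ) =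
        6 * (pw (j + k) : ℂ) * ((((j + k).choose j : ℕ) : ℂ) * (j.factorial : ℂ)) := by
      apply mul_right_cancel₀ fk
      rw [e2, e4, ← e3]
      ring
    have e6 : a ^ (j + k + 4) = a ^ (j + 3 + 1) * a ^ k := by
      rw [← pow_add]; congr 1; omega
    rw [e6, neg_pow (c : ℂ) j]
    field_simp
    linear_combination ((c : ℂ) ^ j) * e5
  rw [Finset.sum_congr rfl hterm, ← Finset.mul_sum]
  have hb : ∑ j ∈ Finset.range (n + 1), (-(c : ℂ)) ^ j * a ^ (n - j) * ((n.choose j : ℕ) : ℂ) =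
      (a - c) ^ n := by
    rw [← add_pow]
    congr 1
    ring
  rw [hb]
  ring

end Pool.Agent.Lib.MP_9ff751_an
end

section

/-!
The Banach space `X`: basic facts, and the transfer operator `G_4` on it.
-/

namespace Pool.Agent.Lib.MP_9ff751_an

open Set Filter Topology

theorem continuousOn_ext (f : C(Dbar, ℂ)) : ContinuousOn (ext f) Dbar := by
  rw [continuousOn_iff_continuous_domRestrict]
  have : Dbar.domRestrict (ext f) = f := by
    funext z
    exact ext_coe f z
  rw [this]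
  exact f.continuous

theorem X_diff (f : X) : DifferentiableOn ℂ (ext (f : C(Dbar, ℂ))) (Metric.ball (1 : ℂ) (3 / 2)) :=
  f.2

theorem isClosed_X : IsClosed (X : Set C(Dbar, ℂ)) := by
  rw [← isSeqClosed_iff_isClosed]
  intro u f hu hf
  have hF : TendstoLocallyUniformlyOn (fun n => ext (u n)) (ext f) atTop
      (Metric.ball (1 : ℂ) (3 / 2)) := by
    apply TendstoUniformlyOn.tendstoLocallyUniformlyOn
    rw [Metric.tendstoUniformlyOn_iff]
    intro ε hε
    rw [Metric.tendsto_nhds] at hf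
    filter_upwards [hf ε hε] with n hn z _
    have h1 : ext f z - ext (u n) z = ext (f - u n) z := by
      rw [sub_eq_add_neg f (u n), ext_add, ← neg_one_smul ℂ (u n), ext_smul]
      ring
    rw [dist_eq_norm, h1]
    refine lt_of_le_of_lt (norm_ext_le _ _) ?_
    rw [← dist_eq_norm, dist_comm]
    exact hn
  exact hF.differentiableOn (Eventually.of_forall fun n => hu n) Metric.isOpen_ball

instance : CompleteSpace X := isClosed_X.completeSpace_coe

/-- a function continuous on the closed disc and differentiable inside gives an element of `X` -/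
theorem exists_mk (F : ℂ → ℂ) (hc : ContinuousOn F Dbar)
    (hd : DifferentiableOn ℂ F (Metric.ball (1 : ℂ) (3 / 2))) :
    ∃ f : X, ∀ z ∈ Dbar, ext (f : C(Dbar, ℂ)) z = F z := by
  let g : C(Dbar, ℂ) := ⟨Dbar.domRestrict F, continuousOn_iff_continuous_domRestrict.1 hc⟩
  have hg : ∀ z ∈ Dbar, ext g z = F z := by
    intro z hz
    exact ext_coe g ⟨z, hz⟩
  refine ⟨⟨g, ?_⟩, hg⟩
  change DifferentiableOn ℂ (ext g) _
  exact hd.congr fun z hz => hg z (Metric.ball_subset_closedBall hz)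

/-- evaluation is determined on the disc -/
theorem X_ext (f g : X) (h : ∀ z ∈ Dbar, ext (f : C(Dbar, ℂ)) z = ext (g : C(Dbar, ℂ)) z) :
    f = g := by
  apply Subtype.ext
  ext z
  have := h z z.2
  rwa [ext_coe, ext_coe] at this

/-- the norm is the supremum -/
theorem norm_X_le (f : X) (B : ℝ) (hB : 0 ≤ B)
    (h : ∀ z ∈ Dbar, ‖ext (f : C(Dbar, ℂ)) z‖ ≤ B) : ‖f‖ ≤ B := by
  change ‖(f : C(Dbar, ℂ))‖ ≤ B
  rw [ContinuousMap.norm_le _ hB]
  intro z
  have := h z z.2
  rwa [ext_coe] at this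

/-- `z ↦ 1 / (k + z)` maps the closed disc into the closed disc with centre and radius `1` -/
theorem inv_mem (z : ℂ) (hz : -(1 / 2) ≤ z.re) (k : ℕ) :
    1 / ((k : ℂ) + 1 + z) ∈ Metric.closedBall (1 : ℂ) 1 := by
  set w : ℂ := (k : ℂ) + 1 + z with hw
  have hre : 1 / 2 ≤ w.re := by
    have : w.re = k + 1 + z.re := by simp [hw]
    rw [this]
    have : (0 : ℝ) ≤ k := Nat.cast_nonneg k
    linarith
  have hw0 : w ≠ 0 := by
    intro h
    rw [h] at hre
    norm_num at hre
  have h1 : 1 / w - 1 = (1 - w) / w := by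
    field_simp
  rw [Metric.mem_closedBall, dist_eq_norm, h1, norm_div, div_le_one (norm_pos_iff.2 hw0)]
  have h2 : ‖1 - w‖ ^ 2 ≤ ‖w‖ ^ 2 := by
    rw [← Complex.normSq_eq_norm_sq, ← Complex.normSq_eq_norm_sq, Complex.normSq_apply,
      Complex.normSq_apply]
    simp only [Complex.sub_re, Complex.one_re, Complex.sub_im, Complex.one_im]
    nlinarith
  exact (sq_le_sq₀ (norm_nonneg _) (norm_nonneg _)).1 h2

theorem re_ge_of_mem_Dbar {z : ℂ} (hz : z ∈ Dbar) : -(1 / 2) ≤ z.re := by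
  rw [Metric.mem_closedBall, dist_eq_norm] at hz
  have h := (Complex.abs_re_le_norm (z - 1)).trans hz
  rw [Complex.sub_re, Complex.one_re, abs_le] at h
  linarith [h.1]

theorem re_add_ge {z : ℂ} (hz : z ∈ Dbar) (k : ℕ) : (k : ℝ) + 1 / 2 ≤ ((k : ℂ) + 1 + z).re := by
  have := re_ge_of_mem_Dbar hz
  simp only [Complex.add_re, Complex.natCast_re, Complex.one_re]
  linarith

theorem norm_add_ge {z : ℂ} (hz : z ∈ Dbar) (k : ℕ) : (k : ℝ) + 1 / 2 ≤ ‖(k : ℂ) + 1 + z‖ :=
  (re_add_ge hz k).trans (Complex.re_le_norm _)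

theorem add_ne_zero' {z : ℂ} (hz : z ∈ Dbar) (k : ℕ) : (k : ℂ) + 1 + z ≠ 0 := by
  intro h
  have := norm_add_ge hz k
  rw [h, norm_zero] at this
  have h2 : (0 : ℝ) ≤ k := Nat.cast_nonneg k
  linarith

theorem summable_bound : Summable fun k : ℕ => 1 / ((k : ℝ) + 1 / 2) ^ 4 := by
  have h := (Real.summable_one_div_nat_add_rpow (1 / 2) 4).2 (by norm_num)
  refine h.congr fun k => ?_
  have h2 : (0 : ℝ) ≤ k := Nat.cast_nonneg k
  rw [abs_of_nonneg (by linarith)]
  norm_cast

theorem inv_mem_Dbar {z : ℂ} (hz : z ∈ Dbar) (k : ℕ) :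
    1 / ((k : ℂ) + 1 + z) ∈ Metric.ball (1 : ℂ) (3 / 2) := by
  have := inv_mem z (re_ge_of_mem_Dbar hz) k
  rw [Metric.mem_closedBall] at this
  rw [Metric.mem_ball]
  linarith

/-- the terms of the transfer operator -/
noncomputable def Gterm (f : X) (k : ℕ) (z : ℂ) : ℂ :=
  1 / ((k : ℂ) + 1 + z) ^ 4 * ext (f : C(Dbar, ℂ)) (1 / ((k : ℂ) + 1 + z))

theorem norm_Gterm_le (f : X) (k : ℕ) {z : ℂ} (hz : z ∈ Dbar) :
    ‖Gterm f k z‖ ≤ 1 / ((k : ℝ) + 1 / 2) ^ 4 * ‖f‖ := by
  unfold Gterm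
  rw [norm_mul]
  have h2 : (0 : ℝ) ≤ k := Nat.cast_nonneg k
  have h3 : (0 : ℝ) < (k : ℝ) + 1 / 2 := by linarith
  refine mul_le_mul ?_ (norm_ext_le _ _) (norm_nonneg _) (by positivity)
  rw [norm_div, norm_one, norm_pow]
  exact one_div_le_one_div_of_le (by positivity) (pow_le_pow_left₀ h3.le (norm_add_ge hz k) 4)

theorem summable_Gterm (f : X) {z : ℂ} (hz : z ∈ Dbar) : Summable fun k => Gterm f k z :=
  Summable.of_norm_bounded (summable_bound.mul_right ‖f‖) fun k => norm_Gterm_le f k hz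

theorem differentiableOn_Gterm (f : X) (k : ℕ) :
    DifferentiableOn ℂ (Gterm f k) (Metric.ball (1 : ℂ) (3 / 2)) := by
  have hsub : ∀ z ∈ Metric.ball (1 : ℂ) (3 / 2), (k : ℂ) + 1 + z ≠ 0 := fun z hz =>
    add_ne_zero' (Metric.ball_subset_closedBall hz) k
  have hinv : DifferentiableOn ℂ (fun z : ℂ => 1 / ((k : ℂ) + 1 + z))
      (Metric.ball (1 : ℂ) (3 / 2)) := by
    apply DifferentiableOn.fun_div (differentiableOn_const _) _ hsub
    exact (differentiableOn_const _).fun_add differentiableOn_id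
  unfold Gterm
  apply DifferentiableOn.fun_mul
  · apply DifferentiableOn.fun_div (differentiableOn_const _)
    · exact ((differentiableOn_const _).fun_add differentiableOn_id).fun_pow 4
    · intro z hz
      exact pow_ne_zero _ (hsub z hz)
  · exact (X_diff f).comp hinv fun z hz => inv_mem_Dbar (Metric.ball_subset_closedBall hz) k

theorem continuousOn_Gterm (f : X) (k : ℕ) : ContinuousOn (Gterm f k) Dbar := by
  have hinv : ContinuousOn (fun z : ℂ => 1 / ((k : ℂ) + 1 + z)) Dbar := by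
    apply ContinuousOn.div continuousOn_const _ (fun z hz => add_ne_zero' hz k)
    exact continuousOn_const.add continuousOn_id
  unfold Gterm
  apply ContinuousOn.mul
  · apply ContinuousOn.div continuousOn_const
    · exact (continuousOn_const.add continuousOn_id).pow 4
    · intro z hz
      exact pow_ne_zero _ (add_ne_zero' hz k)
  · exact (continuousOn_ext _).comp hinv
      fun z hz => Metric.ball_subset_closedBall (inv_mem_Dbar hz k)

theorem exists_Gfun (f : X) : ∃ g : X, ∀ z ∈ Dbar, ext (g : C(Dbar, ℂ)) z = ∑' k, Gterm f k z := by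
  apply exists_mk (fun z => ∑' k, Gterm f k z)
  · exact continuousOn_tsum (continuousOn_Gterm f) (summable_bound.mul_right ‖f‖)
      fun k z hz => norm_Gterm_le f k hz
  · exact Complex.differentiableOn_tsum_of_summable_norm (summable_bound.mul_right ‖f‖)
      (differentiableOn_Gterm f) Metric.isOpen_ball
      fun k z hz => norm_Gterm_le f k (Metric.ball_subset_closedBall hz)

/-- the transfer operator `G_4` -/
theorem exists_G : ∃ G : X →L[ℂ] X, ∀ (f : X), ∀ z ∈ Dbar,
    HasSum (fun k : ℕ => 1 / ((k : ℂ) + 1 + z) ^ 4 *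
      ext (f : C(Dbar, ℂ)) (1 / ((k : ℂ) + 1 + z))) (ext (G f : C(Dbar, ℂ)) z) := by
  choose g hg using exists_Gfun
  have hs : ∀ f : X, ∀ z ∈ Dbar, HasSum (fun k => Gterm f k z) (ext (g f : C(Dbar, ℂ)) z) := by
    intro f z hz
    rw [hg f z hz]
    exact (summable_Gterm f hz).hasSum
  have hadd : ∀ f₁ f₂ : X, g (f₁ + f₂) = g f₁ + g f₂ := by
    intro f₁ f₂
    apply X_ext
    intro z hz
    have h1 := (hs f₁ z hz).add (hs f₂ z hz)
    have h2 := hs (f₁ + f₂) z hz
    have h3 : (fun k => Gterm (f₁ + f₂) k z) = fun k => Gterm f₁ k z + Gterm f₂ k z := by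
      funext k
      unfold Gterm
      rw [Submodule.coe_add, ext_add]
      ring
    rw [h3] at h2
    rw [Submodule.coe_add, ext_add]
    exact h2.unique h1
  have hsmul : ∀ (c : ℂ) (f : X), g (c • f) = c • g f := by
    intro c f
    apply X_ext
    intro z hz
    have h1 := (hs f z hz).mul_left c
    have h2 := hs (c • f) z hz
    have h3 : (fun k => Gterm (c • f) k z) = fun k => c * Gterm f k z := by
      funext k
      unfold Gterm
      rw [Submodule.coe_smul, ext_smul]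
      ring
    rw [h3] at h2
    rw [Submodule.coe_smul, ext_smul]
    exact h2.unique h1
  let L : X →ₗ[ℂ] X :=
    { toFun := g
      map_add' := hadd
      map_smul' := fun c f => by simpa using hsmul c f }
  refine ⟨L.mkContinuous (∑' k : ℕ, 1 / ((k : ℝ) + 1 / 2) ^ 4) ?_, ?_⟩
  · intro f
    have h0 : (0 : ℝ) ≤ ∑' k : ℕ, 1 / ((k : ℝ) + 1 / 2) ^ 4 :=
      tsum_nonneg fun k => by positivity
    apply norm_X_le _ _ (mul_nonneg h0 (norm_nonneg _))
    intro z hz
    change ‖ext (g f : C(Dbar, ℂ)) z‖ ≤ _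
    rw [hg f z hz, ← tsum_mul_right]
    exact tsum_of_norm_bounded (summable_bound.mul_right ‖f‖).hasSum
      fun k => norm_Gterm_le f k hz
  · intro f z hz
    exact hs f z hz

end Pool.Agent.Lib.MP_9ff751_an
end

section

/-!
Two operators with the same matrix have the same nonzero eigenvalues, with the same algebraic
multiplicities.
-/

namespace Pool.Agent.Lib.MP_9ff751_an

open Module Module.End

namespace LinkAux

/-- An intertwiner maps generalized eigenspaces into generalized eigenspaces. -/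
theorem map_maxGen {X H : Type*} [AddCommGroup X] [Module ℂ X] [AddCommGroup H] [Module ℂ H]
    (G : End ℂ X) (K : End ℂ H) (P : X →ₗ[ℂ] H) (h : ∀ f, P (G f) = K (P f)) (μ : ℂ)
    {f : X} (hf : f ∈ maxGenEigenspace G μ) : P f ∈ maxGenEigenspace K μ := by
  rw [mem_maxGenEigenspace] at hf ⊢
  obtain ⟨k, hk⟩ := hf
  refine ⟨k, ?_⟩
  have key : ∀ (j : ℕ) (g : X), P (((G - μ • (1 : End ℂ X)) ^ j) g) =
      ((K - μ • (1 : End ℂ H)) ^ j) (P g) := by
    intro j
    induction j with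
    | zero => intro g; simp
    | succ j ih =>
      intro g
      rw [pow_succ, pow_succ, Module.End.mul_apply, Module.End.mul_apply, ih]
      congr 1
      simp [h]
  rw [← key, hk, map_zero]

/-- `G * G` is injective on generalized eigenspaces for nonzero eigenvalues. -/
theorem inj_maxGen {X : Type*} [AddCommGroup X] [Module ℂ X]
    (G : End ℂ X) {μ : ℂ} (hμ : μ ≠ 0) {f : X} (hf : f ∈ maxGenEigenspace G μ)
    (h0 : G (G f) = 0) : f = 0 := by
  have hd := disjoint_genEigenspace G hμ ⊤ ⊤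
  have h1 : f ∈ maxGenEigenspace G 0 := by
    rw [mem_maxGenEigenspace]
    refine ⟨2, ?_⟩
    simp [pow_two, h0]
  exact (Submodule.disjoint_def.1 hd) f hf h1

/-- Generalized eigenvectors of a symmetric operator are eigenvectors. -/
theorem maxGen_eq_of_symm {H : Type*} [NormedAddCommGroup H] [InnerProductSpace ℂ H]
    (K : H →ₗ[ℂ] H) (hs : K.IsSymmetric) (μ : ℂ) :
    maxGenEigenspace K μ = eigenspace K μ := by
  apply le_antisymm _ (eigenspace_le_maxGenEigenspace)
  -- key: `(K - μ)^2 x = 0` implies `(K - μ) x = 0`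
  have key : ∀ x : H, (K - μ • (1 : End ℂ H)) ((K - μ • (1 : End ℂ H)) x) = 0 →
      (K - μ • (1 : End ℂ H)) x = 0 := by
    intro x hx
    set y := (K - μ • (1 : End ℂ H)) x with hy
    by_contra hne
    have hKy : K y = μ • y := by
      have : K y - μ • y = 0 := by simpa using hx
      exact sub_eq_zero.1 this
    have hreal : (starRingEnd ℂ) μ = μ := by
      apply hs.conj_eigenvalue_eq_self
      exact hasEigenvalue_of_hasEigenvector ⟨mem_eigenspace_iff.2 hKy, hne⟩
    have h2 : inner ℂ y y = (0 : ℂ) := by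
      have e1 : inner ℂ y y = inner ℂ y (K x - μ • x) := by
        rw [hy]; simp
      rw [e1, inner_sub_right, ← hs y x, hKy, inner_smul_left, inner_smul_right, hreal, sub_self]
    exact hne (inner_self_eq_zero.1 h2)
  intro x hx
  rw [mem_maxGenEigenspace] at hx
  obtain ⟨k, hk⟩ := hx
  have hdesc : ∀ j : ℕ, ((K - μ • (1 : End ℂ H)) ^ (j + 1)) x = 0 →
      (K - μ • (1 : End ℂ H)) x = 0 := by
    intro j
    induction j with
    | zero => intro h; simpa using h
    | succ j ih =>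
      intro h
      apply ih
      rw [pow_succ', Module.End.mul_apply]
      rw [pow_succ', Module.End.mul_apply, pow_succ', Module.End.mul_apply] at h
      exact key _ h
  have h1 : (K - μ • (1 : End ℂ H)) x = 0 := by
    apply hdesc k
    rw [pow_succ', Module.End.mul_apply, hk, map_zero]
  rw [mem_eigenspace_iff]
  have : K x - μ • x = 0 := by simpa using h1
  exact sub_eq_zero.1 this

end LinkAux

open LinkAux in
theorem link {X H : Type*} [NormedAddCommGroup X] [NormedSpace ℂ X] [CompleteSpace X]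
    [NormedAddCommGroup H] [InnerProductSpace ℂ H] [CompleteSpace H]
    (G : X →L[ℂ] X) (K : H →L[ℂ] H) (W : ℕ → X) (b : ℕ → X →L[ℂ] ℂ) (w : ℕ → H) (δ : ℕ → ℂ)
    (hbW : ∀ n m, b n (W m) = inner ℂ (w n) (w m))
    (hG : ∀ f, HasSum (fun n => (δ n * b n f) • W n) (G f))
    (hK : ∀ x, HasSum (fun n => (δ n * inner ℂ (w n) x : ℂ) • w n) (K x))
    (h1 : Summable fun n => ‖δ n‖ * ‖b n‖ * ‖w n‖)
    (h2 : Summable fun n => ‖δ n‖ * ‖w n‖ * ‖W n‖)
    (hs : (K : H →ₗ[ℂ] H).IsSymmetric) (hf : ∀ μ : ℂ, μ ≠ 0 →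
      FiniteDimensional ℂ (eigenspace (K : H →ₗ[ℂ] H) μ)) (μ : ℂ) (hμ : μ ≠ 0) :
    FiniteDimensional ℂ (maxGenEigenspace (G : X →ₗ[ℂ] X) μ) ∧
    finrank ℂ (maxGenEigenspace (G : X →ₗ[ℂ] X) μ) =
      finrank ℂ (eigenspace (K : H →ₗ[ℂ] H) μ) := by
  have hsP : ∀ f : X, Summable fun n => (δ n * b n f) • w n := by
    intro f
    refine Summable.of_norm_bounded (h1.mul_right ‖f‖) ?_
    intro n
    rw [norm_smul, norm_mul]
    have := (b n).le_opNorm f
    have h3 : ‖δ n‖ * ‖b n f‖ * ‖w n‖ ≤ ‖δ n‖ * (‖b n‖ * ‖f‖) * ‖w n‖ := by gcongr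
    calc ‖δ n‖ * ‖b n f‖ * ‖w n‖ ≤ ‖δ n‖ * (‖b n‖ * ‖f‖) * ‖w n‖ := h3
      _ = ‖δ n‖ * ‖b n‖ * ‖w n‖ * ‖f‖ := by ring
  have hsT : ∀ x : H, Summable fun n => (δ n * inner ℂ (w n) x : ℂ) • W n := by
    intro x
    refine Summable.of_norm_bounded (h2.mul_right ‖x‖) ?_
    intro n
    rw [norm_smul, norm_mul]
    have := norm_inner_le_norm (𝕜 := ℂ) (w n) x
    have h3 : ‖δ n‖ * ‖inner ℂ (w n) x‖ * ‖W n‖ ≤ ‖δ n‖ * (‖w n‖ * ‖x‖) * ‖W n‖ := by gcongr
    calc ‖δ n‖ * ‖inner ℂ (w n) x‖ * ‖W n‖ ≤ ‖δ n‖ * (‖w n‖ * ‖x‖) * ‖W n‖ := h3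
      _ = ‖δ n‖ * ‖w n‖ * ‖W n‖ * ‖x‖ := by ring
  let P : X →ₗ[ℂ] H :=
    { toFun := fun f => ∑' n, (δ n * b n f) • w n
      map_add' := by
        intro f g
        rw [← (hsP f).tsum_add (hsP g)]
        congr 1; ext n
        rw [map_add, mul_add, add_smul]
      map_smul' := by
        intro c f
        simp only [RingHom.id_apply]
        rw [← tsum_const_smul'']
        congr 1; ext n
        rw [map_smul, smul_smul]
        congr 1
        simp only [smul_eq_mul]; ring }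
  let T : H →ₗ[ℂ] X :=
    { toFun := fun x => ∑' n, (δ n * inner ℂ (w n) x : ℂ) • W n
      map_add' := by
        intro f g
        rw [← (hsT f).tsum_add (hsT g)]
        congr 1; ext n
        rw [inner_add_right, mul_add, add_smul]
      map_smul' := by
        intro c f
        simp only [RingHom.id_apply]
        rw [← tsum_const_smul'']
        congr 1; ext n
        rw [inner_smul_right, smul_smul]
        congr 1
        ring }
  have hP : ∀ f, HasSum (fun n => (δ n * b n f) • w n) (P f) := fun f => (hsP f).hasSum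
  have hT : ∀ x, HasSum (fun n => (δ n * inner ℂ (w n) x : ℂ) • W n) (T x) :=
    fun x => (hsT x).hasSum
  have F1 : ∀ f n, b n (G f) = inner ℂ (w n) (P f) := by
    intro f n
    have e1 := (hG f).mapL (b n)
    have e2 := (hP f).mapL (innerSL ℂ (w n))
    refine e1.unique ?_
    have e3 : (fun m => innerSL ℂ (w n) ((δ m * b m f) • w m)) =
        fun m => b n ((δ m * b m f) • W m) := by
      funext m
      simp only [map_smul, innerSL_apply_apply, smul_eq_mul, hbW]
    rwa [e3] at e2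
  have F2 : ∀ x n, b n (T x) = inner ℂ (w n) (K x) := by
    intro x n
    have e1 := (hT x).mapL (b n)
    have e2 := (hK x).mapL (innerSL ℂ (w n))
    refine e1.unique ?_
    have e3 : (fun m => innerSL ℂ (w n) ((δ m * inner ℂ (w m) x : ℂ) • w m)) =
        fun m => b n ((δ m * inner ℂ (w m) x : ℂ) • W m) := by
      funext m
      simp only [map_smul, innerSL_apply_apply, smul_eq_mul, hbW]
    rwa [e3] at e2
  have PG : ∀ f, P (G f) = K (P f) := by
    intro f
    refine (hP (G f)).unique ?_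
    have := hK (P f)
    simpa only [F1] using this
  have TK : ∀ x, T (K x) = G (T x) := by
    intro x
    refine (hT (K x)).unique ?_
    have := hG (T x)
    simpa only [F2] using this
  have TP : ∀ f, T (P f) = G (G f) := by
    intro f
    refine (hT (P f)).unique ?_
    have := hG (G f)
    simpa only [F1] using this
  have PT : ∀ x, P (T x) = K (K x) := by
    intro x
    refine (hP (T x)).unique ?_
    have := hK (K x)
    simpa only [F2] using this
  have hKe : maxGenEigenspace (K : H →ₗ[ℂ] H) μ = eigenspace (K : H →ₗ[ℂ] H) μ :=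
    maxGen_eq_of_symm _ hs μ
  have hfin : FiniteDimensional ℂ (maxGenEigenspace (K : H →ₗ[ℂ] H) μ) := by
    rw [hKe]; exact hf μ hμ
  let P' : maxGenEigenspace (G : X →ₗ[ℂ] X) μ →ₗ[ℂ] maxGenEigenspace (K : H →ₗ[ℂ] H) μ :=
    P.restrict (fun f hf => map_maxGen (G : X →ₗ[ℂ] X) (K : H →ₗ[ℂ] H) P PG μ hf)
  let T' : maxGenEigenspace (K : H →ₗ[ℂ] H) μ →ₗ[ℂ] maxGenEigenspace (G : X →ₗ[ℂ] X) μ :=
    T.restrict (fun f hf => map_maxGen (K : H →ₗ[ℂ] H) (G : X →ₗ[ℂ] X) T TK μ hf)
  have iP : Function.Injective P' := by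
    rw [← LinearMap.ker_eq_bot, LinearMap.ker_eq_bot']
    intro m hm
    have h0 : P (m : X) = 0 := by
      have := congrArg (Subtype.val) hm
      simpa [P'] using this
    have h3 : (G : X →ₗ[ℂ] X) ((G : X →ₗ[ℂ] X) (m : X)) = 0 := by
      have := TP (m : X)
      rw [h0, map_zero] at this
      exact this.symm
    exact Subtype.ext (inj_maxGen (G : X →ₗ[ℂ] X) hμ m.2 h3)
  have iT : Function.Injective T' := by
    rw [← LinearMap.ker_eq_bot, LinearMap.ker_eq_bot']
    intro m hm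
    have h0 : T (m : H) = 0 := by
      have := congrArg (Subtype.val) hm
      simpa [T'] using this
    have h3 : (K : H →ₗ[ℂ] H) ((K : H →ₗ[ℂ] H) (m : H)) = 0 := by
      have := PT (m : H)
      rw [h0, map_zero] at this
      exact this.symm
    exact Subtype.ext (inj_maxGen (K : H →ₗ[ℂ] H) hμ m.2 h3)
  have hfG : FiniteDimensional ℂ (maxGenEigenspace (G : X →ₗ[ℂ] X) μ) :=
    FiniteDimensional.of_injective P' iP
  refine ⟨hfG, ?_⟩
  have l1 := LinearMap.finrank_le_finrank_of_injective iP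
  have l2 := LinearMap.finrank_le_finrank_of_injective iT
  rw [← hKe]
  exact le_antisymm l1 l2

end Pool.Agent.Lib.MP_9ff751_an
end
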