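import Mathlib
import Pool.Agent.Lib.MP_9ff751_an.Const

section

section

/-!
A discrete Hardy type inequality.
-/

namespace Pool.Agent.Lib.MP_9ff751_an

open Finset

/-- the ratio `√(pw k) / √(pw (k+1))` -/
noncomputable def rt (k : ℕ) : ℝ := √(((k : ℝ) + 1) / (k + 4))

theorem rt_sq (k : ℕ) : rt k ^ 2 = ((k : ℝ) + 1) / (k + 4) := by
  unfold rt
  exact Real.sq_sqrt (by positivity)

theorem rt_nonneg (k : ℕ) : 0 ≤ rt k := Real.sqrt_nonneg _

theorem rt_mul (k : ℕ) : (√(pw (k + 1)))⁻¹ = rt k * (√(pw k))⁻¹ := by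
  have h1 : rt k = √(pw k) / √(pw (k + 1)) := by
    unfold rt
    rw [← Real.sqrt_div (pw_pos k).le]
    congr 1
    unfold pw
    push_cast
    field_simp
    ring
  have h2 : √(pw k) ≠ 0 := (Real.sqrt_pos.2 (pw_pos k)).ne'
  have h3 : √(pw (k + 1)) ≠ 0 := (Real.sqrt_pos.2 (pw_pos (k + 1))).ne'
  rw [h1]
  field_simp

theorem rt_le (k : ℕ) : rt k ≤ ((k : ℝ) + 5 / 2) / (k + 4) := by
  unfold rt
  rw [Real.sqrt_le_left (by positivity), div_pow, div_le_div_iff₀ (by positivity) (by positivity)]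
  have : (0 : ℝ) ≤ k := Nat.cast_nonneg k
  nlinarith [mul_nonneg this this]

theorem le_rt (k : ℕ) : ((k : ℝ) + 1) / (k + 5 / 2) ≤ rt k := by
  unfold rt
  apply Real.le_sqrt_of_sq_le
  rw [div_pow, div_le_div_iff₀ (by positivity) (by positivity)]
  have : (0 : ℝ) ≤ k := Nat.cast_nonneg k
  nlinarith [mul_nonneg this this]

theorem rt_sub (k : ℕ) : 0 ≤ rt (k + 1) - rt k ∧
    rt (k + 1) - rt k ≤ 3 * (2 * ((k : ℝ) + 1) + 3) / (4 * (k + 1) * (k + 4) * (k + 5)) := by
  have hk : (0 : ℝ) ≤ k := Nat.cast_nonneg k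
  have h1 := rt_sq k
  have h2 := rt_sq (k + 1)
  push_cast at h2
  have h3 := le_rt k
  have h0 := rt_nonneg k
  have h0' := rt_nonneg (k + 1)
  have hdiff : (rt (k + 1) - rt k) * (rt (k + 1) + rt k) = 3 / (((k : ℝ) + 4) * (k + 5)) := by
    have : (rt (k + 1) - rt k) * (rt (k + 1) + rt k) = rt (k + 1) ^ 2 - rt k ^ 2 := by ring
    rw [this, h1, h2]
    field_simp
    ring
  have hge : 0 ≤ rt (k + 1) - rt k := by
    by_contra hcon
    push Not at hcon
    have : (rt (k + 1) - rt k) * (rt (k + 1) + rt k) ≤ 0 :=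
      mul_nonpos_of_nonpos_of_nonneg hcon.le (by linarith)
    rw [hdiff] at this
    have h4 : (0 : ℝ) < 3 / (((k : ℝ) + 4) * (k + 5)) := by positivity
    linarith
  refine ⟨hge, ?_⟩
  have hs : 2 * (((k : ℝ) + 1) / (k + 5 / 2)) ≤ rt (k + 1) + rt k := by linarith
  have hpos : 0 < 2 * (((k : ℝ) + 1) / (k + 5 / 2)) := by positivity
  have h5 : (rt (k + 1) - rt k) * (2 * (((k : ℝ) + 1) / (k + 5 / 2))) ≤
      3 / (((k : ℝ) + 4) * (k + 5)) := by
    rw [← hdiff]
    exact mul_le_mul_of_nonneg_left hs hge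
  rw [← le_div_iff₀ hpos] at h5
  refine h5.trans (le_of_eq ?_)
  field_simp
  ring

/-- the key quadratic form is nonnegative -/
theorem key_form (j : ℕ) (A B : ℝ) :
    0 ≤ 3 / 2 * tw (j + 1) * B ^ 2 - tw (j + 2) * A ^ 2 +
      2 * ((j : ℝ) + 2) * (j + 3) * (j + 4) * (A - rt (j + 1) * B) ^ 2 -
      2 * ((j : ℝ) + 1) * (j + 2) * (j + 3) * (A - rt j * B) ^ 2 := by
  have hj : (0 : ℝ) ≤ j := Nat.cast_nonneg j
  obtain ⟨hd0, hd1⟩ := rt_sub j
  have ht0 := rt_nonneg (j + 1)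
  have ht1 := rt_le (j + 1)
  have ht2 := rt_sq (j + 1)
  push_cast at ht1 ht2
  set t := rt (j + 1) with ht
  set d := rt (j + 1) - rt j with hd
  have hp : rt j = t - d := by rw [hd]; ring
  rw [hp]
  set E := A - t * B with hE
  have hA : A = E + t * B := by rw [hE]; ring
  have hA2 : A - (t - d) * B = E + d * B := by rw [hA]; ring
  rw [hA2]
  have hw1 : tw (j + 1) = ((j : ℝ) + 2) * (j + 3) / 2 := by unfold tw; push_cast; ring
  have hw2 : tw (j + 2) = ((j : ℝ) + 3) * (j + 4) / 2 := by unfold tw; push_cast; ring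
  rw [hw1, hw2]
  -- bounds
  set x : ℝ := 2 * ((j : ℝ) + 1) * (j + 2) * (j + 3) with hx
  have hx0 : 0 ≤ x := by positivity
  have hxd : x * d ≤ 3 * ((j : ℝ) + 2) * (j + 3) * (2 * j + 5) / (2 * (j + 4) * (j + 5)) := by
    refine (mul_le_mul_of_nonneg_left hd1 hx0).trans (le_of_eq ?_)
    rw [hx]
    field_simp
    ring
  have hxdd : x * d * d ≤
      9 * ((j : ℝ) + 2) * (j + 3) * (2 * j + 5) ^ 2 / (8 * (j + 1) * (j + 4) ^ 2 * (j + 5) ^ 2) := by
    refine (mul_le_mul hxd hd1 hd0 (by positivity)).trans (le_of_eq ?_)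
    field_simp
    ring
  have hxd0 : 0 ≤ x * d := mul_nonneg hx0 hd0
  -- the coefficients
  set bb : ℝ := 3 / 2 * (((j : ℝ) + 2) * (j + 3) / 2) - ((j : ℝ) + 3) * (j + 4) / 2 * t ^ 2 -
    x * d * d with hbb
  set be : ℝ := ((j : ℝ) + 3) * (j + 4) / 2 * t + x * d with hbe
  set ee : ℝ := ((j : ℝ) + 3) * (11 * j + 20) / 2 with hee
  have hform : 3 / 2 * (((j : ℝ) + 2) * (j + 3) / 2) * B ^ 2 -
      ((j : ℝ) + 3) * (j + 4) / 2 * A ^ 2 +
      2 * ((j : ℝ) + 2) * (j + 3) * (j + 4) * E ^ 2 - x * (E + d * B) ^ 2 =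
      bb * B ^ 2 - 2 * be * (B * E) + ee * E ^ 2 := by
    rw [hA, hbb, hbe, hee, hx]
    ring
  rw [hform]
  have hbb_ge : 3 / 2 * (((j : ℝ) + 2) * (j + 3) / 2) -
      ((j : ℝ) + 3) * (j + 4) / 2 * (((j : ℝ) + 2) / (j + 5)) -
      9 * ((j : ℝ) + 2) * (j + 3) * (2 * j + 5) ^ 2 / (8 * (j + 1) * (j + 4) ^ 2 * (j + 5) ^ 2) ≤
      bb := by
    have : t ^ 2 = ((j : ℝ) + 2) / (j + 5) := by rw [ht2]; congr 1 <;> ring
    rw [hbb, this]
    linarith
  have hbe_le : be ≤ ((j : ℝ) + 3) * (j + 4) / 2 * (((j : ℝ) + 7 / 2) / (j + 5)) +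
      3 * ((j : ℝ) + 2) * (j + 3) * (2 * j + 5) / (2 * (j + 4) * (j + 5)) := by
    have : t ≤ ((j : ℝ) + 7 / 2) / (j + 5) := by
      refine ht1.trans (le_of_eq ?_)
      congr 1 <;> ring
    have h6 := mul_le_mul_of_nonneg_left this
      (show (0 : ℝ) ≤ ((j : ℝ) + 3) * (j + 4) / 2 by positivity)
    rw [hbe]
    linarith
  have hbe0 : 0 ≤ be := by
    rw [hbe]
    exact add_nonneg (mul_nonneg (by positivity) ht0) hxd0
  set L : ℝ := 3 / 2 * (((j : ℝ) + 2) * (j + 3) / 2) -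
      ((j : ℝ) + 3) * (j + 4) / 2 * (((j : ℝ) + 2) / (j + 5)) -
      9 * ((j : ℝ) + 2) * (j + 3) * (2 * j + 5) ^ 2 / (8 * (j + 1) * (j + 4) ^ 2 * (j + 5) ^ 2)
    with hL
  set M : ℝ := ((j : ℝ) + 3) * (j + 4) / 2 * (((j : ℝ) + 7 / 2) / (j + 5)) +
      3 * ((j : ℝ) + 2) * (j + 3) * (2 * j + 5) / (2 * (j + 4) * (j + 5)) with hM
  have hLeq : L = (((j : ℝ) + 2) * (j + 3)) *
      (2 * (j : ℝ) ^ 5 + 42 * j ^ 4 + 334 * j ^ 3 + 1202 * j ^ 2 + 1884 * j + 895) /
      (8 * (j + 1) * (j + 4) ^ 2 * (j + 5) ^ 2) := by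
    rw [hL]
    field_simp
    ring
  have hMeq : M = ((j : ℝ) + 3) * (2 * (j : ℝ) ^ 3 + 35 * j ^ 2 + 142 * j + 172) /
      (4 * (j + 4) * (j + 5)) := by
    rw [hM]
    field_simp
    ring
  have hLpos : 0 < L := by
    rw [hLeq]
    positivity
  have hdet : M ^ 2 ≤ L * ee := by
    rw [hLeq, hMeq, hee, div_pow, div_mul_div_comm,
      div_le_div_iff₀ (by positivity) (by positivity)]
    have hpoly : (2 * (j : ℝ) ^ 3 + 35 * j ^ 2 + 142 * j + 172) ^ 2 * (j + 1) ≤
        (j + 2) * (11 * j + 20) *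
          (2 * (j : ℝ) ^ 5 + 42 * j ^ 4 + 334 * j ^ 3 + 1202 * j ^ 2 + 1884 * j + 895) := by
      have : (j + 2) * (11 * j + 20) *
          (2 * (j : ℝ) ^ 5 + 42 * j ^ 4 + 334 * j ^ 3 + 1202 * j ^ 2 + 1884 * j + 895) -
          (2 * (j : ℝ) ^ 3 + 35 * j ^ 2 + 142 * j + 172) ^ 2 * (j + 1) =
          18 * (j : ℝ) ^ 7 + 402 * j ^ 6 + 3585 * j ^ 5 + 16509 * j ^ 4 + 41736 * j ^ 3 +
            56001 * j ^ 2 + 34518 * j + 6216 := by ring
      have h9 : (0 : ℝ) ≤ 18 * (j : ℝ) ^ 7 + 402 * j ^ 6 + 3585 * j ^ 5 + 16509 * j ^ 4 +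
        41736 * j ^ 3 + 56001 * j ^ 2 + 34518 * j + 6216 := by positivity
      linarith
    have h10 := mul_le_mul_of_nonneg_left hpoly
      (show (0 : ℝ) ≤ 16 * (((j : ℝ) + 3) ^ 2 * (j + 4) ^ 2 * (j + 5) ^ 2) by positivity)
    linarith
  have hdet' : be ^ 2 ≤ bb * ee := by
    have hee0 : 0 ≤ ee := by rw [hee]; positivity
    calc be ^ 2 ≤ M ^ 2 := pow_le_pow_left₀ hbe0 hbe_le 2
      _ ≤ L * ee := hdet
      _ ≤ bb * ee := mul_le_mul_of_nonneg_right hbb_ge hee0
  have hbbpos : 0 < bb := lt_of_lt_of_le hLpos hbb_ge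
  have : 0 ≤ bb * (bb * B ^ 2 - 2 * be * (B * E) + ee * E ^ 2) := by
    have h7 : bb * (bb * B ^ 2 - 2 * be * (B * E) + ee * E ^ 2) =
        (bb * B - be * E) ^ 2 + (bb * ee - be ^ 2) * E ^ 2 := by ring
    rw [h7]
    have h8 : 0 ≤ (bb * ee - be ^ 2) * E ^ 2 := mul_nonneg (by linarith) (sq_nonneg _)
    linarith [sq_nonneg (bb * B - be * E)]
  exact nonneg_of_mul_nonneg_right this hbbpos

theorem hardy (N : ℕ) (c : ℕ → ℝ) :
    4 * (∑ n ∈ Ico 0 N, c n / √(pw (n + 1))) ^ 2 +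
      ∑ k ∈ Ico 1 N, tw (k + 1) * (∑ n ∈ Ico k N, c n / √(pw (n + 1))) ^ 2 ≤
    3 / 2 * ∑ k ∈ Ico 0 N, tw k * (∑ n ∈ Ico k N, c n / √(pw n)) ^ 2 := by
  obtain ⟨A, hA⟩ : ∃ A : ℕ → ℝ, ∀ k, A k = ∑ n ∈ Ico k N, c n / √(pw (n + 1)) :=
    ⟨_, fun _ => rfl⟩
  obtain ⟨B, hB⟩ : ∃ B : ℕ → ℝ, ∀ k, B k = ∑ n ∈ Ico k N, c n / √(pw n) := ⟨_, fun _ => rfl⟩
  simp only [← hA, ← hB]
  have hAB : ∀ k, A k - rt k * B k = A (k + 1) - rt k * B (k + 1) := by
    intro k
    by_cases hk : k < N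
    · rw [hA, hB, hA, hB, Finset.sum_eq_sum_Ico_succ_bot hk, Finset.sum_eq_sum_Ico_succ_bot hk,
        div_eq_mul_inv (c k) (√(pw (k + 1))), rt_mul]
      ring
    · rw [hA, hB, hA, hB, Finset.Ico_eq_empty_of_le (by omega),
        Finset.Ico_eq_empty_of_le (by omega)]
  have key : ∀ m k, k + 1 + m = N →
      2 * ((k : ℝ) + 1) * (k + 2) * (k + 3) * (A (k + 1) - rt k * B (k + 1)) ^ 2 ≤
      ∑ j ∈ Ico (k + 1) N, (3 / 2 * (tw j * B j ^ 2) - tw (j + 1) * A j ^ 2) := by
    intro m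
    induction m with
    | zero =>
      intro k hk
      have h1 : A (k + 1) = 0 := by rw [hA, Finset.Ico_eq_empty_of_le (by omega)]; simp
      have h2 : B (k + 1) = 0 := by rw [hB, Finset.Ico_eq_empty_of_le (by omega)]; simp
      rw [h1, h2, Finset.Ico_eq_empty_of_le (by omega)]
      simp
    | succ m ih =>
      intro k hk
      have h1 := ih (k + 1) (by omega)
      rw [Finset.sum_eq_sum_Ico_succ_bot (show k + 1 < N by omega)]
      have h2 := key_form k (A (k + 1)) (B (k + 1))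
      rw [← hAB (k + 1)] at h1
      push_cast at h1
      have e1 : (k : ℝ) + 1 + 1 = k + 2 := by ring
      have e2 : (k : ℝ) + 1 + 2 = k + 3 := by ring
      have e3 : (k : ℝ) + 1 + 3 = k + 4 := by ring
      rw [e1, e2, e3] at h1
      linarith
  rcases Nat.eq_zero_or_pos N with hN | hN
  · subst hN
    have h1 : A 0 = 0 := by rw [hA]; simp
    simp [h1]
  · have h1 := key (N - 1) 0 (by omega)
    rw [← hAB 0] at h1
    have ht : rt 0 = 1 / 2 := by
      unfold rt
      rw [show ((0 : ℕ) : ℝ) + 1 = 1 by norm_num, show ((0 : ℕ) : ℝ) + 4 = 2 ^ 2 by norm_num,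
        Real.sqrt_div (by norm_num), Real.sqrt_one, Real.sqrt_sq (by norm_num)]
    rw [ht, Finset.sum_sub_distrib, ← Finset.mul_sum] at h1
    rw [Finset.sum_eq_sum_Ico_succ_bot hN (fun k => tw k * B k ^ 2)]
    have ht0 : tw 0 = 1 := by unfold tw; norm_num
    rw [ht0]
    have h3 : 0 ≤ (3 * B 0 - 4 * A 0) ^ 2 := sq_nonneg _
    norm_num at h1 ⊢
    nlinarith [h1, h3]

end Pool.Agent.Lib.MP_9ff751_an
end

section

/-!
Laguerre polynomials: summation formula, integrability, orthogonality.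
-/

namespace Pool.Agent.Lib.MP_9ff751_an

open MeasureTheory Set

theorem lag_succ_succ (α n : ℕ) (x : ℝ) :
    lag (α + 1) (n + 1) x = lag (α + 1) n x + lag α (n + 1) x := by
  unfold lag
  rw [Finset.sum_range_succ (fun j => (-1) ^ j *
    (((n + 1) + (α + 1)).choose (n + 1 - j) : ℝ) * x ^ j / (j.factorial : ℝ)) (n + 1),
    Finset.sum_range_succ (fun j => (-1) ^ j *
    (((n + 1) + α).choose (n + 1 - j) : ℝ) * x ^ j / (j.factorial : ℝ)) (n + 1)]
  rw [← add_assoc (∑ j ∈ Finset.range (n + 1), (-1) ^ j * ((n + (α + 1)).choose (n - j) : ℝ) *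
    x ^ j / (j.factorial : ℝ)), ← Finset.sum_add_distrib]
  congr 1
  · refine Finset.sum_congr rfl fun j hj => ?_
    rw [Finset.mem_range] at hj
    have h1 : n + 1 - j = (n - j) + 1 := by omega
    have h2 : n + 1 + (α + 1) = (n + (α + 1)) + 1 := by ring
    have h3 : n + 1 + α = n + (α + 1) := by ring
    rw [h1, h2, Nat.choose_succ_succ, h3]
    push_cast
    ring
  · simp

theorem lag_add_one (α n : ℕ) (x : ℝ) :
    lag (α + 1) n x = ∑ k ∈ Finset.range (n + 1), lag α k x := by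
  induction n with
  | zero => simp [lag]
  | succ n ih => rw [lag_succ_succ, ih, Finset.sum_range_succ _ (n + 1)]

theorem continuous_lag (α n : ℕ) : Continuous (lag α n) := by
  unfold lag
  exact continuous_finsetSum _ fun j _ => by fun_prop

theorem lag_integrableOn_pow (p : ℕ) :
    IntegrableOn (fun x : ℝ => x ^ p * Real.exp (-x)) (Ioi 0) := by
  have h := Real.GammaIntegral_convergent (s := (p : ℝ) + 1) (by positivity)
  refine h.congr_fun (fun x hx => ?_) measurableSet_Ioi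
  simp only
  rw [add_sub_cancel_right, Real.rpow_natCast, mul_comm]

theorem lag_integral_pow (p : ℕ) :
    ∫ x in Ioi (0 : ℝ), x ^ p * Real.exp (-x) = (p.factorial : ℝ) := by
  rw [← Real.Gamma_nat_eq_factorial, Real.Gamma_eq_integral (by positivity)]
  refine setIntegral_congr_fun measurableSet_Ioi fun x hx => ?_
  rw [add_sub_cancel_right, Real.rpow_natCast, mul_comm]

theorem lag_integrableOn_one (β α n : ℕ) :
    IntegrableOn (fun x => x ^ β * Real.exp (-x) * lag α n x) (Ioi 0) := by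
  have h1 : ∀ x : ℝ, x ^ β * Real.exp (-x) * lag α n x =
      ∑ j ∈ Finset.range (n + 1), ((-1) ^ j * ((n + α).choose (n - j) : ℝ) / (j.factorial : ℝ)) *
        (x ^ (β + j) * Real.exp (-x)) := by
    intro x
    unfold lag
    rw [Finset.mul_sum]
    exact Finset.sum_congr rfl fun j _ => by rw [pow_add]; ring
  refine Integrable.congr ?_ (Filter.Eventually.of_forall fun x => (h1 x).symm)
  exact integrable_finsetSum _ fun j _ => (lag_integrableOn_pow (β + j)).const_mul _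

theorem integrableOn_lag (β α n m : ℕ) :
    IntegrableOn (fun x => x ^ β * Real.exp (-x) * (lag α n x * lag α m x)) (Ioi 0) := by
  have h1 : ∀ x : ℝ, x ^ β * Real.exp (-x) * (lag α n x * lag α m x) =
      ∑ j ∈ Finset.range (m + 1), ((-1) ^ j * ((m + α).choose (m - j) : ℝ) / (j.factorial : ℝ)) *
        (x ^ (β + j) * Real.exp (-x) * lag α n x) := by
    intro x
    rw [show lag α m x = ∑ j ∈ Finset.range (m + 1), (-1) ^ j * ((m + α).choose (m - j) : ℝ) *
      x ^ j / (j.factorial : ℝ) from rfl, Finset.mul_sum, Finset.mul_sum]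
    exact Finset.sum_congr rfl fun j _ => by rw [pow_add]; ring
  refine Integrable.congr ?_ (Filter.Eventually.of_forall fun x => (h1 x).symm)
  exact integrable_finsetSum _ fun j _ => (lag_integrableOn_one (β + j) α n).const_mul _

/-- finite differences of the binomial coefficients -/
theorem lag_aux_choose (n j a : ℕ) (hj : j ≤ n) :
    ∑ i ∈ Finset.range (n + 1), (-1 : ℤ) ^ i * (n.choose i : ℤ) * ((a + i).choose j : ℤ) =
      if j = n then (-1) ^ n else 0 := by
  have h1 := fwdDiff_iter_eq_sum_shift (h := 1) (fun x : ℕ => ((x.choose j : ℕ) : ℤ)) n a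
  have h2 : (fwdDiff 1)^[n] (fun x : ℕ => ((x.choose j : ℕ) : ℤ)) a = if j = n then 1 else 0 := by
    have h3 := fwdDiff_iter_choose 0 j
    rw [add_zero] at h3
    split_ifs with h
    · subst h
      rw [h3]
      simp
    · obtain ⟨k, rfl⟩ : ∃ k, n = k + 1 + j := ⟨n - 1 - j, by omega⟩
      rw [Function.iterate_add_apply, h3, Function.iterate_add_apply, Function.iterate_one]
      simp only [Nat.choose_zero_right, Nat.cast_one]
      rw [fwdDiff_const]
      rw [fwdDiff_iter_eq_sum_shift]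
      simp
  rw [h2] at h1
  have h4 : ∑ i ∈ Finset.range (n + 1), (-1 : ℤ) ^ i * (n.choose i : ℤ) * ((a + i).choose j : ℤ) =
      (-1) ^ n * ∑ i ∈ Finset.range (n + 1), ((-1 : ℤ) ^ (n - i) * (n.choose i : ℤ)) •
        (((a + i • 1).choose j : ℕ) : ℤ) := by
    rw [Finset.mul_sum]
    refine Finset.sum_congr rfl fun i hi => ?_
    rw [Finset.mem_range] at hi
    have h5 : (-1 : ℤ) ^ n * (-1) ^ (n - i) = (-1) ^ i := by
      have h6 : n + (n - i) = i + 2 * (n - i) := by omega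
      rw [← pow_add, h6, pow_add, pow_mul]
      simp
    rw [smul_eq_mul, smul_eq_mul, mul_one, ← h5]
    ring
  rw [h4, ← h1]
  split_ifs <;> simp

/-- the moments -/
theorem lag_moment (α n j : ℕ) (hj : j ≤ n) :
    ∫ x in Ioi (0 : ℝ), x ^ (α + j) * Real.exp (-x) * lag α n x =
      if j = n then (-1) ^ n * ((n + α).factorial : ℝ) else 0 := by
  have h1 : ∀ x : ℝ, x ^ (α + j) * Real.exp (-x) * lag α n x =
      ∑ i ∈ Finset.range (n + 1), ((-1) ^ i * ((n + α).choose (n - i) : ℝ) / (i.factorial : ℝ)) *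
        (x ^ (α + j + i) * Real.exp (-x)) := by
    intro x
    unfold lag
    rw [Finset.mul_sum]
    exact Finset.sum_congr rfl fun j _ => by rw [pow_add]; ring
  rw [integral_congr_ae (Filter.Eventually.of_forall h1), integral_finsetSum _
    fun j _ => (lag_integrableOn_pow _).const_mul _]
  have h2 : ∀ i ∈ Finset.range (n + 1), ∫ x in Ioi (0 : ℝ),
      ((-1) ^ i * ((n + α).choose (n - i) : ℝ) / (i.factorial : ℝ)) *
        (x ^ (α + j + i) * Real.exp (-x)) =
      (((n + α).factorial : ℝ) * (j.factorial : ℝ) / (n.factorial : ℝ)) *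
        (((-1 : ℤ) ^ i * (n.choose i : ℤ) * ((α + j + i).choose j : ℤ) : ℤ) : ℝ) := by
    intro i hi
    rw [Finset.mem_range] at hi
    rw [integral_const_mul, lag_integral_pow]
    have f1 : ((n + α).choose (n - i) : ℝ) =
        ((n + α).factorial : ℝ) / (((n - i).factorial : ℝ) * ((α + i).factorial : ℝ)) := by
      rw [Nat.cast_choose ℝ (by omega : n - i ≤ n + α), show n + α - (n - i) = α + i by omega]
    have f2 : (n.choose i : ℝ) =
        (n.factorial : ℝ) / ((i.factorial : ℝ) * ((n - i).factorial : ℝ)) :=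
      Nat.cast_choose ℝ (by omega : i ≤ n)
    have f3 : ((α + j + i).choose j : ℝ) =
        ((α + j + i).factorial : ℝ) / ((j.factorial : ℝ) * ((α + i).factorial : ℝ)) := by
      rw [Nat.cast_choose ℝ (by omega : j ≤ α + j + i), show α + j + i - j = α + i by omega]
    push_cast
    rw [f1, f2, f3]
    have g1 : (i.factorial : ℝ) ≠ 0 := by positivity
    have g2 : ((n - i).factorial : ℝ) ≠ 0 := by positivity
    have g3 : ((α + i).factorial : ℝ) ≠ 0 := by positivity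
    have g4 : (n.factorial : ℝ) ≠ 0 := by positivity
    have g5 : (j.factorial : ℝ) ≠ 0 := by positivity
    field_simp
  rw [Finset.sum_congr rfl h2, ← Finset.mul_sum, ← Int.cast_sum, lag_aux_choose n j (α + j) hj]
  split_ifs with h
  · subst h
    have g5 : (j.factorial : ℝ) ≠ 0 := by positivity
    push_cast
    field_simp
  · simp

theorem lag_orth_aux (α n m : ℕ) (hm : m ≤ n) :
    ∫ x in Ioi (0 : ℝ), x ^ α * Real.exp (-x) * (lag α n x * lag α m x) =
      if n = m then ((n + α).factorial : ℝ) / (n.factorial : ℝ) else 0 := by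
  have h1 : ∀ x : ℝ, x ^ α * Real.exp (-x) * (lag α n x * lag α m x) =
      ∑ j ∈ Finset.range (m + 1), ((-1) ^ j * ((m + α).choose (m - j) : ℝ) / (j.factorial : ℝ)) *
        (x ^ (α + j) * Real.exp (-x) * lag α n x) := by
    intro x
    rw [show lag α m x = ∑ j ∈ Finset.range (m + 1), (-1) ^ j * ((m + α).choose (m - j) : ℝ) *
      x ^ j / (j.factorial : ℝ) from rfl, Finset.mul_sum, Finset.mul_sum]
    exact Finset.sum_congr rfl fun j _ => by rw [pow_add]; ring
  rw [integral_congr_ae (Filter.Eventually.of_forall h1), integral_finsetSum _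
    fun j _ => (lag_integrableOn_one _ _ _).const_mul _]
  have h2 : ∀ j ∈ Finset.range (m + 1), ∫ x in Ioi (0 : ℝ),
      ((-1) ^ j * ((m + α).choose (m - j) : ℝ) / (j.factorial : ℝ)) *
        (x ^ (α + j) * Real.exp (-x) * lag α n x) =
      if j = n then ((n + α).factorial : ℝ) / (n.factorial : ℝ) else 0 := by
    intro j hj
    rw [Finset.mem_range] at hj
    rw [integral_const_mul, lag_moment α n j (by omega)]
    split_ifs with h
    · subst h
      have h3 : m = j := by omega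
      subst h3
      rw [Nat.sub_self, Nat.choose_zero_right]
      have g5 : (m.factorial : ℝ) ≠ 0 := by positivity
      have h6 : ((-1 : ℝ) ^ m) * (-1) ^ m = 1 := by
        rw [← mul_pow]; simp
      calc (-1 : ℝ) ^ m * ((1 : ℕ) : ℝ) / (m.factorial : ℝ) * ((-1) ^ m * ((m + α).factorial : ℝ))
          = ((-1 : ℝ) ^ m * (-1) ^ m) * (((m + α).factorial : ℝ) / (m.factorial : ℝ)) := by
            push_cast; ring
        _ = _ := by rw [h6, one_mul]
    · simp
  rw [Finset.sum_congr rfl h2]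
  split_ifs with h
  · subst h
    rw [Finset.sum_ite_eq' , if_pos (Finset.mem_range.2 (by omega))]
  · rw [Finset.sum_ite_eq', if_neg]
    rw [Finset.mem_range]
    omega

/-- orthogonality of the Laguerre polynomials -/
theorem integral_lag (α n m : ℕ) :
    ∫ x in Ioi (0 : ℝ), x ^ α * Real.exp (-x) * (lag α n x * lag α m x) =
      if n = m then ((n + α).factorial : ℝ) / (n.factorial : ℝ) else 0 := by
  rcases le_total m n with h | h
  · exact lag_orth_aux α n m h
  · have h1 := lag_orth_aux α m n h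
    have h2 : ∀ x : ℝ, x ^ α * Real.exp (-x) * (lag α n x * lag α m x) =
        x ^ α * Real.exp (-x) * (lag α m x * lag α n x) := fun x => by ring
    rw [integral_congr_ae (Filter.Eventually.of_forall h2), h1]
    by_cases h3 : n = m
    · subst h3; rfl
    · rw [if_neg h3, if_neg (Ne.symm h3)]

end Pool.Agent.Lib.MP_9ff751_an
end

section

/-!
The Gram matrix of the functions `w_n` dominates its own shift.
-/

namespace Pool.Agent.Lib.MP_9ff751_an

open MeasureTheory Set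

/-! ### The density -/

theorem gram_aux_exp {t : ℝ} (ht : 0 < t) : 0 < Real.exp t - 1 := by
  have := Real.add_one_lt_exp ht.ne'
  linarith

theorem gram_dens_le {t : ℝ} (ht : 0 < t) : dens t ≤ (t ^ 3 + t ^ 2) * Real.exp (-t) := by
  unfold dens
  rw [div_le_iff₀ (gram_aux_exp ht)]
  have h1 : Real.exp (-t) * Real.exp t = 1 := by rw [← Real.exp_add]; simp
  have h2 := Real.add_one_le_exp t
  have h3 : 0 < Real.exp (-t) := Real.exp_pos _
  have h4 : (1 + t) * Real.exp (-t) ≤ 1 := by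
    calc (1 + t) * Real.exp (-t) ≤ Real.exp t * Real.exp (-t) := by nlinarith
      _ = 1 := by rw [mul_comm]; exact h1
  have e : (t ^ 3 + t ^ 2) * Real.exp (-t) * (Real.exp t - 1) =
      (t ^ 3 + t ^ 2) * (Real.exp (-t) * Real.exp t) - (t ^ 3 + t ^ 2) * Real.exp (-t) := by ring
  rw [e, h1]
  have h5 : (t ^ 3 + t ^ 2) * Real.exp (-t) = t ^ 2 * ((1 + t) * Real.exp (-t)) := by ring
  rw [h5]
  nlinarith [sq_nonneg t]

theorem gram_aux_ineq {t : ℝ} (ht : 0 < t) : 1 - t / 2 ≤ (1 + t) * Real.exp (-t) := by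
  have h3 : 0 < Real.exp (-t) := Real.exp_pos _
  rcases le_or_gt t 1 with h | h
  · have h1 := Real.one_sub_le_exp_neg (t / 2)
    have h2 : Real.exp (-t) = Real.exp (-(t / 2)) ^ 2 := by
      rw [← Real.exp_nat_mul]; congr 1; push_cast; ring
    rw [h2]
    have h4 : (1 - t / 2) ^ 2 ≤ Real.exp (-(t / 2)) ^ 2 :=
      pow_le_pow_left₀ (by linarith) h1 2
    nlinarith [mul_le_mul_of_nonneg_left h4 (by linarith : (0 : ℝ) ≤ 1 + t),
      mul_nonneg (mul_nonneg ht.le (by linarith : (0 : ℝ) ≤ 1 - t))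
        (by linarith : (0 : ℝ) ≤ 1 - t / 2)]
  · rcases le_or_gt 2 t with h' | h'
    · nlinarith
    · have h5 := Real.add_one_le_exp (3 / 2 - t)
      have h6 : Real.exp (3 / 2 - t) = Real.exp (3 / 2) * Real.exp (-t) := by
        rw [← Real.exp_add]; congr 1
      have h7 : Real.exp (3 / 2) ≤ 5 := by
        have h8 : Real.exp (3 / 2) ^ 2 = Real.exp 1 ^ 3 := by
          rw [← Real.exp_nat_mul, ← Real.exp_nat_mul]; congr 1; norm_num
        have h9 : Real.exp 1 ^ 3 ≤ 2.7182818286 ^ 3 :=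
          pow_le_pow_left₀ (Real.exp_pos _).le Real.exp_one_lt_d9.le 3
        have h10 : Real.exp (3 / 2) ^ 2 ≤ 5 ^ 2 := by
          rw [h8]; exact h9.trans (by norm_num)
        exact (pow_le_pow_iff_left₀ (Real.exp_pos _).le (by norm_num) two_ne_zero).1 h10
      rw [h6] at h5
      have h11 : 5 / 2 - t ≤ 5 * Real.exp (-t) := by nlinarith
      nlinarith [mul_nonneg (by linarith : (0 : ℝ) ≤ t - 1) (by linarith : (0 : ℝ) ≤ 2 - t),
        mul_le_mul_of_nonneg_left h11 (by linarith : (0 : ℝ) ≤ 1 + t)]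

theorem gram_le_dens {t : ℝ} (ht : 0 < t) :
    (t ^ 3 + t ^ 2) * Real.exp (-t) ≤ 3 / 2 * dens t := by
  unfold dens
  rw [← mul_div_assoc, le_div_iff₀ (gram_aux_exp ht)]
  have h1 : Real.exp (-t) * Real.exp t = 1 := by rw [← Real.exp_add]; simp
  have e : (t ^ 3 + t ^ 2) * Real.exp (-t) * (Real.exp t - 1) =
      (t ^ 3 + t ^ 2) * (Real.exp (-t) * Real.exp t) - (t ^ 3 + t ^ 2) * Real.exp (-t) := by ring
  rw [e, h1]
  have h5 : (t ^ 3 + t ^ 2) * Real.exp (-t) = t ^ 2 * ((1 + t) * Real.exp (-t)) := by ring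
  rw [h5]
  have h6 := gram_aux_ineq ht
  nlinarith [mul_le_mul_of_nonneg_left h6 (sq_nonneg t)]

theorem gram_dens_nonneg {t : ℝ} (ht : 0 < t) : 0 ≤ dens t :=
  div_nonneg (by positivity) (gram_aux_exp ht).le

/-! ### Products of the functions `w_n` -/

theorem gram_wf_mul (n m : ℕ) (t : ℝ) : wf n t * wf m t * Real.exp (-t) =
    Real.exp (-(s5 * t)) * (lag 3 n (s5 * t) * lag 3 m (s5 * t)) / (√(pw n) * √(pw m)) := by
  unfold wf
  have h1 : Real.exp (-(s5 * t)) =
      Real.exp (-(phi - 1) * t) * Real.exp (-(phi - 1) * t) * Real.exp (-t) := by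
    rw [← Real.exp_add, ← Real.exp_add]
    congr 1
    unfold s5
    ring
  rw [h1]
  ring

theorem continuous_wf (n : ℕ) : Continuous (wf n) := by
  unfold wf
  have := continuous_lag 3 n
  fun_prop

theorem continuousOn_dens : ContinuousOn dens (Ioi 0) := by
  unfold dens
  refine ContinuousOn.div (by fun_prop) (by fun_prop) fun t ht => ?_
  exact (gram_aux_exp ht).ne'

/-- the comparison functions are integrable -/
theorem gram_integrableOn_pow (p n m : ℕ) :
    IntegrableOn (fun t => wf n t * wf m t * (t ^ p * Real.exp (-t))) (Ioi 0) := by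
  have h1 : IntegrableOn (fun x => x ^ p * Real.exp (-x) * (lag 3 n x * lag 3 m x))
      (Ioi (s5 * 0)) := by
    rw [mul_zero]; exact integrableOn_lag p 3 n m
  have h2 := (integrableOn_Ioi_comp_mul_left_iff _ 0 s5_pos).2 h1
  have h3 := h2.const_mul ((s5 ^ p)⁻¹ * (√(pw n) * √(pw m))⁻¹)
  refine h3.congr (Filter.Eventually.of_forall fun t => ?_)
  have h4 := gram_wf_mul n m t
  have h5 : s5 ^ p ≠ 0 := (pow_pos s5_pos p).ne'
  calc (s5 ^ p)⁻¹ * (√(pw n) * √(pw m))⁻¹ *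
        ((s5 * t) ^ p * Real.exp (-(s5 * t)) * (lag 3 n (s5 * t) * lag 3 m (s5 * t)))
      = ((s5 ^ p)⁻¹ * s5 ^ p) * t ^ p * (Real.exp (-(s5 * t)) *
          (lag 3 n (s5 * t) * lag 3 m (s5 * t)) / (√(pw n) * √(pw m))) := by
        rw [mul_pow, div_eq_mul_inv]; ring
    _ = wf n t * wf m t * (t ^ p * Real.exp (-t)) := by
        rw [inv_mul_cancel₀ h5, ← h4]; ring

theorem integrableOn_wf (n m : ℕ) :
    IntegrableOn (fun t => wf n t * wf m t * dens t) (Ioi 0) := by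
  have h1 : IntegrableOn (fun t => |wf n t * wf m t * (t ^ 3 * Real.exp (-t))| +
      |wf n t * wf m t * (t ^ 2 * Real.exp (-t))|) (Ioi 0) :=
    (gram_integrableOn_pow 3 n m).abs.add (gram_integrableOn_pow 2 n m).abs
  refine Integrable.mono' h1 ?_ ?_
  · exact ((((continuous_wf n).mul (continuous_wf m)).continuousOn).mul
      continuousOn_dens).aestronglyMeasurable measurableSet_Ioi
  · rw [ae_restrict_iff' measurableSet_Ioi]
    refine Filter.Eventually.of_forall fun t ht => ?_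
    have ht' : 0 < t := ht
    have h2 := gram_dens_le ht'
    have h3 := gram_dens_nonneg ht'
    rw [Real.norm_eq_abs, abs_mul, abs_of_nonneg h3, abs_mul (wf n t * wf m t),
      abs_mul (wf n t * wf m t), ← mul_add,
      abs_of_nonneg (by positivity : 0 ≤ t ^ 3 * Real.exp (-t)),
      abs_of_nonneg (by positivity : 0 ≤ t ^ 2 * Real.exp (-t))]
    refine mul_le_mul_of_nonneg_left ?_ (abs_nonneg _)
    linarith

/-- the functions `(1 - exp(-t)) w_n` are dual to the functions `w_n` -/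
theorem dual_wf (n m : ℕ) :
    IntegrableOn (fun t => (1 - Real.exp (-t)) * wf n t * wf m t * dens t) (Ioi 0) ∧
    ∫ t in Ioi (0 : ℝ), (1 - Real.exp (-t)) * wf n t * wf m t * dens t =
      if n = m then 6 / 25 else 0 := by
  have key : ∀ t ∈ Ioi (0 : ℝ), (1 - Real.exp (-t)) * wf n t * wf m t * dens t =
      wf n t * wf m t * (t ^ 3 * Real.exp (-t)) := by
    intro t ht
    have h1 := (gram_aux_exp ht).ne'
    have h2 : Real.exp (-t) * Real.exp t = 1 := by rw [← Real.exp_add]; simp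
    have h3 : (1 - Real.exp (-t)) * dens t = t ^ 3 * Real.exp (-t) := by
      unfold dens
      rw [← mul_div_assoc, div_eq_iff h1]
      have : t ^ 3 * Real.exp (-t) * (Real.exp t - 1) =
        t ^ 3 * (Real.exp (-t) * Real.exp t) - t ^ 3 * Real.exp (-t) := by ring
      rw [this, h2]; ring
    calc (1 - Real.exp (-t)) * wf n t * wf m t * dens t =
        wf n t * wf m t * ((1 - Real.exp (-t)) * dens t) := by ring
      _ = _ := by rw [h3]
  constructor
  · exact (gram_integrableOn_pow 3 n m).congr_fun (fun t ht => (key t ht).symm) measurableSet_Ioi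
  · rw [setIntegral_congr_fun measurableSet_Ioi key]
    have h4 : ∀ t : ℝ, wf n t * wf m t * (t ^ 3 * Real.exp (-t)) =
        ((s5 ^ 3)⁻¹ * (√(pw n) * √(pw m))⁻¹) * ((fun x => x ^ 3 * Real.exp (-x) *
          (lag 3 n x * lag 3 m x)) (s5 * t)) := by
      intro t
      have h5 : s5 ^ 3 ≠ 0 := (pow_pos s5_pos 3).ne'
      have h6 := gram_wf_mul n m t
      calc wf n t * wf m t * (t ^ 3 * Real.exp (-t)) = t ^ 3 * (wf n t * wf m t * Real.exp (-t)) := by
            ring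
        _ = ((s5 ^ 3)⁻¹ * s5 ^ 3) * t ^ 3 * (Real.exp (-(s5 * t)) *
          (lag 3 n (s5 * t) * lag 3 m (s5 * t)) / (√(pw n) * √(pw m))) := by
            rw [inv_mul_cancel₀ h5, h6]; ring
        _ = _ := by simp only [mul_pow, div_eq_mul_inv]; ring
    have h13 := integral_comp_mul_left_Ioi (fun x => x ^ 3 * Real.exp (-x) *
          (lag 3 n x * lag 3 m x)) 0 s5_pos
    rw [mul_zero, integral_lag, smul_eq_mul] at h13
    rw [integral_congr_ae (Filter.Eventually.of_forall h4), integral_const_mul, h13]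
    split_ifs with hnm
    · subst hnm
      have h7 : √(pw n) * √(pw n) = pw n := Real.mul_self_sqrt (pw_pos n).le
      have h8 : ((n + 3).factorial : ℝ) / (n.factorial : ℝ) = 6 * pw n := by
        have : (n.factorial : ℝ) ≠ 0 := by positivity
        rw [div_eq_iff this]
        simp only [Nat.factorial_succ]
        push_cast
        unfold pw
        ring
      have h9 := (pw_pos n).ne'
      have h10 : s5 ^ 4 = 25 := by
        have : s5 ^ 4 = (s5 ^ 2) ^ 2 := by ring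
        rw [this, s5_sq]; norm_num
      rw [h7, h8]
      have h11 := s5_pos.ne'
      have h12 : (s5 ^ 3)⁻¹ * (pw n)⁻¹ * (s5⁻¹ * (6 * pw n)) = 6 / s5 ^ 4 := by
        field_simp
      rw [h12, h10]
    · ring

/-! ### The quadratic forms -/

/-- the quadratic form of the Gram matrix as an integral -/
theorem gram_form (i N : ℕ) (c : ℕ → ℝ) :
    ∑ n ∈ Finset.range N, ∑ m ∈ Finset.range N, c n * c m * gram (n + i) (m + i) =
      ∫ t in Ioi (0 : ℝ), (∑ n ∈ Finset.range N, c n * wf (n + i) t) ^ 2 * dens t := by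
  have h1 : ∀ t : ℝ, (∑ n ∈ Finset.range N, c n * wf (n + i) t) ^ 2 * dens t =
      ∑ n ∈ Finset.range N, ∑ m ∈ Finset.range N,
        c n * c m * (wf (n + i) t * wf (m + i) t * dens t) := by
    intro t
    rw [sq, Finset.sum_mul_sum, Finset.sum_mul]
    refine Finset.sum_congr rfl fun n _ => ?_
    rw [Finset.sum_mul]
    exact Finset.sum_congr rfl fun m _ => by ring
  rw [integral_congr_ae (Filter.Eventually.of_forall h1), integral_finsetSum]
  · refine Finset.sum_congr rfl fun n _ => ?_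
    rw [integral_finsetSum]
    · refine Finset.sum_congr rfl fun m _ => ?_
      rw [integral_const_mul]
      rfl
    · exact fun m _ => (integrableOn_wf _ _).const_mul _
  · exact fun n _ => integrable_finsetSum _ fun m _ => (integrableOn_wf _ _).const_mul _

/-- the squared norm of a combination of Laguerre polynomials -/
theorem gram_norm (α M : ℕ) (a : ℕ → ℝ) :
    ∫ y in Ioi (0 : ℝ), y ^ α * Real.exp (-y) * (∑ k ∈ Finset.range M, a k * lag α k y) ^ 2 =
      ∑ k ∈ Finset.range M, (((k + α).factorial : ℝ) / (k.factorial : ℝ)) * a k ^ 2 := by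
  have h1 : ∀ y : ℝ, y ^ α * Real.exp (-y) * (∑ k ∈ Finset.range M, a k * lag α k y) ^ 2 =
      ∑ k ∈ Finset.range M, ∑ l ∈ Finset.range M,
        a k * a l * (y ^ α * Real.exp (-y) * (lag α k y * lag α l y)) := by
    intro y
    rw [sq, Finset.sum_mul_sum, Finset.mul_sum]
    refine Finset.sum_congr rfl fun n _ => ?_
    rw [Finset.mul_sum]
    exact Finset.sum_congr rfl fun m _ => by ring
  rw [integral_congr_ae (Filter.Eventually.of_forall h1), integral_finsetSum]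
  · refine Finset.sum_congr rfl fun k hk => ?_
    rw [integral_finsetSum]
    · have h2 : ∀ l ∈ Finset.range M, ∫ y in Ioi (0 : ℝ),
          a k * a l * (y ^ α * Real.exp (-y) * (lag α k y * lag α l y)) =
          if k = l then a k * a l * (((k + α).factorial : ℝ) / (k.factorial : ℝ)) else 0 := by
        intro l _
        rw [integral_const_mul, integral_lag]
        split_ifs <;> simp
      rw [Finset.sum_congr rfl h2, Finset.sum_ite_eq, if_pos hk]
      ring
    · exact fun m _ => (integrableOn_lag α α _ _).const_mul _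
  · exact fun n _ => integrable_finsetSum _ fun m _ => (integrableOn_lag α α _ _).const_mul _

/-- the polynomial `P_i` -/
noncomputable def gramP (i N : ℕ) (c : ℕ → ℝ) (y : ℝ) : ℝ :=
  ∑ n ∈ Finset.range N, (c n / √(pw (n + i))) * lag 3 (n + i) y

theorem gram_sum_wf (i N : ℕ) (c : ℕ → ℝ) (t : ℝ) :
    (∑ n ∈ Finset.range N, c n * wf (n + i) t) ^ 2 * Real.exp (-t) =
      Real.exp (-(s5 * t)) * gramP i N c (s5 * t) ^ 2 := by
  have h1 : ∑ n ∈ Finset.range N, c n * wf (n + i) t =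
      Real.exp (-(phi - 1) * t) * gramP i N c (s5 * t) := by
    unfold gramP
    rw [Finset.mul_sum]
    refine Finset.sum_congr rfl fun n _ => ?_
    unfold wf
    ring
  have h2 : Real.exp (-(s5 * t)) =
      Real.exp (-(phi - 1) * t) * Real.exp (-(phi - 1) * t) * Real.exp (-t) := by
    rw [← Real.exp_add, ← Real.exp_add]
    congr 1
    unfold s5
    ring
  rw [h1, h2]
  ring

theorem continuous_gramP (i N : ℕ) (c : ℕ → ℝ) : Continuous (gramP i N c) := by
  unfold gramP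
  exact continuous_finsetSum _ fun n _ => continuous_const.mul (continuous_lag 3 _)

theorem gram_integrableOn_P (p i N : ℕ) (c : ℕ → ℝ) :
    IntegrableOn (fun y => y ^ p * Real.exp (-y) * gramP i N c y ^ 2) (Ioi 0) := by
  have h1 : ∀ y : ℝ, y ^ p * Real.exp (-y) * gramP i N c y ^ 2 =
      ∑ k ∈ Finset.range N, ∑ l ∈ Finset.range N,
        (c k / √(pw (k + i))) * (c l / √(pw (l + i))) *
          (y ^ p * Real.exp (-y) * (lag 3 (k + i) y * lag 3 (l + i) y)) := by
    intro y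
    unfold gramP
    rw [sq, Finset.sum_mul_sum, Finset.mul_sum]
    refine Finset.sum_congr rfl fun n _ => ?_
    rw [Finset.mul_sum]
    exact Finset.sum_congr rfl fun m _ => by ring
  refine Integrable.congr ?_ (Filter.Eventually.of_forall fun y => (h1 y).symm)
  exact integrable_finsetSum _ fun n _ => integrable_finsetSum _ fun m _ =>
    (integrableOn_lag p 3 _ _).const_mul _

/-- the comparison integral -/
noncomputable def gramJ (i N : ℕ) (c : ℕ → ℝ) (p : ℕ) : ℝ :=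
  ∫ y in Ioi (0 : ℝ), y ^ p * Real.exp (-y) * gramP i N c y ^ 2

theorem gram_scale (i N : ℕ) (c : ℕ → ℝ) (p : ℕ) :
    IntegrableOn (fun t => (∑ n ∈ Finset.range N, c n * wf (n + i) t) ^ 2 *
      (t ^ p * Real.exp (-t))) (Ioi 0) ∧
    ∫ t in Ioi (0 : ℝ), (∑ n ∈ Finset.range N, c n * wf (n + i) t) ^ 2 *
      (t ^ p * Real.exp (-t)) = (s5 ^ (p + 1))⁻¹ * gramJ i N c p := by
  have h5 : s5 ^ p ≠ 0 := (pow_pos s5_pos p).ne'
  have h4 : ∀ t : ℝ, (∑ n ∈ Finset.range N, c n * wf (n + i) t) ^ 2 * (t ^ p * Real.exp (-t)) =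
      (s5 ^ p)⁻¹ * ((fun y => y ^ p * Real.exp (-y) * gramP i N c y ^ 2) (s5 * t)) := by
    intro t
    have h6 := gram_sum_wf i N c t
    calc (∑ n ∈ Finset.range N, c n * wf (n + i) t) ^ 2 * (t ^ p * Real.exp (-t))
        = t ^ p * ((∑ n ∈ Finset.range N, c n * wf (n + i) t) ^ 2 * Real.exp (-t)) := by ring
      _ = ((s5 ^ p)⁻¹ * s5 ^ p) * t ^ p * (Real.exp (-(s5 * t)) * gramP i N c (s5 * t) ^ 2) := by
          rw [inv_mul_cancel₀ h5, h6]; ring
      _ = _ := by simp only [mul_pow]; ring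
  have h1 : IntegrableOn (fun y => y ^ p * Real.exp (-y) * gramP i N c y ^ 2) (Ioi (s5 * 0)) := by
    rw [mul_zero]; exact gram_integrableOn_P p i N c
  have h2 := (integrableOn_Ioi_comp_mul_left_iff _ 0 s5_pos).2 h1
  have h13 := integral_comp_mul_left_Ioi (fun y => y ^ p * Real.exp (-y) * gramP i N c y ^ 2)
    0 s5_pos
  rw [mul_zero, smul_eq_mul] at h13
  constructor
  · exact (h2.const_mul _).congr (Filter.Eventually.of_forall fun t => (h4 t).symm)
  · rw [integral_congr_ae (Filter.Eventually.of_forall h4), integral_const_mul, h13]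
    unfold gramJ
    rw [pow_succ, mul_inv]
    ring

theorem gram_integrableOn_dens (i N : ℕ) (c : ℕ → ℝ) :
    IntegrableOn (fun t => (∑ n ∈ Finset.range N, c n * wf (n + i) t) ^ 2 * dens t) (Ioi 0) := by
  have h1 : ∀ t : ℝ, (∑ n ∈ Finset.range N, c n * wf (n + i) t) ^ 2 * dens t =
      ∑ n ∈ Finset.range N, ∑ m ∈ Finset.range N,
        c n * c m * (wf (n + i) t * wf (m + i) t * dens t) := by
    intro t
    rw [sq, Finset.sum_mul_sum, Finset.sum_mul]
    refine Finset.sum_congr rfl fun n _ => ?_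
    rw [Finset.sum_mul]
    exact Finset.sum_congr rfl fun m _ => by ring
  refine Integrable.congr ?_ (Filter.Eventually.of_forall fun y => (h1 y).symm)
  exact integrable_finsetSum _ fun n _ => integrable_finsetSum _ fun m _ =>
    (integrableOn_wf _ _).const_mul _

theorem gram_upper (i N : ℕ) (c : ℕ → ℝ) :
    ∫ t in Ioi (0 : ℝ), (∑ n ∈ Finset.range N, c n * wf (n + i) t) ^ 2 * dens t ≤
      (s5 ^ 4)⁻¹ * gramJ i N c 3 + (s5 ^ 3)⁻¹ * gramJ i N c 2 := by
  obtain ⟨i3, e3⟩ := gram_scale i N c 3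
  obtain ⟨i2, e2⟩ := gram_scale i N c 2
  rw [← e3, ← e2, ← integral_add i3 i2]
  refine setIntegral_mono_on (gram_integrableOn_dens i N c) (i3.add i2) measurableSet_Ioi ?_
  intro t ht
  have h1 := gram_dens_le ht
  rw [← mul_add]
  refine mul_le_mul_of_nonneg_left ?_ (sq_nonneg _)
  linarith

theorem gram_lower (i N : ℕ) (c : ℕ → ℝ) :
    (s5 ^ 4)⁻¹ * gramJ i N c 3 + (s5 ^ 3)⁻¹ * gramJ i N c 2 ≤
    3 / 2 * ∫ t in Ioi (0 : ℝ), (∑ n ∈ Finset.range N, c n * wf (n + i) t) ^ 2 * dens t := by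
  obtain ⟨i3, e3⟩ := gram_scale i N c 3
  obtain ⟨i2, e2⟩ := gram_scale i N c 2
  rw [← e3, ← e2, ← integral_add i3 i2, ← integral_const_mul]
  refine setIntegral_mono_on (i3.add i2) ((gram_integrableOn_dens i N c).const_mul _)
    measurableSet_Ioi ?_
  intro t ht
  have h1 := gram_le_dens ht
  rw [← mul_add]
  have h2 : (∑ n ∈ Finset.range N, c n * wf (n + i) t) ^ 2 *
      (t ^ 3 * Real.exp (-t) + t ^ 2 * Real.exp (-t)) ≤
      (∑ n ∈ Finset.range N, c n * wf (n + i) t) ^ 2 * (3 / 2 * dens t) := by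
    refine mul_le_mul_of_nonneg_left ?_ (sq_nonneg _)
    linarith
  linarith

/-- the leading term -/
theorem gramJ_three (i N : ℕ) (c : ℕ → ℝ) :
    gramJ i N c 3 = 6 * ∑ n ∈ Finset.range N, c n ^ 2 := by
  -- a combination of the polynomials `lag 3 k`, `k < N + i`
  have h0 : ∀ y, gramP i N c y = ∑ k ∈ Finset.range (N + i),
      (if i ≤ k then c (k - i) / √(pw k) else 0) * lag 3 k y := by
    intro y
    unfold gramP
    rw [add_comm N i, Finset.sum_range_add]
    have : ∑ x ∈ Finset.range i, (if i ≤ x then c (x - i) / √(pw x) else 0) * lag 3 x y = 0 := by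
      refine Finset.sum_eq_zero fun x hx => ?_
      rw [if_neg (by simpa using hx), zero_mul]
    rw [this, zero_add]
    refine Finset.sum_congr rfl fun n _ => ?_
    rw [if_pos (by omega), Nat.add_sub_cancel_left, add_comm i n]
  unfold gramJ
  simp_rw [h0]
  rw [gram_norm, add_comm N i, Finset.sum_range_add]
  have : ∑ x ∈ Finset.range i, (((x + 3).factorial : ℝ) / (x.factorial : ℝ)) *
      (if i ≤ x then c (x - i) / √(pw x) else 0) ^ 2 = 0 := by
    refine Finset.sum_eq_zero fun x hx => ?_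
    rw [if_neg (by simpa using hx)]
    ring
  rw [this, zero_add, Finset.mul_sum]
  refine Finset.sum_congr rfl fun n _ => ?_
  rw [if_pos (by omega), Nat.add_sub_cancel_left]
  have h8 : ((i + n + 3).factorial : ℝ) / ((i + n).factorial : ℝ) = 6 * pw (i + n) := by
    have : ((i + n).factorial : ℝ) ≠ 0 := by positivity
    rw [div_eq_iff this]
    simp only [Nat.factorial_succ]
    push_cast
    unfold pw
    push_cast
    ring
  rw [h8, div_pow, Real.sq_sqrt (pw_pos _).le]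
  have := (pw_pos (i + n)).ne'
  field_simp

/-- the second term -/
theorem gramJ_two (i N : ℕ) (c : ℕ → ℝ) :
    gramJ i N c 2 = 2 * ∑ k ∈ Finset.range (N + i), tw k *
      (∑ n ∈ Finset.Ico (k - i) N, c n / √(pw (n + i))) ^ 2 := by
  have h0 : ∀ y, gramP i N c y = ∑ k ∈ Finset.range (N + i),
      (∑ n ∈ Finset.Ico (k - i) N, c n / √(pw (n + i))) * lag 2 k y := by
    intro y
    unfold gramP
    have h1 : ∀ n ∈ Finset.range N, (c n / √(pw (n + i))) * lag 3 (n + i) y =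
        ∑ k ∈ Finset.range (N + i), if k ≤ n + i then (c n / √(pw (n + i))) * lag 2 k y else 0 := by
      intro n hn
      rw [Finset.mem_range] at hn
      rw [show (3 : ℕ) = 2 + 1 from rfl, lag_add_one, Finset.mul_sum, ← Finset.sum_filter]
      refine Finset.sum_congr ?_ fun _ _ => rfl
      ext k
      simp only [Finset.mem_range, Finset.mem_filter]
      omega
    rw [Finset.sum_congr rfl h1, Finset.sum_comm]
    refine Finset.sum_congr rfl fun k _ => ?_
    rw [← Finset.sum_filter, Finset.sum_mul]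
    refine Finset.sum_congr ?_ fun _ _ => rfl
    ext n
    simp only [Finset.mem_range, Finset.mem_filter, Finset.mem_Ico]
    omega
  unfold gramJ
  simp_rw [h0]
  rw [gram_norm, Finset.mul_sum]
  refine Finset.sum_congr rfl fun k _ => ?_
  have h8 : ((k + 2).factorial : ℝ) / (k.factorial : ℝ) = 2 * tw k := by
    have : (k.factorial : ℝ) ≠ 0 := by positivity
    rw [div_eq_iff this]
    simp only [Nat.factorial_succ]
    push_cast
    unfold tw
    ring
  rw [h8]
  ring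

theorem gramJ_two_le (N : ℕ) (c : ℕ → ℝ) : gramJ 1 N c 2 ≤ 3 / 2 * gramJ 0 N c 2 := by
  rcases Nat.eq_zero_or_pos N with hN | hN
  · subst hN
    rw [gramJ_two, gramJ_two]
    simp
  have h1 := hardy N c
  rw [gramJ_two, gramJ_two]
  have e0 : ∑ k ∈ Finset.range (N + 0), tw k *
      (∑ n ∈ Finset.Ico (k - 0) N, c n / √(pw (n + 0))) ^ 2 =
      ∑ k ∈ Finset.Ico 0 N, tw k * (∑ n ∈ Finset.Ico k N, c n / √(pw n)) ^ 2 := by
    rw [add_zero, Finset.range_eq_Ico]
    simp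
  have e1 : ∑ k ∈ Finset.range (N + 1), tw k *
      (∑ n ∈ Finset.Ico (k - 1) N, c n / √(pw (n + 1))) ^ 2 =
      4 * (∑ n ∈ Finset.Ico 0 N, c n / √(pw (n + 1))) ^ 2 +
      ∑ k ∈ Finset.Ico 1 N, tw (k + 1) * (∑ n ∈ Finset.Ico k N, c n / √(pw (n + 1))) ^ 2 := by
    rw [Finset.sum_range_succ', Finset.range_eq_Ico, Finset.sum_eq_sum_Ico_succ_bot hN]
    simp only [Nat.add_sub_cancel, zero_add, Nat.zero_sub]
    have t0 : tw 0 = 1 := by unfold tw; norm_num
    have t1 : tw 1 = 3 := by unfold tw; norm_num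
    rw [t0, t1]
    ring
  rw [e0, e1]
  linarith

theorem gram_shift (N : ℕ) (c : ℕ → ℝ) :
    ∑ n ∈ Finset.range N, ∑ m ∈ Finset.range N, c n * c m * gram (n + 1) (m + 1) ≤
      9 / 4 * ∑ n ∈ Finset.range N, ∑ m ∈ Finset.range N, c n * c m * gram n m := by
  have h0 := gram_form 0 N c
  have h1 := gram_form 1 N c
  simp only [add_zero] at h0
  rw [h1, h0]
  have u := gram_upper 1 N c
  have l := gram_lower 0 N c
  simp only [add_zero] at l
  have j3 : gramJ 1 N c 3 = gramJ 0 N c 3 := by rw [gramJ_three, gramJ_three]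
  have j30 : 0 ≤ gramJ 0 N c 3 := by
    rw [gramJ_three]
    exact mul_nonneg (by norm_num) (Finset.sum_nonneg fun _ _ => sq_nonneg _)
  have j2 := gramJ_two_le N c
  have s4 : 0 < (s5 ^ 4)⁻¹ := inv_pos.2 (pow_pos s5_pos 4)
  have s3 : 0 < (s5 ^ 3)⁻¹ := inv_pos.2 (pow_pos s5_pos 3)
  rw [j3] at u
  have m2 := mul_le_mul_of_nonneg_left j2 s3.le
  have m3 := mul_nonneg s4.le j30
  linarith

end Pool.Agent.Lib.MP_9ff751_an
end
end

section

/-!
Alternating eigenvalues from a strict contraction `V` with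
`⟪K V x, V x⟫ = - ⟪K x, x⟫ + |⟪w, x⟫|^2`.
-/

namespace Pool.Agent.Lib.MP_9ff751_an

open Module Module.End

section spectral

variable {H : Type*} [NormedAddCommGroup H] [InnerProductSpace ℂ H]

/-- the real eigenspaces -/
private noncomputable def EE (K : H →L[ℂ] H) (μ : ℝ) : Submodule ℂ H :=
  eigenspace (K : H →ₗ[ℂ] H) (μ : ℂ)

/-- the span of the eigenspaces for the eigenvalues in `S` -/
private noncomputable def AA (K : H →L[ℂ] H) (S : Set ℝ) : Submodule ℂ H :=
  ⨆ μ : S, EE K μ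

private theorem mem_EE {K : H →L[ℂ] H} {μ : ℝ} {x : H} : x ∈ EE K μ ↔ K x = (μ : ℂ) • x := by
  unfold EE
  rw [mem_eigenspace_iff]
  rfl

private theorem EE_le_AA {K : H →L[ℂ] H} {S : Set ℝ} {μ : ℝ} (h : μ ∈ S) : EE K μ ≤ AA K S :=
  le_iSup (fun ν : S => EE K ν) ⟨μ, h⟩

private theorem AA_le {K : H →L[ℂ] H} {S : Set ℝ} {W : Submodule ℂ H} (h : ∀ μ ∈ S, EE K μ ≤ W) :
    AA K S ≤ W := iSup_le fun ν => h ν ν.2

private theorem AA_mono {K : H →L[ℂ] H} {S T : Set ℝ} (h : S ⊆ T) : AA K S ≤ AA K T :=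
  AA_le fun _ hμ => EE_le_AA (h hμ)

private theorem EE_orth {K : H →L[ℂ] H} (hs : (K : H →ₗ[ℂ] H).IsSymmetric) {μ ν : ℝ} (h : μ ≠ ν)
    {x y : H} (hx : x ∈ EE K μ) (hy : y ∈ EE K ν) : inner ℂ x y = 0 := by
  have := hs.orthogonalFamily_eigenspaces (i := (μ : ℂ)) (j := (ν : ℂ))
    (by simpa using h) ⟨x, hx⟩ ⟨y, hy⟩
  simpa using this

private theorem AA_orth {K : H →L[ℂ] H} (hs : (K : H →ₗ[ℂ] H).IsSymmetric) {S T : Set ℝ}
    (h : Disjoint S T) : AA K S ⟂ AA K T := by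
  unfold AA
  rw [Submodule.isOrtho_iSup_left]
  intro μ
  rw [Submodule.isOrtho_iSup_right]
  intro ν
  rw [Submodule.isOrtho_iff_inner_eq]
  intro x hx y hy
  exact EE_orth hs (fun hh : (μ : ℝ) = ν => Set.disjoint_left.mp h μ.2 (by rw [hh]; exact ν.2)) hx hy

/-- finite expansions -/
private theorem AA_expand {K : H →L[ℂ] H} (hs : (K : H →ₗ[ℂ] H).IsSymmetric) {S : Set ℝ} {x : H}
    (hx : x ∈ AA K S) : ∃ (s : Finset ℝ) (f : ℝ → H), (∀ μ ∈ s, μ ∈ S) ∧
      ‖x‖ ^ 2 = ∑ μ ∈ s, ‖f μ‖ ^ 2 ∧ (inner ℂ (K x) x).re = ∑ μ ∈ s, μ * ‖f μ‖ ^ 2 ∧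
      ‖K x‖ ^ 2 = ∑ μ ∈ s, μ ^ 2 * ‖f μ‖ ^ 2 := by
  classical
  unfold AA at hx
  rw [Submodule.mem_iSup_iff_exists_finsupp] at hx
  obtain ⟨g, hg, rfl⟩ := hx
  set f : ℝ → H := fun μ => if h : μ ∈ S then g ⟨μ, h⟩ else 0 with hf
  set s : Finset ℝ := g.support.map ⟨Subtype.val, Subtype.val_injective⟩ with hsdef
  have hfg : ∀ i : S, f i = g i := by intro i; simp [hf]
  have hsum : (g.sum fun _ xi => xi) = ∑ μ ∈ s, f μ := by
    rw [hsdef, Finset.sum_map]
    simp only [Finsupp.sum, Function.Embedding.coeFn_mk, hfg]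
  have hsS : ∀ μ ∈ s, μ ∈ S := by
    intro μ hμ
    rw [hsdef, Finset.mem_map] at hμ
    obtain ⟨i, _, rfl⟩ := hμ
    exact i.2
  have hfE : ∀ μ ∈ s, f μ ∈ EE K μ := by
    intro μ hμ
    have := hg ⟨μ, hsS μ hμ⟩
    rw [← hfg] at this
    exact this
  have hK : K (∑ μ ∈ s, f μ) = ∑ μ ∈ s, (μ : ℂ) • f μ := by
    rw [map_sum]
    exact Finset.sum_congr rfl fun μ hμ => mem_EE.mp (hfE μ hμ)
  -- inner products of combinations
  have key : ∀ a b : ℝ → ℝ, inner ℂ (∑ μ ∈ s, (a μ : ℂ) • f μ) (∑ μ ∈ s, (b μ : ℂ) • f μ) =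
      ((∑ μ ∈ s, a μ * b μ * ‖f μ‖ ^ 2 : ℝ) : ℂ) := by
    intro a b
    rw [sum_inner]
    push_cast
    apply Finset.sum_congr rfl
    intro μ hμ
    rw [inner_sum, Finset.sum_eq_single μ]
    · rw [inner_smul_left, inner_smul_right, inner_self_eq_norm_sq_to_K]
      simp
      ring
    · intro ν hν hne
      rw [inner_smul_left, inner_smul_right, EE_orth hs (Ne.symm hne) (hfE μ hμ) (hfE ν hν)]
      simp
    · intro h; exact absurd hμ h
  have hone : ∑ μ ∈ s, f μ = ∑ μ ∈ s, (((1 : ℝ)) : ℂ) • f μ := by simp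
  refine ⟨s, f, hsS, ?_, ?_, ?_⟩
  · rw [hsum]
    have h1 := key (fun _ => 1) (fun _ => 1)
    rw [← hone] at h1
    rw [← inner_self_eq_norm_sq (𝕜 := ℂ), h1]
    simp only [one_mul]
    exact Complex.ofReal_re _
  · rw [hsum, hK]
    have h1 := key (fun μ => μ) (fun _ => 1)
    rw [← hone] at h1
    rw [h1, Complex.ofReal_re]
    simp
  · rw [hsum, hK]
    have h1 := key (fun μ => μ) (fun μ => μ)
    have h2 : ‖∑ μ ∈ s, (μ : ℂ) • f μ‖ ^ 2 = ∑ μ ∈ s, μ * μ * ‖f μ‖ ^ 2 := by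
      rw [← inner_self_eq_norm_sq (𝕜 := ℂ), h1]
      exact Complex.ofReal_re _
    rw [h2]
    apply Finset.sum_congr rfl
    intro μ _
    ring

private theorem AA_bound {K : H →L[ℂ] H} (hs : (K : H →ₗ[ℂ] H).IsSymmetric) {S : Set ℝ}
    (σ c : ℝ) (hS : ∀ μ ∈ S, c ≤ σ * μ) {x : H} (hx : x ∈ AA K S) :
    c * ‖x‖ ^ 2 ≤ σ * (inner ℂ (K x) x).re := by
  obtain ⟨s, f, h1, h2, h3, h4⟩ := AA_expand hs hx
  rw [h2, h3, Finset.mul_sum, Finset.mul_sum]
  apply Finset.sum_le_sum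
  intro μ hμ
  have := hS μ (h1 μ hμ)
  nlinarith [sq_nonneg ‖f μ‖]

private theorem AA_lower {K : H →L[ℂ] H} (hs : (K : H →ₗ[ℂ] H).IsSymmetric) {S : Set ℝ}
    (c : ℝ) (hc : 0 ≤ c) (hS : ∀ μ ∈ S, c ≤ |μ|) {x : H} (hx : x ∈ AA K S) :
    c * ‖x‖ ≤ ‖K x‖ := by
  obtain ⟨s, f, h1, h2, h3, h4⟩ := AA_expand hs hx
  have h5 : (c * ‖x‖) ^ 2 ≤ ‖K x‖ ^ 2 := by
    rw [mul_pow, h2, h4, Finset.mul_sum]
    apply Finset.sum_le_sum
    intro μ hμ
    have h6 := hS μ (h1 μ hμ)
    have h7 : c ^ 2 ≤ μ ^ 2 := by rw [← sq_abs μ]; exact pow_le_pow_left₀ hc h6 2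
    exact mul_le_mul_of_nonneg_right h7 (sq_nonneg _)
  exact le_of_sq_le_sq h5 (norm_nonneg _)

variable [CompleteSpace H]

private theorem AA_finite {K : H →L[ℂ] H} (hK : IsCompactOperator K)
    (hs : (K : H →ₗ[ℂ] H).IsSymmetric) {S : Set ℝ}
    (c : ℝ) (hc : 0 < c) (hS : ∀ μ ∈ S, c ≤ |μ|) : FiniteDimensional ℂ (AA K S) := by
  set W := (AA K S).topologicalClosure with hW
  have hWc : IsClosed (W : Set H) := Submodule.isClosed_topologicalClosure _
  have : CompleteSpace W := hWc.completeSpace_coe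
  have hlow : ∀ x ∈ W, c * ‖x‖ ≤ ‖K x‖ := by
    have hcl : IsClosed {x : H | c * ‖x‖ ≤ ‖K x‖} :=
      isClosed_le (by fun_prop) (by fun_prop)
    have hsub : (AA K S : Set H) ⊆ {x : H | c * ‖x‖ ≤ ‖K x‖} :=
      fun x hx => AA_lower hs c hc.le hS hx
    exact fun x hx => closure_minimal hsub hcl hx
  set f : W →L[ℂ] H := K.comp W.subtypeL with hf
  have hanti : AntilipschitzWith (Real.toNNReal c⁻¹) f := by
    apply ContinuousLinearMap.antilipschitz_of_bound
    intro x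
    have h1 := hlow x x.2
    have h2 : (Real.toNNReal c⁻¹ : ℝ) = c⁻¹ := Real.coe_toNNReal _ (by positivity)
    rw [h2]
    have h3 : ‖f x‖ = ‖K x‖ := rfl
    rw [h3, inv_mul_eq_div, le_div_iff₀ hc]
    have h4 : ‖x‖ = ‖(x : H)‖ := rfl
    rw [h4]; linarith
  have hemb := hanti.isClosedEmbedding f.uniformContinuous
  obtain ⟨C, hC1, hC2⟩ := hK.image_closedBall_subset_compact 1
  have hpre : IsCompact (f ⁻¹' C) := hemb.isCompact_preimage hC1
  have hball : IsCompact (Metric.closedBall (0 : W) 1) := by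
    refine hpre.of_isClosed_subset Metric.isClosed_closedBall ?_
    intro x hx
    apply hC2
    refine ⟨x, ?_, rfl⟩
    simpa using hx
  have : FiniteDimensional ℂ W := FiniteDimensional.of_isCompact_closedBall₀ ℂ one_pos hball
  exact Submodule.finiteDimensional_of_le (Submodule.le_topologicalClosure _)

/-- the eigenspaces span a dense subspace -/
private theorem eq_zero_of_orth {K : H →L[ℂ] H} (hK : IsCompactOperator K)
    (hs : (K : H →ₗ[ℂ] H).IsSymmetric) {y : H} (hy : ∀ μ : ℝ, y ∈ (EE K μ)ᗮ) : y = 0 := by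
  have h1 := ContinuousLinearMap.orthogonalComplement_iSup_eigenspaces_eq_bot hK hs
  rw [← Submodule.mem_bot ℂ, ← h1, ← Submodule.iInf_orthogonal, Submodule.mem_iInf]
  intro μ
  by_cases hμ : HasEigenvalue (K : H →ₗ[ℂ] H) μ
  · have h2 := hs.conj_eigenvalue_eq_self hμ
    have h3 : ((μ.re : ℝ) : ℂ) = μ := Complex.conj_eq_iff_re.mp h2
    have h4 := hy μ.re
    unfold EE at h4
    rw [h3] at h4
    exact h4
  · have h2 : eigenspace (K : H →ₗ[ℂ] H) μ = ⊥ := by
      by_contra h; exact hμ h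
    rw [h2]; simp

private theorem AA_bound' {K : H →L[ℂ] H} (hK : IsCompactOperator K)
    (hs : (K : H →ₗ[ℂ] H).IsSymmetric) {S : Set ℝ}
    (σ c : ℝ) (hS : ∀ μ, μ ∉ S → c ≤ σ * μ) {x : H} (hx : x ∈ (AA K S)ᗮ) :
    c * ‖x‖ ^ 2 ≤ σ * (inner ℂ (K x) x).re := by
  have hcl : IsClosed {x : H | c * ‖x‖ ^ 2 ≤ σ * (inner ℂ (K x) x).re} := by
    apply isClosed_le (by fun_prop)
    apply Continuous.mul continuous_const
    exact Complex.continuous_re.comp (Continuous.inner K.continuous continuous_id)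
  have hsub : (AA K Sᶜ : Set H) ⊆ {x : H | c * ‖x‖ ^ 2 ≤ σ * (inner ℂ (K x) x).re} :=
    fun x hx => AA_bound hs σ c (fun μ hμ => hS μ hμ) hx
  have hmain : x ∈ (AA K Sᶜ).topologicalClosure := by
    rw [← Submodule.orthogonal_orthogonal_eq_closure]
    obtain ⟨y, hy, z, hz, rfl⟩ := (AA K Sᶜ)ᗮ.exists_add_mem_mem_orthogonal x
    have hSc : AA K S ≤ (AA K Sᶜ)ᗮ := AA_orth hs disjoint_compl_right
    have hz' : z ∈ (AA K S)ᗮ := Submodule.orthogonal_le hSc hz
    have hy' : y ∈ (AA K S)ᗮ := by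
      have := Submodule.sub_mem _ hx hz'
      simpa using this
    have hy0 : y = 0 := by
      apply eq_zero_of_orth hK hs
      intro μ
      by_cases hμ : μ ∈ S
      · exact Submodule.orthogonal_le (EE_le_AA hμ) hy'
      · exact Submodule.orthogonal_le (EE_le_AA (show μ ∈ Sᶜ from hμ)) hy
    rw [hy0, zero_add]
    exact hz
  exact closure_minimal hsub hcl hmain

private theorem EE_finite {K : H →L[ℂ] H} (hK : IsCompactOperator K) {μ : ℝ} (hμ : μ ≠ 0) :
    FiniteDimensional ℂ (EE K μ) :=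
  ContinuousLinearMap.finite_dimensional_eigenspace hK _ (by simpa using hμ)

private theorem finrank_AA_insert {K : H →L[ℂ] H} (hK : IsCompactOperator K)
    (hs : (K : H →ₗ[ℂ] H).IsSymmetric) {S : Set ℝ} {μ : ℝ} (hμ : μ ∉ S) (hμ0 : μ ≠ 0)
    (hf : FiniteDimensional ℂ (AA K S)) :
    finrank ℂ (AA K (insert μ S)) = finrank ℂ (AA K S) + finrank ℂ (EE K μ) := by
  have h1 : AA K (insert μ S) = AA K S ⊔ EE K μ := by
    apply le_antisymm
    · apply AA_le
      intro ν hν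
      rcases hν with rfl | hν
      · exact le_sup_right
      · exact (EE_le_AA hν).trans le_sup_left
    · exact sup_le (AA_mono (Set.subset_insert _ _)) (EE_le_AA (Set.mem_insert _ _))
  have := EE_finite hK hμ0
  have h2 := Submodule.finrank_sup_add_finrank_inf_eq (AA K S) (EE K μ)
  have h3 : AA K S ⊓ EE K μ = ⊥ := by
    have h4 : AA K S ⟂ AA K {μ} := AA_orth hs (by simpa using hμ)
    have h5 : Disjoint (AA K S) (EE K μ) := h4.disjoint.mono_right (EE_le_AA (Set.mem_singleton μ))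
    exact h5.eq_bot
  rw [h3, finrank_bot, add_zero] at h2
  rw [h1, h2]

section compare

variable {K V : H →L[ℂ] H} (hK : IsCompactOperator K) (hs : (K : H →ₗ[ℂ] H).IsSymmetric)
  {C : ℝ} (hC : C < 1) (hV : ∀ x, ‖V x‖ ^ 2 ≤ C * ‖x‖ ^ 2) {w : H}
  (hD : ∀ x, (inner ℂ (K (V x)) (V x)).re = - (inner ℂ (K x) x).re + ‖inner ℂ w x‖ ^ 2)

include hK hs hC hV hD

private theorem cmp1 {θ : ℝ} (hθ : 0 < θ) :
    finrank ℂ (AA K (Set.Iic (-θ))) ≤ finrank ℂ (AA K (Set.Ioi θ)) := by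
  by_contra hcon
  push Not at hcon
  have f1 : FiniteDimensional ℂ (AA K (Set.Iic (-θ))) := AA_finite hK hs θ hθ (by
    intro μ hμ; rw [Set.mem_Iic] at hμ; rw [le_abs]; right; linarith)
  have f2 : FiniteDimensional ℂ (AA K (Set.Ioi θ)) := AA_finite hK hs θ hθ (by
    intro μ hμ; rw [Set.mem_Ioi] at hμ; rw [le_abs]; left; linarith)
  set L : AA K (Set.Iic (-θ)) →ₗ[ℂ] AA K (Set.Ioi θ) :=
    ((AA K (Set.Ioi θ)).orthogonalProjectionOnto : H →ₗ[ℂ] AA K (Set.Ioi θ)) ∘ₗ (V : H →ₗ[ℂ] H) ∘ₗ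
      (AA K (Set.Iic (-θ))).subtype with hL
  have hker : LinearMap.ker L ≠ ⊥ := LinearMap.ker_ne_bot_of_finrank_lt hcon
  obtain ⟨x, hx, hx0⟩ := (Submodule.ne_bot_iff _).mp hker
  rw [LinearMap.mem_ker] at hx
  have hx1 : V x ∈ (AA K (Set.Ioi θ))ᗮ := by
    rw [← Submodule.orthogonalProjectionOnto_eq_zero_iff]
    exact hx
  have h1 := AA_bound hs (-1) θ (S := Set.Iic (-θ)) (by
    intro μ hμ; rw [Set.mem_Iic] at hμ; linarith) x.2
  have h2 := AA_bound' hK hs (-1) (-θ) (S := Set.Ioi θ) (by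
    intro μ hμ; rw [Set.mem_Ioi, not_lt] at hμ; linarith) hx1
  have h3 := hD (x : H)
  have h4 := hV (x : H)
  have h5 : 0 < ‖(x : H)‖ ^ 2 := by
    have : (x : H) ≠ 0 := by simpa using hx0
    positivity
  have h6 : 0 ≤ ‖inner ℂ w (x : H)‖ ^ 2 := by positivity
  nlinarith [mul_pos hθ (mul_pos (sub_pos.mpr hC) h5)]

private theorem cmp2 {θ : ℝ} (hθ : 0 < θ) :
    finrank ℂ (AA K (Set.Ici θ)) ≤ finrank ℂ (AA K (Set.Iio (-θ))) + 1 := by
  by_contra hcon
  push Not at hcon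
  have f1 : FiniteDimensional ℂ (AA K (Set.Ici θ)) := AA_finite hK hs θ hθ (by
    intro μ hμ; rw [Set.mem_Ici] at hμ; rw [le_abs]; left; linarith)
  have f2 : FiniteDimensional ℂ (AA K (Set.Iio (-θ))) := AA_finite hK hs θ hθ (by
    intro μ hμ; rw [Set.mem_Iio] at hμ; rw [le_abs]; right; linarith)
  set L : AA K (Set.Ici θ) →ₗ[ℂ] ℂ × AA K (Set.Iio (-θ)) :=
    LinearMap.prod ((innerSL ℂ w : H →L[ℂ] ℂ) ∘ₗ (AA K (Set.Ici θ)).subtype)
    (((AA K (Set.Iio (-θ))).orthogonalProjectionOnto : H →ₗ[ℂ] AA K (Set.Iio (-θ))) ∘ₗ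
      (V : H →ₗ[ℂ] H) ∘ₗ (AA K (Set.Ici θ)).subtype) with hL
  have hker : LinearMap.ker L ≠ ⊥ := LinearMap.ker_ne_bot_of_finrank_lt (by
    rw [Module.finrank_prod, Module.finrank_self]; omega)
  obtain ⟨x, hx, hx0⟩ := (Submodule.ne_bot_iff _).mp hker
  rw [LinearMap.mem_ker] at hx
  have hx2 : inner ℂ w (x : H) = 0 := congrArg Prod.fst hx
  have hx1 : V x ∈ (AA K (Set.Iio (-θ)))ᗮ := by
    rw [← Submodule.orthogonalProjectionOnto_eq_zero_iff]
    exact congrArg Prod.snd hx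
  have h1 := AA_bound hs 1 θ (S := Set.Ici θ) (by
    intro μ hμ; rw [Set.mem_Ici] at hμ; linarith) x.2
  have h2 := AA_bound' hK hs 1 (-θ) (S := Set.Iio (-θ)) (by
    intro μ hμ; rw [Set.mem_Iio, not_lt] at hμ; linarith) hx1
  have h3 := hD (x : H)
  have h4 := hV (x : H)
  have h5 : 0 < ‖(x : H)‖ ^ 2 := by
    have : (x : H) ≠ 0 := by simpa using hx0
    positivity
  rw [hx2] at h3
  simp only [norm_zero] at h3
  nlinarith [mul_pos hθ (mul_pos (sub_pos.mpr hC) h5)]

end compare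

section enumerate

variable {K V : H →L[ℂ] H} (hK : IsCompactOperator K) (hs : (K : H →ₗ[ℂ] H).IsSymmetric)
  {C : ℝ} (hC : C < 1) (hV : ∀ x, ‖V x‖ ^ 2 ≤ C * ‖x‖ ^ 2) {w : H}
  (hD : ∀ x, (inner ℂ (K (V x)) (V x)).re = - (inner ℂ (K x) x).re + ‖inner ℂ w x‖ ^ 2)

/-- the absolute values of the nonzero eigenvalues -/
private def Th (K : H →L[ℂ] H) : Set ℝ := {θ | 0 < θ ∧ (EE K θ ≠ ⊥ ∨ EE K (-θ) ≠ ⊥)}

/-- the number of eigenvalues of absolute value larger than `θ` -/
private noncomputable def rr (K : H →L[ℂ] H) (θ : ℝ) : ℕ :=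
  finrank ℂ (AA K (Set.Ioi θ)) + finrank ℂ (AA K (Set.Iio (-θ)))

include hK hs in
private theorem fin_Ioi {θ : ℝ} (hθ : 0 < θ) : FiniteDimensional ℂ (AA K (Set.Ioi θ)) :=
  AA_finite hK hs θ hθ (by
    intro μ hμ; rw [Set.mem_Ioi] at hμ; rw [le_abs]; left; linarith)

include hK hs in
private theorem fin_Iio {θ : ℝ} (hθ : 0 < θ) : FiniteDimensional ℂ (AA K (Set.Iio (-θ))) :=
  AA_finite hK hs θ hθ (by
    intro μ hμ; rw [Set.mem_Iio] at hμ; rw [le_abs]; right; linarith)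

include hK hs in
private theorem fr_Ici {θ : ℝ} (hθ : 0 < θ) :
    finrank ℂ (AA K (Set.Ici θ)) = finrank ℂ (AA K (Set.Ioi θ)) + finrank ℂ (EE K θ) := by
  have h := finrank_AA_insert hK hs (S := Set.Ioi θ) (μ := θ) (by simp) hθ.ne' (fin_Ioi hK hs hθ)
  rwa [Set.Ioi_insert] at h

include hK hs in
private theorem fr_Iic {θ : ℝ} (hθ : 0 < θ) :
    finrank ℂ (AA K (Set.Iic (-θ))) = finrank ℂ (AA K (Set.Iio (-θ))) + finrank ℂ (EE K (-θ)) := by
  have h := finrank_AA_insert hK hs (S := Set.Iio (-θ)) (μ := -θ) (by simp)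
    (by linarith : -θ < 0).ne (fin_Iio hK hs hθ)
  rwa [Set.Iio_insert] at h

include hK in
private theorem EE_pos {μ : ℝ} (hμ : μ ≠ 0) (h : EE K μ ≠ ⊥) : 0 < finrank ℂ (EE K μ) := by
  have := EE_finite hK hμ
  rw [Nat.pos_iff_ne_zero]
  intro h0
  exact h (Submodule.finrank_eq_zero.mp h0)

include hK hs hC hV hD in
private theorem dich {θ : ℝ} (hθ : θ ∈ Th K) :
    (EE K θ ≠ ⊥ ∧ EE K (-θ) = ⊥ ∧ finrank ℂ (EE K θ) = 1 ∧
      finrank ℂ (AA K (Set.Ioi θ)) = finrank ℂ (AA K (Set.Iio (-θ)))) ∨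
    (EE K θ = ⊥ ∧ EE K (-θ) ≠ ⊥ ∧ finrank ℂ (EE K (-θ)) = 1 ∧
      finrank ℂ (AA K (Set.Ioi θ)) = finrank ℂ (AA K (Set.Iio (-θ))) + 1) := by
  obtain ⟨h0, h1⟩ := hθ
  have h2 := cmp1 hK hs hC hV hD h0
  have h3 := cmp2 hK hs hC hV hD h0
  rw [fr_Ici hK hs h0] at h3
  rw [fr_Iic hK hs h0] at h2
  rcases h1 with h1 | h1
  · left
    have h4 := EE_pos hK h0.ne' h1
    have h5 : finrank ℂ (EE K (-θ)) = 0 := by omega
    have := EE_finite hK (by linarith : -θ < 0).ne
    exact ⟨h1, Submodule.finrank_eq_zero.mp h5, by omega, by omega⟩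
  · right
    have h4 := EE_pos hK (by linarith : -θ < 0).ne h1
    have h5 : finrank ℂ (EE K θ) = 0 := by omega
    have := EE_finite hK h0.ne'
    exact ⟨Submodule.finrank_eq_zero.mp h5, h1, by omega, by omega⟩

include hK hs hC hV hD in
private theorem ee_sum {θ : ℝ} (hθ : θ ∈ Th K) :
    finrank ℂ (EE K θ) + finrank ℂ (EE K (-θ)) = 1 := by
  rcases dich hK hs hC hV hD hθ with h | h
  · rw [h.2.1, finrank_bot, h.2.2.1]
  · rw [h.1, finrank_bot, h.2.2.1]

include hK hs hC hV hD in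
private theorem rr_lt {θ θ' : ℝ} (h0 : 0 < θ) (h : θ < θ') (h' : θ' ∈ Th K) :
    rr K θ' + 1 ≤ rr K θ := by
  have h1 := fin_Ioi hK hs h0
  have h2 := fin_Iio hK hs h0
  have h3 := Submodule.finrank_mono (AA_mono (K := K) (S := Set.Ici θ') (T := Set.Ioi θ)
    (fun x hx => lt_of_lt_of_le h hx))
  have h4 := Submodule.finrank_mono (AA_mono (K := K) (S := Set.Iic (-θ')) (T := Set.Iio (-θ))
    (fun x hx => show x < -θ by have h5 : x ≤ -θ' := hx; linarith))
  rw [fr_Ici hK hs h'.1] at h3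
  rw [fr_Iic hK hs h'.1] at h4
  have h5 := ee_sum hK hs hC hV hD h'
  unfold rr
  omega

include hK hs hC hV hD in
private theorem rr_step {θ θ' : ℝ} (h0 : 0 < θ) (h : θ < θ') (h' : θ' ∈ Th K)
    (hno : ∀ θ'' ∈ Th K, θ < θ'' → θ' ≤ θ'') : rr K θ ≤ rr K θ' + 1 := by
  have e1 : FiniteDimensional ℂ (AA K (Set.Ici θ')) := AA_finite hK hs θ' h'.1 (by
    intro μ hμ; rw [Set.mem_Ici] at hμ; rw [le_abs]; left; linarith)
  have e2 : FiniteDimensional ℂ (AA K (Set.Iic (-θ'))) := AA_finite hK hs θ' h'.1 (by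
    intro μ hμ; rw [Set.mem_Iic] at hμ; rw [le_abs]; right; linarith)
  have h3 : AA K (Set.Ioi θ) ≤ AA K (Set.Ici θ') := by
    apply AA_le
    intro μ hμ
    rw [Set.mem_Ioi] at hμ
    by_cases hb : EE K μ = ⊥
    · rw [hb]; exact bot_le
    · exact EE_le_AA (hno μ ⟨h0.trans hμ, Or.inl hb⟩ hμ)
  have h4 : AA K (Set.Iio (-θ)) ≤ AA K (Set.Iic (-θ')) := by
    apply AA_le
    intro μ hμ
    rw [Set.mem_Iio] at hμ
    by_cases hb : EE K μ = ⊥
    · rw [hb]; exact bot_le
    · have h5 := hno (-μ) ⟨by linarith, Or.inr (by rwa [neg_neg])⟩ (by linarith)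
      exact EE_le_AA (show μ ≤ -θ' by linarith)
  have h5 := Submodule.finrank_mono h3
  have h6 := Submodule.finrank_mono h4
  rw [fr_Ici hK hs h'.1] at h5
  rw [fr_Iic hK hs h'.1] at h6
  have h7 := ee_sum hK hs hC hV hD h'
  unfold rr
  omega

private theorem rr_zero {θ : ℝ} (h0 : 0 < θ) (hno : ∀ θ'' ∈ Th K, ¬ θ < θ'') : rr K θ = 0 := by
  have h3 : AA K (Set.Ioi θ) = ⊥ := by
    rw [eq_bot_iff]
    apply AA_le
    intro μ hμ
    rw [Set.mem_Ioi] at hμ
    by_contra hb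
    exact hno μ ⟨h0.trans hμ, Or.inl fun h => hb h.le⟩ hμ
  have h4 : AA K (Set.Iio (-θ)) = ⊥ := by
    rw [eq_bot_iff]
    apply AA_le
    intro μ hμ
    rw [Set.mem_Iio] at hμ
    by_contra hb
    exact hno (-μ) ⟨by linarith, Or.inr (by rw [neg_neg]; exact fun h => hb h.le)⟩ (by linarith)
  unfold rr
  rw [h3, h4, finrank_bot]

include hK hs hC hV hD in
private theorem rr_surj_aux (j : ℕ) : ∀ n : ℕ, ∀ θ ∈ Th K, rr K θ = n + j →
    ∃ θ' ∈ Th K, rr K θ' = j := by
  intro n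
  induction n with
  | zero => intro θ hθ h; exact ⟨θ, hθ, by omega⟩
  | succ n ih =>
    intro θ hθ h
    have hex : ∃ θ' ∈ Th K, θ < θ' := by
      by_contra hcon
      push Not at hcon
      have := rr_zero (K := K) hθ.1 (fun θ'' h'' => not_lt.mpr (hcon θ'' h''))
      omega
    obtain ⟨θ', h', hlt⟩ := hex
    set T : Set ℕ := {m | ∃ t ∈ Th K, θ < t ∧ rr K t = m} with hT
    have hTne : T.Nonempty := ⟨_, θ', h', hlt, rfl⟩
    have hTb : BddAbove T := by
      refine ⟨rr K θ, ?_⟩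
      rintro m ⟨t, ht, hlt, rfl⟩
      have := rr_lt hK hs hC hV hD hθ.1 hlt ht
      omega
    obtain ⟨t, ht, hθt, htm⟩ := Nat.sSup_mem hTne hTb
    have hno : ∀ θ'' ∈ Th K, θ < θ'' → t ≤ θ'' := by
      intro θ'' h'' hlt''
      by_contra hc
      push Not at hc
      have h1 := rr_lt hK hs hC hV hD h''.1 hc ht
      have h2 : rr K θ'' ≤ sSup T := le_csSup hTb ⟨θ'', h'', hlt'', rfl⟩
      omega
    have h1 := rr_step hK hs hC hV hD hθ.1 hθt ht hno
    have h2 := rr_lt hK hs hC hV hD hθ.1 hθt ht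
    exact ih t ht (by omega)

include hK hs in
private theorem Th_infinite (hinj : ∀ x, K x = 0 → x = 0) (hinf : ¬ FiniteDimensional ℂ H) :
    (Th K).Infinite := by
  intro hfin
  apply hinf
  set P : Set ℝ := Th K ∪ (fun x => -x) '' Th K with hP
  have hPf : P.Finite := hfin.union (hfin.image _)
  have : Finite P := hPf
  have hP0 : ∀ μ ∈ P, μ ≠ 0 := by
    rintro μ (h | ⟨ν, h, rfl⟩)
    · exact h.1.ne'
    · have := h.1; simpa using this.ne'
  have : ∀ i : P, FiniteDimensional ℂ (EE K i) := fun i => EE_finite hK (hP0 i i.2)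
  have hfd : FiniteDimensional ℂ (AA K P) := by
    unfold AA
    exact Submodule.finiteDimensional_iSup _
  have hbot : (AA K P)ᗮ = ⊥ := by
    rw [eq_bot_iff]
    intro y hy
    rw [Submodule.mem_bot]
    apply eq_zero_of_orth hK hs
    intro μ
    by_cases hb : EE K μ = ⊥
    · rw [hb]; simp
    · apply Submodule.orthogonal_le (EE_le_AA _) hy
      rcases lt_trichotomy μ 0 with h | h | h
      · right; exact ⟨-μ, ⟨by linarith, Or.inr (by rwa [neg_neg])⟩, by simp⟩
      · exfalso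
        apply hb
        rw [eq_bot_iff]
        intro x hx
        rw [mem_EE, h] at hx
        rw [Submodule.mem_bot]
        exact hinj x (by simpa using hx)
      · left; exact ⟨h, Or.inl hb⟩
  rw [Submodule.orthogonal_eq_bot_iff] at hbot
  rw [hbot] at hfd
  exact (Submodule.topEquiv : (⊤ : Submodule ℂ H) ≃ₗ[ℂ] H).finiteDimensional

end enumerate

end spectral

theorem alternation {H : Type*} [NormedAddCommGroup H] [InnerProductSpace ℂ H] [CompleteSpace H]
    (K V : H →L[ℂ] H) (hK : IsCompactOperator K) (hs : (K : H →ₗ[ℂ] H).IsSymmetric)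
    (hinj : ∀ x, K x = 0 → x = 0) (hinf : ¬ FiniteDimensional ℂ H)
    (C : ℝ) (hC0 : 0 ≤ C) (hC : C < 1) (hV : ∀ x, ‖V x‖ ^ 2 ≤ C * ‖x‖ ^ 2) (w : H)
    (hD : ∀ x, (inner ℂ (K (V x)) (V x)).re = - (inner ℂ (K x) x).re + ‖inner ℂ w x‖ ^ 2) :
    ∃ l : ℕ → ℝ, (∀ j, 0 < (-1) ^ j * l j) ∧ (∀ j, |l (j + 1)| < |l j|) ∧
      (∀ μ : ℂ, μ ≠ 0 → (HasEigenvalue (K : H →ₗ[ℂ] H) μ ↔ ∃ j, μ = (l j : ℂ))) ∧
      ∀ j, finrank ℂ (eigenspace (K : H →ₗ[ℂ] H) (l j : ℂ)) = 1 := by
  classical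
  have hanti : ∀ θ ∈ Th K, ∀ θ' ∈ Th K, θ < θ' → rr K θ' < rr K θ :=
    fun θ h θ' h' hlt => rr_lt hK hs hC hV hD h.1 hlt h'
  have hinjr : Set.InjOn (rr K) (Th K) := by
    intro θ h θ' h' he
    rcases lt_trichotomy θ θ' with hlt | hlt | hlt
    · have := hanti θ h θ' h' hlt; omega
    · exact hlt
    · have := hanti θ' h' θ h hlt; omega
  have hunb : ∀ j, ∃ θ ∈ Th K, j ≤ rr K θ := by
    intro j
    by_contra hcon
    push Not at hcon
    exact Th_infinite hK hs hinj hinf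
      (Set.Finite.of_injOn (t := Set.Iio j) (fun θ h => hcon θ h) hinjr (Set.finite_Iio j))
  have hsurj : ∀ j, ∃ θ ∈ Th K, rr K θ = j := by
    intro j
    obtain ⟨θ, h, hj⟩ := hunb j
    exact rr_surj_aux hK hs hC hV hD j (rr K θ - j) θ h (by omega)
  choose θ hθ hr using hsurj
  refine ⟨fun j => if EE K (θ j) ≠ ⊥ then θ j else - θ j, ?_, ?_, ?_, ?_⟩
  · intro j
    have h0 := (hθ j).1
    have h1 := hr j
    unfold rr at h1
    rcases dich hK hs hC hV hD (hθ j) with h | h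
    · simp only [if_pos h.1]
      have : Even j := ⟨finrank ℂ (AA K (Set.Iio (-(θ j)))), by omega⟩
      rw [this.neg_one_pow]; linarith
    · have h2 : ¬ (EE K (θ j) ≠ ⊥) := by simp [h.1]
      simp only [if_neg h2]
      have : Odd j := ⟨finrank ℂ (AA K (Set.Iio (-(θ j)))), by omega⟩
      rw [this.neg_one_pow]; linarith
  · intro j
    have habs : ∀ i, |if EE K (θ i) ≠ ⊥ then θ i else - θ i| = θ i := by
      intro i
      split_ifs
      · exact abs_of_pos (hθ i).1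
      · rw [abs_neg]; exact abs_of_pos (hθ i).1
    simp only [habs]
    by_contra hcon
    push Not at hcon
    rcases hcon.lt_or_eq with h | h
    · have := hanti _ (hθ j) _ (hθ (j + 1)) h
      rw [hr, hr] at this
      omega
    · have h1 := hr (j + 1)
      rw [← h, hr j] at h1
      omega
  · intro μ hμ
    constructor
    · intro hev
      have h2 := hs.conj_eigenvalue_eq_self hev
      obtain ⟨x, hx⟩ : ∃ x : ℝ, (x : ℂ) = μ := ⟨μ.re, Complex.conj_eq_iff_re.mp h2⟩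
      subst hx
      have hne : EE K x ≠ ⊥ := hev
      have hx0 : x ≠ 0 := by simpa using hμ
      have hmem : |x| ∈ Th K := by
        refine ⟨abs_pos.mpr hx0, ?_⟩
        rcases abs_choice x with h | h
        · left; rwa [h]
        · right; rw [h, neg_neg]; exact hne
      refine ⟨rr K |x|, ?_⟩
      have hth : θ (rr K |x|) = |x| := hinjr (hθ _) hmem (hr _)
      simp only [hth]
      congr 1
      rcases dich hK hs hC hV hD hmem with h | h
      · rw [if_pos h.1]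
        rcases abs_choice x with h3 | h3
        · exact h3.symm
        · exfalso
          have := h.2.1
          rw [h3, neg_neg] at this
          exact hne this
      · rw [if_neg (by simp [h.1])]
        rcases abs_choice x with h3 | h3
        · exfalso
          have := h.1
          rw [h3] at this
          exact hne this
        · rw [h3, neg_neg]
    · rintro ⟨j, rfl⟩
      show EE K (if EE K (θ j) ≠ ⊥ then θ j else - θ j) ≠ ⊥
      rcases dich hK hs hC hV hD (hθ j) with h | h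
      · rw [if_pos h.1]; exact h.1
      · rw [if_neg (by simp [h.1])]; exact h.2.1
  · intro j
    show finrank ℂ (EE K (if EE K (θ j) ≠ ⊥ then θ j else - θ j)) = 1
    rcases dich hK hs hC hV hD (hθ j) with h | h
    · rw [if_pos h.1]; exact h.2.2.1
    · rw [if_neg (by simp [h.1])]; exact h.2.2.1

end Pool.Agent.Lib.MP_9ff751_an
end
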