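import Pool.Agent.Lib.MP_9ff751_an.XDef
import Pool.Agent.Lib.MP_9ff751_an.Link
import Pool.Agent.Lib.MP_9ff751_an.Spectral

section

/-!
The coefficients `b_n` of the expansion in the golden coordinate
`u = (z - (phi - 1)) / (z + phi)`.
-/

namespace Pool.Agent.Lib.MP_9ff751_an

open Set

theorem one_sub_ne_zero_of_norm {u : ℂ} (hu : ‖u‖ ≤ 2 / 5) : (1 : ℂ) - u ≠ 0 := by
  intro h
  have : u = 1 := by linear_combination -h
  rw [this, norm_one] at hu
  norm_num at hu

theorem wU_sub_one {u : ℂ} (hu : ‖u‖ ≤ 2 / 5) :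
    wU u - 1 = (-(qq : ℂ) + (phi : ℂ) ^ 2 * u) / (1 - u) := by
  have h1 := one_sub_ne_zero_of_norm hu
  have h2 : (phi : ℂ) ^ 2 = phi + 1 := by exact_mod_cast phi_sq
  have h3 : (qq : ℂ) = 2 - phi := by unfold qq; push_cast; ring
  unfold wU
  rw [h2, h3]
  field_simp
  push_cast
  ring

theorem wU_add_phi {u : ℂ} (hu : ‖u‖ ≤ 2 / 5) : wU u + phi = (s5 : ℂ) / (1 - u) := by
  have h1 := one_sub_ne_zero_of_norm hu
  have h3 : (s5 : ℂ) = 2 * phi - 1 := by unfold s5; push_cast; ring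
  unfold wU
  rw [h3]
  field_simp
  push_cast
  ring

theorem wU_mem_ball {u : ℂ} (hu : ‖u‖ ≤ 2 / 5) : wU u ∈ Metric.ball (1 : ℂ) (3 / 2) := by
  have h1 := one_sub_ne_zero_of_norm hu
  rw [Metric.mem_ball, dist_eq_norm, wU_sub_one hu, norm_div,
    div_lt_iff₀ (norm_pos_iff.2 h1)]
  have hsq : ‖-(qq : ℂ) + (phi : ℂ) ^ 2 * u‖ ^ 2 < (3 / 2 * ‖1 - u‖) ^ 2 := by
    have hr : u.re ^ 2 + u.im ^ 2 ≤ 4 / 25 := by
      have h2 : ‖u‖ ^ 2 ≤ (2 / 5) ^ 2 := pow_le_pow_left₀ (norm_nonneg _) hu 2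
      rw [← Complex.normSq_eq_norm_sq, Complex.normSq_apply] at h2
      nlinarith
    have ha : u.re ≤ 2 / 5 := (Complex.re_le_norm u).trans hu
    rw [mul_pow, ← Complex.normSq_eq_norm_sq, ← Complex.normSq_eq_norm_sq,
      Complex.normSq_apply, Complex.normSq_apply]
    have e1 : (-(qq : ℂ) + (phi : ℂ) ^ 2 * u).re = -qq + phi ^ 2 * u.re := by
      rw [← Complex.ofReal_pow, Complex.add_re, Complex.neg_re, Complex.ofReal_re,
        Complex.re_ofReal_mul]
    have e2 : (-(qq : ℂ) + (phi : ℂ) ^ 2 * u).im = phi ^ 2 * u.im := by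
      rw [← Complex.ofReal_pow, Complex.add_im, Complex.neg_im, Complex.ofReal_im,
        Complex.im_ofReal_mul]
      ring
    rw [e1, e2, Complex.sub_re, Complex.sub_im, Complex.one_re, Complex.one_im]
    have hp4 : phi ^ 4 = 3 * phi + 2 := by nlinarith [phi_sq]
    have hq2 : qq ^ 2 < 0.146 := by nlinarith [qq_lt, qq_pos]
    have hqm := qq_mul
    have hlt := phi_lt
    have expand : (-qq + phi ^ 2 * u.re) * (-qq + phi ^ 2 * u.re) +
        phi ^ 2 * u.im * (phi ^ 2 * u.im) = qq ^ 2 - 2 * (qq * phi ^ 2) * u.re +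
        phi ^ 4 * (u.re ^ 2 + u.im ^ 2) := by ring
    rw [expand, hqm, hp4]
    have h5 : (3 * phi + 2 - 9 / 4) * (u.re ^ 2 + u.im ^ 2) ≤ (3 * phi + 2 - 9 / 4) * (4 / 25) :=
      mul_le_mul_of_nonneg_left hr (by linarith [phi_gt])
    nlinarith
  exact lt_of_pow_lt_pow_left₀ 2 (by positivity) hsq

/-- the function expanded in powers of `u` -/
noncomputable def Fb (f : X) (u : ℂ) : ℂ := (wU u + phi) ^ 4 * ext (f : C(Dbar, ℂ)) (wU u)

theorem differentiableOn_Fb (f : X) : DifferentiableOn ℂ (Fb f) (Metric.closedBall 0 (2 / 5)) := by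
  have hmem : ∀ u ∈ Metric.closedBall (0 : ℂ) (2 / 5), ‖u‖ ≤ 2 / 5 := by
    intro u hu
    simpa using hu
  have hw : DifferentiableOn ℂ wU (Metric.closedBall 0 (2 / 5)) := by
    unfold wU
    apply DifferentiableOn.fun_div
    · exact (differentiableOn_const _).fun_add ((differentiableOn_const _).fun_mul differentiableOn_id)
    · exact (differentiableOn_const _).fun_sub differentiableOn_id
    · intro u hu
      exact one_sub_ne_zero_of_norm (hmem u hu)
  unfold Fb
  apply DifferentiableOn.fun_mul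
  · exact (hw.fun_add (differentiableOn_const _)).fun_pow 4
  · have hf : DifferentiableOn ℂ (ext (f : C(Dbar, ℂ))) (Metric.ball (1 : ℂ) (3 / 2)) := f.2
    exact hf.comp hw fun u hu => wU_mem_ball (hmem u hu)

theorem norm_Fb_le (f : X) {u : ℂ} (hu : ‖u‖ ≤ 2 / 5) : ‖Fb f u‖ ≤ 200 * ‖f‖ := by
  unfold Fb
  rw [norm_mul, norm_pow, wU_add_phi hu]
  have h1 := one_sub_ne_zero_of_norm hu
  have h2 : (3 / 5 : ℝ) ≤ ‖1 - u‖ := by
    have := norm_sub_norm_le (1 : ℂ) u
    rw [norm_one] at this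
    linarith
  have h3 : ‖(s5 : ℂ) / (1 - u)‖ ≤ 2.2362 / (3 / 5) := by
    rw [norm_div, Complex.norm_real, Real.norm_eq_abs, abs_of_pos s5_pos]
    apply div_le_div₀ (by norm_num) _ (by norm_num) h2
    unfold s5
    linarith [phi_lt]
  refine mul_le_mul ?_ (norm_ext_le _ _) (norm_nonneg _) (by norm_num)
  calc ‖(s5 : ℂ) / (1 - u)‖ ^ 4 ≤ (2.2362 / (3 / 5)) ^ 4 := pow_le_pow_left₀ (norm_nonneg _) h3 4
    _ ≤ 200 := by norm_num

theorem circleIntegrable_b (f : X) (n : ℕ) :
    CircleIntegrable (fun z => (z - 0)⁻¹ ^ n • (z - 0)⁻¹ • Fb f z) 0 (2 / 5) := by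
  apply ContinuousOn.circleIntegrable (by norm_num)
  have hne : ∀ z ∈ Metric.sphere (0 : ℂ) (2 / 5), z - 0 ≠ 0 := by
    intro z hz h
    rw [sub_zero] at h
    rw [h] at hz
    norm_num at hz
  have hinv : ContinuousOn (fun z : ℂ => (z - 0)⁻¹) (Metric.sphere 0 (2 / 5)) :=
    (continuousOn_id.sub continuousOn_const).inv₀ hne
  exact (hinv.pow n).smul (hinv.smul
    ((differentiableOn_Fb f).continuousOn.mono Metric.sphere_subset_closedBall))

/-- the `n`-th coefficient -/
noncomputable def bval (n : ℕ) (f : X) : ℂ :=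
  (2 * Real.pi * Complex.I : ℂ)⁻¹ • ∮ z in C(0, 2 / 5), (z - 0)⁻¹ ^ n • (z - 0)⁻¹ • Fb f z

theorem bval_eq (n : ℕ) (f : X) :
    bval n f = (cauchyPowerSeries (Fb f) 0 (2 / 5) n) (fun _ => 1) := by
  simp [bval, cauchyPowerSeries]

theorem norm_bval_le (n : ℕ) (f : X) : ‖bval n f‖ ≤ 200 * (5 / 2) ^ n * ‖f‖ := by
  rw [bval_eq]
  have h1 := norm_cauchyPowerSeries_le (Fb f) 0 (2 / 5) n
  have h2 : ∫ θ : ℝ in (0 : ℝ)..2 * Real.pi, ‖Fb f (circleMap 0 (2 / 5) θ)‖ ≤
      200 * ‖f‖ * (2 * Real.pi) := by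
    have h3 := intervalIntegral.norm_integral_le_of_norm_le_const
      (a := 0) (b := 2 * Real.pi) (C := 200 * ‖f‖)
      (f := fun θ => ‖Fb f (circleMap 0 (2 / 5) θ)‖) (by
        intro θ _
        rw [norm_norm]
        apply norm_Fb_le
        rw [norm_circleMap_zero]
        norm_num)
    rw [sub_zero, abs_of_pos (by positivity : (0 : ℝ) < 2 * Real.pi)] at h3
    exact (Real.le_norm_self _).trans h3
  have h4 : ‖(cauchyPowerSeries (Fb f) 0 (2 / 5) n) (fun _ => 1)‖ ≤
      ‖cauchyPowerSeries (Fb f) 0 (2 / 5) n‖ := by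
    have := (cauchyPowerSeries (Fb f) 0 (2 / 5) n).le_opNorm (fun _ => 1)
    rwa [Finset.prod_congr rfl (fun _ _ => norm_one), Finset.prod_const_one, mul_one] at this
  refine h4.trans (h1.trans ?_)
  have h5 : |(2 / 5 : ℝ)|⁻¹ ^ n = (5 / 2) ^ n := by
    rw [abs_of_pos (by norm_num)]
    norm_num
  rw [h5]
  have h6 : (2 * Real.pi)⁻¹ * (200 * ‖f‖ * (2 * Real.pi)) = 200 * ‖f‖ := by
    have h : (2 * Real.pi) ≠ 0 := mul_ne_zero two_ne_zero Real.pi_ne_zero
    rw [mul_comm (200 * ‖f‖), ← mul_assoc, inv_mul_cancel₀ h, one_mul]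
  have h7 := mul_le_mul_of_nonneg_left h2 (by positivity : 0 ≤ (2 * Real.pi)⁻¹)
  rw [h6] at h7
  have h8 := mul_le_mul_of_nonneg_right h7 (by positivity : (0 : ℝ) ≤ (5 / 2) ^ n)
  refine h8.trans (le_of_eq ?_)
  ring

theorem bval_add (n : ℕ) (f g : X) : bval n (f + g) = bval n f + bval n g := by
  unfold bval
  rw [← smul_add, ← circleIntegral.integral_add (circleIntegrable_b f n) (circleIntegrable_b g n)]
  congr 2
  funext z
  have : Fb (f + g) z = Fb f z + Fb g z := by
    unfold Fb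
    rw [Submodule.coe_add, ext_add]
    ring
  rw [this]
  simp only [smul_add]

theorem bval_smul (n : ℕ) (c : ℂ) (f : X) : bval n (c • f) = c • bval n f := by
  unfold bval
  have h : (fun z : ℂ => (z - 0)⁻¹ ^ n • (z - 0)⁻¹ • Fb (c • f) z) =
      fun z => c • ((z - 0)⁻¹ ^ n • (z - 0)⁻¹ • Fb f z) := by
    funext z
    have : Fb (c • f) z = c * Fb f z := by
      unfold Fb
      rw [Submodule.coe_smul, ext_smul]
      ring
    rw [this]
    simp only [smul_eq_mul]
    ring
  rw [h, circleIntegral.integral_smul, smul_comm]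

/-- the coefficients of `(w + phi)^4 f(w)` as a power series in `u` -/
theorem exists_b : ∃ b : ℕ → X →L[ℂ] ℂ,
    (∃ A : ℝ, ∀ n, ‖b n‖ ≤ A * (5 / 2) ^ n) ∧
    ∀ (f : X) (u : ℂ), ‖u‖ < 2 / 5 →
      HasSum (fun n => b n f * u ^ n) ((wU u + phi) ^ 4 * ext (f : C(Dbar, ℂ)) (wU u)) := by
  let L : ℕ → X →ₗ[ℂ] ℂ := fun n =>
    { toFun := bval n
      map_add' := bval_add n
      map_smul' := fun c f => by simpa using bval_smul n c f }
  refine ⟨fun n => (L n).mkContinuous (200 * (5 / 2) ^ n) (norm_bval_le n), ⟨200, fun n => ?_⟩, ?_⟩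
  · exact LinearMap.mkContinuous_norm_le _ (by positivity) _
  · intro f u hu
    have hd : DifferentiableOn ℂ (Fb f)
        (Metric.closedBall 0 (((2 / 5 : NNReal) : NNReal) : ℝ)) := by
      have := differentiableOn_Fb f
      simpa using this
    have h := hd.hasFPowerSeriesOnBall (by norm_num)
    have hs := h.hasSum (y := u) (by
      rw [Metric.mem_eball, edist_zero_right]
      rw [← ofReal_norm]
      rw [show ((2 / 5 : NNReal) : ENNReal) = ENNReal.ofReal (2 / 5) by
        rw [ENNReal.ofReal, Real.toNNReal_div (by norm_num)]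
        simp]
      exact (ENNReal.ofReal_lt_ofReal_iff (by norm_num)).2 hu)
    rw [zero_add] at hs
    change HasSum (fun n => bval n f * u ^ n) (Fb f u)
    have he : (fun n => bval n f * u ^ n) = fun n =>
        (cauchyPowerSeries (Fb f) 0 ((2 / 5 : NNReal) : ℝ) n) fun _ => u := by
      funext n
      rw [FormalMultilinearSeries.apply_eq_pow_smul_coeff, smul_eq_mul, mul_comm, bval_eq]
      rw [show (((2 / 5 : NNReal) : ℝ)) = 2 / 5 by norm_num]
      rfl
    rw [he]
    exact hs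

end Pool.Agent.Lib.MP_9ff751_an
end

section

/-!
The functions `W_n` and the expansion of `G_4`.
-/

namespace Pool.Agent.Lib.MP_9ff751_an

open Set

namespace ExpandAux

theorem re_ge {z : ℂ} (hz : z ∈ Dbar) : -(1 / 2) ≤ z.re := by
  have h1 : ‖z - 1‖ ≤ 3 / 2 := by
    have := Metric.mem_closedBall.mp hz
    rwa [dist_eq_norm] at this
  have h2 := (abs_le.mp ((Complex.abs_re_le_norm (z - 1)).trans h1)).1
  rw [Complex.sub_re, Complex.one_re] at h2
  linarith

theorem re_ge' {z : ℂ} (hz : z ∈ Dbar) (k : ℕ) : -(1 / 2) ≤ (z + k).re := by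
  have := re_ge hz
  have h2 : (0 : ℝ) ≤ k := Nat.cast_nonneg k
  rw [Complex.add_re, Complex.natCast_re]
  linarith

theorem norm_num_le {y : ℂ} (hy : -(1 / 2) ≤ y.re) : ‖y - (phi - 1 : ℝ)‖ ≤ ‖y + phi‖ := by
  have h := phi_gt
  rw [← sq_le_sq₀ (norm_nonneg _) (norm_nonneg _), ← Complex.normSq_eq_norm_sq,
    ← Complex.normSq_eq_norm_sq, Complex.normSq_apply, Complex.normSq_apply]
  simp only [Complex.sub_re, Complex.add_re, Complex.sub_im, Complex.add_im, Complex.ofReal_re,
    Complex.ofReal_im]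
  nlinarith

theorem le_norm_den {y : ℂ} (hy : -(1 / 2) ≤ y.re) : 1 ≤ ‖y + phi‖ := by
  have h := phi_gt
  have h1 := (Complex.re_le_norm (y + phi))
  rw [Complex.add_re, Complex.ofReal_re] at h1
  linarith

theorem le_norm_den' {z : ℂ} (hz : -(1 / 2) ≤ z.re) (k : ℕ) : (k : ℝ) + 1 ≤ ‖z + k + phi‖ := by
  have h := phi_gt
  have h1 := (Complex.re_le_norm (z + k + phi))
  rw [Complex.add_re, Complex.ofReal_re, Complex.add_re, Complex.natCast_re] at h1
  linarith

theorem den_ne {y : ℂ} (hy : -(1 / 2) ≤ y.re) : y + phi ≠ 0 := by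
  have := le_norm_den hy
  intro h
  rw [h, norm_zero] at this
  linarith

theorem one_add_ne {y : ℂ} (hy : -(1 / 2) ≤ y.re) : 1 + y ≠ 0 := by
  intro h
  have h1 := congrArg Complex.re h
  rw [Complex.add_re, Complex.one_re, Complex.zero_re] at h1
  linarith

theorem term_le {z : ℂ} (hz : -(1 / 2) ≤ z.re) (n k : ℕ) :
    ‖(z + k - (phi - 1 : ℝ)) ^ n / (z + k + phi) ^ (n + 4)‖ ≤ 1 / ((k : ℝ) + 1) ^ 4 := by
  have hk : -(1 / 2) ≤ (z + k).re := by
    have h2 : (0 : ℝ) ≤ k := Nat.cast_nonneg k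
    rw [Complex.add_re, Complex.natCast_re]
    linarith
  have h1 := norm_num_le hk
  have h2 := le_norm_den' hz k
  have h3 : 0 < ‖z + k + phi‖ := by
    have : (0 : ℝ) ≤ k := Nat.cast_nonneg k
    linarith
  have hk1 : (0 : ℝ) < (k : ℝ) + 1 := by positivity
  rw [norm_div, norm_pow, norm_pow]
  calc ‖z + k - (phi - 1 : ℝ)‖ ^ n / ‖z + k + phi‖ ^ (n + 4)
      ≤ ‖z + k + phi‖ ^ n / ‖z + k + phi‖ ^ (n + 4) :=
        div_le_div_of_nonneg_right (pow_le_pow_left₀ (norm_nonneg _) h1 n) (by positivity)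
    _ = 1 / ‖z + k + phi‖ ^ 4 := by
        rw [pow_add]
        field_simp
    _ ≤ 1 / ((k : ℝ) + 1) ^ 4 :=
        one_div_le_one_div_of_le (by positivity) (pow_le_pow_left₀ hk1.le h2 4)

theorem summable_four : Summable fun k : ℕ => 1 / ((k : ℝ) + 1) ^ 4 := by
  have h := (summable_nat_add_iff (f := fun n : ℕ => 1 / (n : ℝ) ^ 4) 1).mpr
    (Real.summable_one_div_nat_pow.mpr (by norm_num))
  simpa using h

theorem ball_sub {z : ℂ} (hz : z ∈ Metric.ball (1 : ℂ) (3 / 2)) : z ∈ Dbar :=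
  Metric.ball_subset_closedBall hz

theorem ne_pow {z : ℂ} (hz : z ∈ Dbar) (k m : ℕ) : (z + k + phi) ^ m ≠ 0 :=
  pow_ne_zero _ (den_ne (re_ge' hz k))

/-- the golden coordinate -/
theorem wU_eq {y : ℂ} (hy : -(1 / 2) ≤ y.re) :
    wU (-(qq : ℂ) * ((y - (phi - 1 : ℝ)) / (y + phi))) = 1 / (1 + y) := by
  have h1 := den_ne hy
  have h2 := one_add_ne hy
  have hsq : (phi : ℂ) ^ 2 = phi + 1 := by exact_mod_cast phi_sq
  have h3 : (3 : ℂ) - phi ≠ 0 := by
    have : (3 : ℝ) - phi ≠ 0 := by have := phi_lt; linarith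
    exact_mod_cast this
  have hq : (qq : ℂ) = 2 - phi := by
    unfold qq; push_cast; ring
  have hden : 1 - -(qq : ℂ) * ((y - (phi - 1 : ℝ)) / (y + phi)) =
      (3 - phi) * (1 + y) / (y + phi) := by
    rw [hq]
    field_simp
    push_cast
    linear_combination hsq
  have hnum : ((phi - 1 : ℝ) : ℂ) + phi * (-(qq : ℂ) * ((y - (phi - 1 : ℝ)) / (y + phi))) =
      (3 - phi) / (y + phi) := by
    rw [hq]
    field_simp
    push_cast
    linear_combination (y - phi + 3) * hsq
  unfold wU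
  rw [hden, hnum]
  field_simp

theorem wU_add {y : ℂ} (hy : -(1 / 2) ≤ y.re) :
    wU (-(qq : ℂ) * ((y - (phi - 1 : ℝ)) / (y + phi))) + phi = phi * (y + phi) / (1 + y) := by
  rw [wU_eq hy]
  have h2 := one_add_ne hy
  have hsq : (phi : ℂ) ^ 2 = phi + 1 := by exact_mod_cast phi_sq
  field_simp
  linear_combination (-1 : ℂ) * hsq

end ExpandAux

open ExpandAux

theorem exists_W : ∃ W : ℕ → X, (∃ B : ℝ, ∀ n, ‖W n‖ ≤ B) ∧
    ∀ n, ∀ z ∈ Dbar, ext (W n : C(Dbar, ℂ)) z = Wf n z := by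
  have h : ∀ n : ℕ, ∃ f : X, ∀ z ∈ Dbar, ext (f : C(Dbar, ℂ)) z = Wf n z := by
    intro n
    apply exists_mk
    · unfold Wf
      apply continuousOn_tsum (u := fun k : ℕ => 1 / ((k : ℝ) + 1) ^ 4)
      · intro k
        apply ContinuousOn.div (by fun_prop) (by fun_prop)
        intro z hz
        exact ne_pow hz k _
      · exact summable_four
      · intro k z hz
        exact term_le (re_ge hz) n k
    · unfold Wf
      apply Complex.differentiableOn_tsum_of_summable_norm (u := fun k : ℕ => 1 / ((k : ℝ) + 1) ^ 4)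
      · exact summable_four
      · intro k
        apply DifferentiableOn.div (by fun_prop) (by fun_prop)
        intro z hz
        exact ne_pow (ball_sub hz) k _
      · exact Metric.isOpen_ball
      · intro k z hz
        exact term_le (re_ge (ball_sub hz)) n k
  choose W hW using h
  refine ⟨W, ⟨∑' k : ℕ, 1 / ((k : ℝ) + 1) ^ 4, fun n => ?_⟩, hW⟩
  apply norm_X_le _ _ (tsum_nonneg fun k => by positivity)
  intro z hz
  rw [hW n z hz]
  unfold Wf
  refine tsum_of_norm_bounded summable_four.hasSum fun k => term_le (re_ge hz) n k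

/-- the expansion of the operator `G_4` -/
theorem expand (G : X →L[ℂ] X) (hG : ∀ (f : X), ∀ z ∈ Dbar,
      HasSum (fun k : ℕ => 1 / ((k : ℂ) + 1 + z) ^ 4 *
        ext (f : C(Dbar, ℂ)) (1 / ((k : ℂ) + 1 + z))) (ext (G f : C(Dbar, ℂ)) z))
    (b : ℕ → X →L[ℂ] ℂ) (A : ℝ) (hA : ∀ n, ‖b n‖ ≤ A * (5 / 2) ^ n)
    (hb : ∀ (f : X) (u : ℂ), ‖u‖ < 2 / 5 →
      HasSum (fun n => b n f * u ^ n) ((wU u + phi) ^ 4 * ext (f : C(Dbar, ℂ)) (wU u)))
    (W : ℕ → X) (B : ℝ) (hB : ∀ n, ‖W n‖ ≤ B)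
    (hW : ∀ n, ∀ z ∈ Dbar, ext (W n : C(Dbar, ℂ)) z = Wf n z) (f : X) :
    HasSum (fun n => ((-(qq : ℂ)) ^ n * (qq : ℂ) ^ 2 * b n f) • W n) (G f) := by
  have hA0 : 0 ≤ A := by
    have := (ContinuousLinearMap.opNorm_nonneg (b 0)).trans (hA 0)
    simpa using this
  have hB0 : 0 ≤ B := (norm_nonneg _).trans (hB 0)
  have hqq := qq_pos
  have hqq2 := qq_lt
  set ρ : ℝ := qq * (5 / 2) with hρ
  have hρ0 : 0 ≤ ρ := by positivity
  have hρ1 : ρ < 1 := by rw [hρ]; linarith
  have hgeo : Summable fun n : ℕ => ρ ^ n := summable_geometric_of_lt_one hρ0 hρ1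
  have hcoef : ∀ n, ‖(-(qq : ℂ)) ^ n * (qq : ℂ) ^ 2 * b n f‖ ≤ A * ‖f‖ * qq ^ 2 * ρ ^ n := by
    intro n
    rw [norm_mul, norm_mul, norm_pow, norm_pow, norm_neg, Complex.norm_real,
      Real.norm_of_nonneg hqq.le]
    have h1 : ‖b n f‖ ≤ A * (5 / 2) ^ n * ‖f‖ :=
      ((b n).le_opNorm f).trans (mul_le_mul_of_nonneg_right (hA n) (norm_nonneg _))
    calc qq ^ n * qq ^ 2 * ‖b n f‖ ≤ qq ^ n * qq ^ 2 * (A * (5 / 2) ^ n * ‖f‖) :=
          mul_le_mul_of_nonneg_left h1 (by positivity)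
      _ = _ := by rw [hρ, mul_pow]; ring
  have hsum : Summable fun n => ((-(qq : ℂ)) ^ n * (qq : ℂ) ^ 2 * b n f) • W n := by
    apply Summable.of_norm_bounded (g := fun n => A * ‖f‖ * qq ^ 2 * B * ρ ^ n)
      (hgeo.mul_left _)
    intro n
    rw [norm_smul]
    calc ‖(-(qq : ℂ)) ^ n * (qq : ℂ) ^ 2 * b n f‖ * ‖W n‖
        ≤ (A * ‖f‖ * qq ^ 2 * ρ ^ n) * B :=
          mul_le_mul (hcoef n) (hB n) (norm_nonneg _) (by positivity)
      _ = _ := by ring
  have hS := hsum.hasSum
  set S := ∑' n, ((-(qq : ℂ)) ^ n * (qq : ℂ) ^ 2 * b n f) • W n with hSdef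
  have hSG : S = G f := by
    apply X_ext
    intro z hz
    -- evaluation
    have hev : HasSum (fun n => (-(qq : ℂ)) ^ n * (qq : ℂ) ^ 2 * b n f * Wf n z)
        (ext (S : C(Dbar, ℂ)) z) := by
      have h2 := (X.subtypeL).hasSum hS
      have h3 := (ContinuousMap.evalCLM ℂ (⟨z, hz⟩ : Dbar)).hasSum h2
      have h4 : ext (S : C(Dbar, ℂ)) z = S.1 ⟨z, hz⟩ := ext_coe S.1 ⟨z, hz⟩
      have hfun : (fun n => (-(qq : ℂ)) ^ n * (qq : ℂ) ^ 2 * b n f * Wf n z) =
          fun n => (ContinuousMap.evalCLM ℂ (⟨z, hz⟩ : Dbar))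
            (X.subtypeL (((-(qq : ℂ)) ^ n * (qq : ℂ) ^ 2 * b n f) • W n)) := by
        funext n
        have h5 : Wf n z = (W n).1 ⟨z, hz⟩ := by
          rw [← hW n z hz]
          exact ext_coe (W n).1 ⟨z, hz⟩
        rw [h5]
        rfl
      rw [h4, hfun]
      exact h3
    -- the double series
    set T : ℕ → ℕ → ℂ := fun n k => (-(qq : ℂ)) ^ n * (qq : ℂ) ^ 2 * b n f *
      ((z + k - (phi - 1 : ℝ)) ^ n / (z + k + phi) ^ (n + 4)) with hT
    have hTsum : Summable (Function.uncurry T) := by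
      have hprod : Summable fun p : ℕ × ℕ => (A * ‖f‖ * qq ^ 2 * ρ ^ p.1) *
          (1 / ((p.2 : ℝ) + 1) ^ 4) :=
        Summable.mul_of_nonneg (hgeo.mul_left _) summable_four
          (fun n => by positivity) (fun k => by positivity)
      apply Summable.of_norm_bounded hprod
      rintro ⟨n, k⟩
      simp only [Function.uncurry, hT]
      rw [norm_mul]
      exact mul_le_mul (hcoef n) (term_le (re_ge hz) n k) (norm_nonneg _) (by positivity)
    have hT1 : ∑' n, ∑' k, T n k = ext (S : C(Dbar, ℂ)) z := by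
      rw [← hev.tsum_eq]
      refine tsum_congr fun n => ?_
      simp only [hT]
      rw [tsum_mul_left]
      rfl
    have hT2 : ∀ k : ℕ, HasSum (fun n => T n k) (1 / ((k : ℂ) + 1 + z) ^ 4 *
        ext (f : C(Dbar, ℂ)) (1 / ((k : ℂ) + 1 + z))) := by
      intro k
      have hy := re_ge' hz k
      set y : ℂ := z + k with hy'
      have h1 := den_ne hy
      have h2 := one_add_ne hy
      set u : ℂ := -(qq : ℂ) * ((y - (phi - 1 : ℝ)) / (y + phi)) with hu
      have hun : ‖u‖ < 2 / 5 := by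
        rw [hu, norm_mul, norm_neg, Complex.norm_real, Real.norm_of_nonneg hqq.le, norm_div]
        have h3 : ‖y - (phi - 1 : ℝ)‖ / ‖y + phi‖ ≤ 1 :=
          div_le_one_of_le₀ (norm_num_le hy) (norm_nonneg _)
        nlinarith
      have h3 := (hb f u hun).mul_left ((qq : ℂ) ^ 2 / (y + phi) ^ 4)
      rw [hu, wU_add hy, wU_eq hy, ← hu] at h3
      have hq4 : (qq : ℂ) ^ 2 * phi ^ 4 = 1 := by
        have : qq ^ 2 * phi ^ 4 = 1 := by
          have := qq_mul
          calc qq ^ 2 * phi ^ 4 = (qq * phi ^ 2) ^ 2 := by ring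
            _ = 1 := by rw [this]; norm_num
        exact_mod_cast this
      have h5 : (1 : ℂ) + y = (k : ℂ) + 1 + z := by rw [hy']; ring
      rw [← h5]
      have hfun : (fun n => T n k) =
          fun i => (qq : ℂ) ^ 2 / (y + phi) ^ 4 * (b i f * u ^ i) := by
        funext n
        simp only [hT]
        rw [← hy', hu, mul_pow, div_pow, pow_add]
        field_simp
      have h6 : (qq : ℂ) ^ 2 / (y + phi) ^ 4 * ((phi * (y + phi) / (1 + y)) ^ 4 *
          ext (f : C(Dbar, ℂ)) (1 / (1 + y))) =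
          ((qq : ℂ) ^ 2 * phi ^ 4) * (1 / (1 + y) ^ 4 *
          ext (f : C(Dbar, ℂ)) (1 / (1 + y))) := by
        field_simp
      rw [h6, hq4, one_mul] at h3
      rw [hfun]
      exact h3
    rw [← hT1, ← hTsum.tsum_comm, ← (hG f z hz).tsum_eq]
    exact tsum_congr fun k => (hT2 k).tsum_eq
  rw [← hSG]
  exact hS

end Pool.Agent.Lib.MP_9ff751_an
end

section

/-!
A Hilbert space with vectors whose Gram matrix is `gram`.
-/

namespace Pool.Agent.Lib.MP_9ff751_an

open MeasureTheory Set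

/-- the measure used for the vectors -/
noncomputable abbrev vecMu : Measure ℝ := volume.restrict (Ioi (0 : ℝ))

/-- the complex function `k(t) w_n(t) √(dens t)` -/
noncomputable def vecFun (k : ℝ → ℝ) (n : ℕ) (t : ℝ) : ℂ :=
  ((k t * wf n t * √(dens t) : ℝ) : ℂ)

theorem vec_memLp (k : ℝ → ℝ) (hk : Continuous k) (hk0 : ∀ t ∈ Ioi (0 : ℝ), 0 ≤ k t)
    (hk1 : ∀ t ∈ Ioi (0 : ℝ), k t ≤ 1) (n : ℕ) : MemLp (vecFun k n) 2 vecMu := by
  have hm : AEStronglyMeasurable (vecFun k n) vecMu := by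
    refine ContinuousOn.aestronglyMeasurable ?_ measurableSet_Ioi
    unfold vecFun
    refine Complex.continuous_ofReal.comp_continuousOn ?_
    refine ((hk.mul (continuous_wf n)).continuousOn).mul ?_
    exact continuousOn_dens.sqrt
  rw [memLp_two_iff_integrable_sq_norm hm]
  refine (integrableOn_wf n n).mono' (hm.norm.pow 2) ?_
  rw [ae_restrict_iff' measurableSet_Ioi]
  refine Filter.Eventually.of_forall fun t ht => ?_
  have h0 := hk0 t ht
  have h1 := hk1 t ht
  have h2 := gram_dens_nonneg ht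
  have h3 : ‖vecFun k n t‖ ^ 2 = k t ^ 2 * (wf n t * wf n t * dens t) := by
    unfold vecFun
    rw [Complex.norm_real, Real.norm_eq_abs, sq_abs, mul_pow, Real.sq_sqrt h2]
    ring
  have h4 : 0 ≤ wf n t * wf n t * dens t := mul_nonneg (mul_self_nonneg _) h2
  rw [h3, Real.norm_of_nonneg (mul_nonneg (sq_nonneg _) h4)]
  have h5 : k t ^ 2 ≤ 1 := by nlinarith
  nlinarith

theorem vec_inner (k l : ℝ → ℝ) (n m : ℕ) (hk : MemLp (vecFun k n) 2 vecMu)
    (hl : MemLp (vecFun l m) 2 vecMu) :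
    inner ℂ (hk.toLp (vecFun k n)) (hl.toLp (vecFun l m)) =
      ((∫ t in Ioi (0 : ℝ), k t * l t * wf n t * wf m t * dens t : ℝ) : ℂ) := by
  rw [L2.inner_def]
  refine Eq.trans ?_ (integral_ofReal (𝕜 := ℂ))
  have h : ∀ᵐ t ∂vecMu, inner ℂ ((hk.toLp (vecFun k n) : ℝ → ℂ) t)
      ((hl.toLp (vecFun l m) : ℝ → ℂ) t) =
      ((k t * l t * wf n t * wf m t * dens t : ℝ) : ℂ) := by
    filter_upwards [hk.coeFn_toLp, hl.coeFn_toLp, ae_restrict_mem measurableSet_Ioi]
      with t h1 h2 h3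
    rw [h1, h2]
    unfold vecFun
    rw [RCLike.inner_apply, Complex.conj_ofReal, ← Complex.ofReal_mul]
    congr 1
    have h4 := Real.mul_self_sqrt (gram_dens_nonneg h3)
    calc l t * wf m t * √(dens t) * (k t * wf n t * √(dens t)) =
        k t * l t * wf n t * wf m t * (√(dens t) * √(dens t)) := by ring
      _ = _ := by rw [h4]
  exact integral_congr_ae h

/-- expansion of the norm of a combination of vectors with a real Gram matrix -/
theorem vec_norm_sq {H : Type*} [NormedAddCommGroup H] [InnerProductSpace ℂ H] (w : ℕ → H)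
    (g : ℕ → ℕ → ℝ) (h : ∀ n m, inner ℂ (w n) (w m) = (g n m : ℂ)) (N : ℕ) (c : ℕ → ℂ) :
    ‖∑ n ∈ Finset.range N, c n • w n‖ ^ 2 =
      ∑ n ∈ Finset.range N, ∑ m ∈ Finset.range N, (c n).re * (c m).re * g n m +
      ∑ n ∈ Finset.range N, ∑ m ∈ Finset.range N, (c n).im * (c m).im * g n m := by
  have e1 := @inner_self_eq_norm_sq ℂ H _ _ _ (∑ n ∈ Finset.range N, c n • w n)
  rw [← e1, sum_inner, ← Finset.sum_add_distrib, map_sum]
  refine Finset.sum_congr rfl fun n _ => ?_
  rw [inner_sum, map_sum, ← Finset.sum_add_distrib]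
  refine Finset.sum_congr rfl fun m _ => ?_
  rw [inner_smul_left, inner_smul_right, h]
  simp
  ring

theorem exists_vectors : ∃ (H : Type) (_ : NormedAddCommGroup H) (_ : InnerProductSpace ℂ H)
    (_ : CompleteSpace H) (w v : ℕ → H),
    Dense (Submodule.span ℂ (Set.range w) : Set H) ∧
    (∀ n m, inner ℂ (w n) (w m) = (gram n m : ℂ)) ∧
    (∀ n m, inner ℂ (v n) (w m) = if n = m then (((6 / 25 : ℝ)) : ℂ) else 0) ∧
    ∀ (N : ℕ) (c : ℕ → ℂ), ‖∑ n ∈ Finset.range N, c n • w (n + 1)‖ ^ 2 ≤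
      9 / 4 * ‖∑ n ∈ Finset.range N, c n • w n‖ ^ 2 := by
  have hf : ∀ n, MemLp (vecFun (fun _ => 1) n) 2 vecMu := fun n =>
    vec_memLp _ continuous_const (fun _ _ => zero_le_one) (fun _ _ => le_rfl) n
  have hg : ∀ n, MemLp (vecFun (fun t => 1 - Real.exp (-t)) n) 2 vecMu := fun n =>
    vec_memLp _ (by fun_prop) (fun t ht => by
      have h1 : Real.exp (-t) ≤ 1 := Real.exp_le_one_iff.mpr (by
        have : (0 : ℝ) < t := ht
        linarith)
      linarith) (fun t _ => by linarith [Real.exp_pos (-t)]) n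
  let f : ℕ → Lp ℂ 2 vecMu := fun n => (hf n).toLp _
  let g : ℕ → Lp ℂ 2 vecMu := fun n => (hg n).toLp _
  have hff : ∀ n m, inner ℂ (f n) (f m) = (gram n m : ℂ) := by
    intro n m
    rw [vec_inner _ _ n m (hf n) (hf m)]
    unfold gram
    simp only [one_mul]
  have hgf : ∀ n m, inner ℂ (g n) (f m) = if n = m then (((6 / 25 : ℝ)) : ℂ) else 0 := by
    intro n m
    rw [vec_inner _ _ n m (hg n) (hf m)]
    simp only [mul_one]
    rw [(dual_wf n m).2]
    split_ifs <;> simp
  let H : Submodule ℂ (Lp ℂ 2 vecMu) := (Submodule.span ℂ (Set.range f)).topologicalClosure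
  have hfH : ∀ n, f n ∈ H := fun n =>
    Submodule.le_topologicalClosure _ (Submodule.subset_span ⟨n, rfl⟩)
  have : CompleteSpace H := Submodule.topologicalClosure.completeSpace _
  let w : ℕ → H := fun n => ⟨f n, hfH n⟩
  let v : ℕ → H := fun n => H.orthogonalProjectionOnto (g n)
  have hww : ∀ n m, inner ℂ (w n) (w m) = (gram n m : ℂ) := fun n m => hff n m
  refine ⟨H, inferInstance, inferInstance, inferInstance, w, v, ?_, hww, ?_, ?_⟩
  · -- density
    intro x
    rw [closure_subtype]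
    have e : (fun x : H => (x : Lp ℂ 2 vecMu)) '' (Submodule.span ℂ (Set.range w) : Set H) =
        (Submodule.span ℂ (Set.range f) : Set (Lp ℂ 2 vecMu)) := by
      have e1 := Submodule.map_span H.subtype (Set.range w)
      have e2 : H.subtype '' Set.range w = Set.range f := by
        rw [← Set.range_comp]
        rfl
      rw [e2] at e1
      have e3 := congrArg (fun S : Submodule ℂ (Lp ℂ 2 vecMu) => (S : Set (Lp ℂ 2 vecMu))) e1
      simpa using e3
    rw [e]
    exact x.2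
  · intro n m
    have h1 : inner ℂ (v n) (w m) = inner ℂ (g n) (f m) := by
      show inner ℂ (H.orthogonalProjectionOnto (g n)) (w m) = inner ℂ (g n) (f m)
      rw [Submodule.inner_orthogonalProjectionOnto_eq_of_mem_right]
    rw [h1, hgf]
  · intro N c
    have h1 := vec_norm_sq (fun n => w (n + 1)) (fun n m => gram (n + 1) (m + 1))
      (fun n m => hww (n + 1) (m + 1)) N c
    have h2 := vec_norm_sq w gram hww N c
    rw [h1, h2]
    have h3 := gram_shift N fun n => (c n).re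
    have h4 := gram_shift N fun n => (c n).im
    linarith

end Pool.Agent.Lib.MP_9ff751_an
end

section

/-!
The coefficients of `W_m` are the entries of the Gram matrix.
-/

namespace Pool.Agent.Lib.MP_9ff751_an

open Set MeasureTheory

theorem match_int_pow (p : ℕ) (b : ℝ) (hb : 0 < b) :
    IntegrableOn (fun t : ℝ => t ^ p * Real.exp (-(b * t))) (Ioi 0) := by
  have h := (integrable_pow_exp p (b : ℂ) (by simpa using hb)).re
  refine h.congr (Filter.Eventually.of_forall fun t => ?_)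
  have h1 : (t : ℂ) ^ p * Complex.exp (-((b : ℂ) * t)) =
      ((t ^ p * Real.exp (-(b * t)) : ℝ) : ℂ) := by
    push_cast
    rfl
  show (((t : ℂ) ^ p * Complex.exp (-((b : ℂ) * t)))).re = _
  rw [h1, Complex.ofReal_re]

theorem match_int_lag (p m : ℕ) (b : ℝ) (hb : 0 < b) :
    IntegrableOn (fun t : ℝ => t ^ p * lag 3 m (s5 * t) * Real.exp (-(b * t))) (Ioi 0) := by
  have h1 : (fun t : ℝ => t ^ p * lag 3 m (s5 * t) * Real.exp (-(b * t))) =
      fun t => ∑ j ∈ Finset.range (m + 1),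
        ((-1) ^ j * ((m + 3).choose (m - j) : ℝ) * s5 ^ j / (j.factorial : ℝ)) *
          (t ^ (p + j) * Real.exp (-(b * t))) := by
    funext t
    unfold lag
    rw [Finset.mul_sum, Finset.sum_mul]
    refine Finset.sum_congr rfl fun j _ => ?_
    rw [mul_pow, pow_add]
    ring
  rw [h1]
  exact integrable_finsetSum _ fun j _ => (match_int_pow (p + j) b hb).const_mul _

theorem match_int_abs (p m : ℕ) (b : ℝ) (hb : 0 < b) :
    IntegrableOn (fun t : ℝ => t ^ p * |lag 3 m (s5 * t)| * Real.exp (-(b * t))) (Ioi 0) := by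
  refine IntegrableOn.congr_fun (match_int_lag p m b hb).norm (fun t ht => ?_) measurableSet_Ioi
  have ht0 : (0 : ℝ) < t := ht
  rw [Real.norm_eq_abs, abs_mul, abs_mul, abs_of_pos (pow_pos ht0 p), abs_of_pos (Real.exp_pos _)]

theorem match_sq_le_exp (y : ℝ) (hy : 0 ≤ y) : y ^ 2 ≤ Real.exp y := by
  have h1 := Real.add_one_le_exp (y / 2 - 1)
  have h2 : Real.exp (y / 2) = Real.exp (y / 2 - 1) * Real.exp 1 := by
    rw [← Real.exp_add]; congr 1; ring
  have h3 : (2 : ℝ) ≤ Real.exp 1 := by linarith [Real.exp_one_gt_d9]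
  have h4 : y ≤ Real.exp (y / 2) := by
    rw [h2]
    have h5 : y / 2 ≤ Real.exp (y / 2 - 1) := by linarith
    nlinarith [Real.exp_pos (y / 2 - 1)]
  have h6 : Real.exp y = Real.exp (y / 2) ^ 2 := by
    rw [← Real.exp_nat_mul]; congr 1; push_cast; ring
  rw [h6]
  exact pow_le_pow_left₀ hy h4 2

theorem match_sqrt_wf (n : ℕ) (t : ℝ) :
    √(pw n) * wf n t = Real.exp (-(phi - 1) * t) * lag 3 n (s5 * t) := by
  unfold wf
  have : √(pw n) ≠ 0 := (Real.sqrt_pos.2 (pw_pos n)).ne'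
  field_simp

/-- the Laplace transform of `w_m` for the density -/
theorem match_laplace (m : ℕ) (z : ℂ) (hz : 0 < z.re + (phi - 1)) :
    ∫ t in Ioi (0 : ℝ), Complex.exp (-(z * t)) * ((wf m t * dens t : ℝ) : ℂ) =
      6 * (√(pw m) : ℂ) * Wf m z := by
  set F : ℕ → ℝ → ℂ := fun k t =>
    (t : ℂ) ^ 3 * (lag 3 m (s5 * t) : ℂ) * Complex.exp (-((z + k + phi) * t)) with hF
  have hre : ∀ k : ℕ, (z + k + phi).re = z.re + k + phi := by
    intro k; simp
  have hpos : ∀ k : ℕ, 0 < (z + k + phi).re := by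
    intro k
    rw [hre]
    have : (0 : ℝ) ≤ k := Nat.cast_nonneg k
    linarith
  have hF_int : ∀ k, Integrable (F k) (volume.restrict (Ioi 0)) := fun k =>
    (integral_laplace m s5 (z + k + phi) (hpos k)).1
  have hF_val : ∀ k, ∫ t in Ioi (0 : ℝ), F k t =
      6 * (pw m : ℂ) * ((z + k - (phi - 1 : ℝ)) ^ m / (z + k + phi) ^ (m + 4)) := by
    intro k
    have h := (integral_laplace m s5 (z + k + phi) (hpos k)).2
    have h2 : (z + k + phi) - (s5 : ℂ) = z + k - (phi - 1 : ℝ) := by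
      unfold s5; push_cast; ring
    rw [h2] at h
    rw [hF]
    simp only
    rw [h, mul_div_assoc]
  set b : ℝ := z.re + (phi - 1) with hb
  have hnorm : ∀ (k : ℕ) (t : ℝ), 0 < t → ‖F k t‖ ≤
      1 / ((k : ℝ) + 1) ^ 2 * (t ^ 1 * |lag 3 m (s5 * t)| * Real.exp (-(b * t))) := by
    intro k t ht
    have hk : (0 : ℝ) < (k : ℝ) + 1 := by positivity
    rw [hF]
    simp only
    rw [norm_mul, norm_mul, norm_pow, Complex.norm_real, Complex.norm_real, Complex.norm_exp,
      Real.norm_eq_abs, Real.norm_eq_abs, abs_of_pos ht]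
    have e1 : (-((z + k + phi) * (t : ℂ))).re = -(b * t) + -(((k : ℝ) + 1) * t) := by
      simp [hb]
      ring
    rw [e1, Real.exp_add]
    have h1 := match_sq_le_exp (((k : ℝ) + 1) * t) (by positivity)
    have h2 : Real.exp (((k : ℝ) + 1) * t) * Real.exp (-(((k : ℝ) + 1) * t)) = 1 := by
      rw [← Real.exp_add]; simp
    have h3 : t ^ 2 * Real.exp (-(((k : ℝ) + 1) * t)) ≤ 1 / ((k : ℝ) + 1) ^ 2 := by
      rw [le_div_iff₀ (by positivity)]
      calc t ^ 2 * Real.exp (-(((k : ℝ) + 1) * t)) * ((k : ℝ) + 1) ^ 2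
          = (((k : ℝ) + 1) * t) ^ 2 * Real.exp (-(((k : ℝ) + 1) * t)) := by ring
        _ ≤ Real.exp (((k : ℝ) + 1) * t) * Real.exp (-(((k : ℝ) + 1) * t)) :=
            mul_le_mul_of_nonneg_right h1 (Real.exp_pos _).le
        _ = 1 := h2
    calc t ^ 3 * |lag 3 m (s5 * t)| * (Real.exp (-(b * t)) * Real.exp (-(((k : ℝ) + 1) * t)))
        = (t ^ 2 * Real.exp (-(((k : ℝ) + 1) * t))) *
            (t ^ 1 * |lag 3 m (s5 * t)| * Real.exp (-(b * t))) := by ring
      _ ≤ 1 / ((k : ℝ) + 1) ^ 2 * (t ^ 1 * |lag 3 m (s5 * t)| * Real.exp (-(b * t))) :=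
          mul_le_mul_of_nonneg_right h3 (by positivity)
  have hF_sum : Summable fun k => ∫ t in Ioi (0 : ℝ), ‖F k t‖ := by
    have hs : Summable (fun k : ℕ => 1 / ((k : ℝ) + 1) ^ 2 *
        ∫ t in Ioi (0 : ℝ), t ^ 1 * |lag 3 m (s5 * t)| * Real.exp (-(b * t))) := by
      refine Summable.mul_right _ ?_
      have h := (summable_nat_add_iff 1).2 (Real.summable_one_div_nat_pow.2 one_lt_two)
      refine h.congr fun k => ?_
      push_cast
      rfl
    refine Summable.of_nonneg_of_le (fun k => integral_nonneg fun t => norm_nonneg _)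
      (fun k => ?_) hs
    rw [← integral_const_mul]
    exact setIntegral_mono_on (hF_int k).norm ((match_int_abs 1 m b hz).const_mul _)
      measurableSet_Ioi fun t ht => hnorm k t ht
  have hpt : ∀ t : ℝ, 0 < t → HasSum (fun k => F k t)
      ((√(pw m) : ℂ) * (Complex.exp (-(z * t)) * ((wf m t * dens t : ℝ) : ℂ))) := by
    intro t ht
    have hq : ‖Complex.exp (-(t : ℂ))‖ < 1 := by
      rw [Complex.norm_exp]
      simpa using ht
    have h1 := (hasSum_geometric_of_norm_lt_one hq).mul_left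
      ((t : ℂ) ^ 3 * (lag 3 m (s5 * t) : ℂ) * Complex.exp (-((z + phi) * t)))
    have e1 : (fun k => F k t) = fun k : ℕ =>
        (t : ℂ) ^ 3 * (lag 3 m (s5 * t) : ℂ) * Complex.exp (-((z + phi) * t)) *
          Complex.exp (-(t : ℂ)) ^ k := by
      funext k
      rw [hF]
      simp only
      rw [← Complex.exp_nat_mul, mul_assoc ((t : ℂ) ^ 3 * (lag 3 m (s5 * t) : ℂ)),
        ← Complex.exp_add]
      congr 2
      ring
    have e2 : (√(pw m) : ℂ) * (Complex.exp (-(z * t)) * ((wf m t * dens t : ℝ) : ℂ)) =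
        (t : ℂ) ^ 3 * (lag 3 m (s5 * t) : ℂ) * Complex.exp (-((z + phi) * t)) *
          (1 - Complex.exp (-(t : ℂ)))⁻¹ := by
      have h2 : (√(pw m) : ℂ) * ((wf m t * dens t : ℝ) : ℂ) =
          ((Real.exp (-(phi - 1) * t) * lag 3 m (s5 * t) * dens t : ℝ) : ℂ) := by
        rw [← match_sqrt_wf]
        push_cast
        ring
      have h3 : (√(pw m) : ℂ) * (Complex.exp (-(z * t)) * ((wf m t * dens t : ℝ) : ℂ)) =
          Complex.exp (-(z * t)) * ((√(pw m) : ℂ) * ((wf m t * dens t : ℝ) : ℂ)) := by ring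
      rw [h3, h2]
      unfold dens
      push_cast
      have h4 : Complex.exp (-((z + phi) * t)) =
          Complex.exp (-(z * t)) * Complex.exp (-(phi - 1) * t) * Complex.exp (-t) := by
        rw [← Complex.exp_add, ← Complex.exp_add]
        congr 1
        ring
      rw [h4]
      have h5 : Complex.exp t * Complex.exp (-t) = 1 := by
        rw [← Complex.exp_add]; simp
      have h6 : Complex.exp t - 1 ≠ 0 := by
        have := gram_aux_exp ht
        intro h
        have h' : ((Real.exp t - 1 : ℝ) : ℂ) = 0 := by push_cast; exact h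
        rw [Complex.ofReal_eq_zero] at h'
        linarith
      have h7 : 1 - Complex.exp (-t) ≠ 0 := by
        intro h
        apply h6
        have : Complex.exp t * (1 - Complex.exp (-t)) = 0 := by rw [h, mul_zero]
        rw [mul_sub, h5, mul_one] at this
        exact this
      have h8 : Complex.exp (-t) / (1 - Complex.exp (-t)) = 1 / (Complex.exp t - 1) := by
        rw [div_eq_div_iff h7 h6]
        linear_combination h5
      calc Complex.exp (-(z * t)) * (Complex.exp (-(phi - 1) * t) * (lag 3 m (s5 * t) : ℂ) *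
            ((t : ℂ) ^ 3 / (Complex.exp t - 1)))
          = Complex.exp (-(z * t)) * Complex.exp (-(phi - 1) * t) * (lag 3 m (s5 * t) : ℂ) *
            (t : ℂ) ^ 3 * (1 / (Complex.exp t - 1)) := by ring
        _ = _ := by rw [← h8]; ring
    rw [e1, e2]
    exact h1
  have key := hasSum_integral_of_summable_integral_norm hF_int hF_sum
  have h9 : ∫ t in Ioi (0 : ℝ), (∑' k, F k t) =
      (√(pw m) : ℂ) * ∫ t in Ioi (0 : ℝ),
        Complex.exp (-(z * t)) * ((wf m t * dens t : ℝ) : ℂ) := by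
    rw [← integral_const_mul]
    exact setIntegral_congr_fun measurableSet_Ioi fun t ht => (hpt t ht).tsum_eq
  rw [h9] at key
  simp only [hF_val] at key
  have h10 := key.tsum_eq
  rw [tsum_mul_left] at h10
  have h11 : Wf m z = ∑' k : ℕ, (z + k - (phi - 1 : ℝ)) ^ m / (z + k + phi) ^ (m + 4) := rfl
  rw [← h11] at h10
  have h12 : (√(pw m) : ℂ) ≠ 0 := by
    exact_mod_cast (Real.sqrt_pos.2 (pw_pos m)).ne'
  have h13 : (pw m : ℂ) = (√(pw m) : ℂ) * (√(pw m) : ℂ) := by
    rw [← Complex.ofReal_mul, Real.mul_self_sqrt (pw_pos m).le]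
  apply mul_left_cancel₀ h12
  rw [← h10, h13]
  ring

theorem match_hasSum_real (x r : ℝ) (hr : 0 ≤ r) (hr1 : r < 1) :
    HasSum (fun n => lag 3 n (-x) * r ^ n) (((1 - r) ^ 4)⁻¹ * Real.exp (x * r / (1 - r))) := by
  have hn : ‖(r : ℂ)‖ < 1 := by
    rw [Complex.norm_real, Real.norm_eq_abs, abs_of_nonneg hr]; exact hr1
  have h1 := hasSum_lag (-x) (r : ℂ) hn
  rw [← Complex.hasSum_ofReal]
  have e1 : (fun n => ((lag 3 n (-x) * r ^ n : ℝ) : ℂ)) =
      fun n => (lag 3 n (-x) : ℂ) * (r : ℂ) ^ n := by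
    funext n; push_cast; rfl
  have e2 : ((((1 - r) ^ 4)⁻¹ * Real.exp (x * r / (1 - r)) : ℝ) : ℂ) =
      ((1 - (r : ℂ)) ^ 4)⁻¹ * Complex.exp (-(((-x : ℝ) : ℂ) * r / (1 - r))) := by
    push_cast
    congr 2
    ring
  rw [e1, e2]
  exact h1

theorem match_wU (u : ℂ) (hu : ‖u‖ < 1) : wU u = (phi - 1 : ℝ) + s5 * u / (1 - u) ∧
    wU u + phi = s5 / (1 - u) := by
  have h1 : (1 - u) ≠ 0 := by
    intro h
    have : u = 1 := by linear_combination -h
    rw [this, norm_one] at hu
    exact lt_irrefl _ hu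
  unfold wU s5
  push_cast
  constructor
  · field_simp
    ring
  · field_simp
    ring

theorem match_exp (u : ℂ) (hu : ‖u‖ < 1) (t : ℝ) :
    HasSum (fun n => 25 * ((√(pw n) * wf n t : ℝ) : ℂ) * u ^ n)
      ((wU u + phi) ^ 4 * Complex.exp (-(wU u * t))) := by
  have h1 := (hasSum_lag (s5 * t) u hu).mul_left (25 * Complex.exp (-(phi - 1) * t))
  have e1 : (fun n => 25 * ((√(pw n) * wf n t : ℝ) : ℂ) * u ^ n) = fun n =>
      25 * Complex.exp (-(phi - 1) * t) * ((lag 3 n (s5 * t) : ℂ) * u ^ n) := by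
    funext n
    rw [match_sqrt_wf]
    push_cast
    ring
  have e2 : (wU u + phi) ^ 4 * Complex.exp (-(wU u * t)) =
      25 * Complex.exp (-(phi - 1) * t) *
        (((1 - u) ^ 4)⁻¹ * Complex.exp (-(((s5 * t : ℝ) : ℂ) * u / (1 - u)))) := by
    rw [(match_wU u hu).2, (match_wU u hu).1, div_pow]
    have h5 : ((s5 : ℂ)) ^ 4 = 25 := by
      have h : s5 ^ 4 = 25 := by
        calc s5 ^ 4 = (s5 ^ 2) ^ 2 := by ring
          _ = 25 := by rw [s5_sq]; norm_num
      exact_mod_cast h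
    rw [h5]
    have h6 : Complex.exp (-(((phi - 1 : ℝ) + s5 * u / (1 - u)) * t)) =
        Complex.exp (-(phi - 1) * t) * Complex.exp (-(((s5 * t : ℝ) : ℂ) * u / (1 - u))) := by
      rw [← Complex.exp_add]
      congr 1
      push_cast
      ring
    rw [h6]
    ring
  rw [e1, e2]
  exact h1

theorem match_series (m : ℕ) (u : ℂ) (hu : ‖u‖ < 1 / 4) :
    HasSum (fun n => ((25 / 6 * √(pw n) / √(pw m) * gram n m : ℝ) : ℂ) * u ^ n)
      ((wU u + phi) ^ 4 * Wf m (wU u)) := by
  have hu1 : ‖u‖ < 1 := by linarith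
  set r : ℝ := ‖u‖ with hr
  have hr0 : 0 ≤ r := norm_nonneg _
  set c : ℝ := s5 * (r / (1 - r)) with hc
  have hs5 := s5_pos
  have hc0 : 0 ≤ c := by
    have : 0 ≤ r / (1 - r) := div_nonneg hr0 (by linarith)
    positivity
  have hr3 : r / (1 - r) ≤ 1 / 3 := by
    rw [div_le_iff₀ (by linarith)]
    linarith
  have hc3 : c ≤ s5 / 3 := by
    rw [hc]
    nlinarith
  have hb : 0 < s5 - c := by linarith
  have hz : 0 < (wU u).re + (phi - 1) := by
    rw [(match_wU u hu1).1]
    have h1 : ‖(s5 : ℂ) * u / (1 - u)‖ ≤ c := by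
      rw [norm_div, norm_mul, Complex.norm_real, Real.norm_eq_abs, abs_of_pos hs5, hc, mul_div_assoc]
      refine mul_le_mul_of_nonneg_left ?_ hs5.le
      refine div_le_div_of_nonneg_left hr0 (by linarith) ?_
      have := norm_sub_norm_le (1 : ℂ) u
      rw [norm_one] at this
      exact this
    have h2 := (abs_le.1 ((Complex.abs_re_le_norm _).trans h1)).1
    rw [Complex.add_re, Complex.ofReal_re]
    have h3 := phi_gt
    have h4 : s5 = 2 * phi - 1 := rfl
    linarith
  set G : ℝ → ℝ := fun t => Real.exp (-(phi - 1) * t) * |wf m t| * dens t with hG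
  set bound : ℕ → ℝ → ℝ := fun n t => 25 * (lag 3 n (-(s5 * t)) * r ^ n) * G t with hbound
  set F : ℕ → ℝ → ℂ := fun n t =>
    (25 * ((√(pw n) * wf n t : ℝ) : ℂ) * u ^ n) * ((wf m t * dens t : ℝ) : ℂ) with hF
  have hGnn : ∀ t : ℝ, 0 < t → 0 ≤ G t := by
    intro t ht
    have := gram_dens_nonneg ht
    rw [hG]
    positivity
  have hbs : ∀ t : ℝ, HasSum (fun n => bound n t)
      (25 * (((1 - r) ^ 4)⁻¹ * Real.exp (s5 * t * r / (1 - r))) * G t) := fun t =>
    ((match_hasSum_real (s5 * t) r hr0 hu1).mul_left 25).mul_right (G t)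
  have hmeas : ∀ n, AEStronglyMeasurable (F n) (volume.restrict (Ioi 0)) := by
    intro n
    refine ContinuousOn.aestronglyMeasurable ?_ measurableSet_Ioi
    rw [hF]
    have h1 := continuous_wf n
    have h2 := continuous_wf m
    have h3 := continuousOn_dens
    refine ContinuousOn.mul ?_ ?_
    · exact Continuous.continuousOn (by fun_prop)
    · exact Complex.continuous_ofReal.comp_continuousOn (h2.continuousOn.mul h3)
  have hle : ∀ n, ∀ᵐ t ∂(volume.restrict (Ioi (0 : ℝ))), ‖F n t‖ ≤ bound n t := by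
    intro n
    refine (ae_restrict_iff' measurableSet_Ioi).2 (Filter.Eventually.of_forall fun t ht => ?_)
    have ht0 : (0 : ℝ) < t := ht
    rw [hF, hbound, hG]
    simp only
    rw [match_sqrt_wf]
    rw [norm_mul, norm_mul, norm_mul, norm_pow, Complex.norm_real, Complex.norm_real,
      Real.norm_eq_abs, Real.norm_eq_abs, abs_mul, abs_mul, abs_of_pos (Real.exp_pos _),
      abs_of_nonneg (gram_dens_nonneg ht0)]
    have h1 := abs_lag_le (s5 * t) (by positivity) n
    have h2 : ‖(25 : ℂ)‖ = 25 := by simp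
    rw [h2, ← hr]
    have h3 := gram_dens_nonneg ht0
    calc 25 * (Real.exp (-(phi - 1) * t) * |lag 3 n (s5 * t)|) * r ^ n * (|wf m t| * dens t)
        = |lag 3 n (s5 * t)| * (25 * Real.exp (-(phi - 1) * t) * r ^ n * (|wf m t| * dens t)) := by
          ring
      _ ≤ lag 3 n (-(s5 * t)) * (25 * Real.exp (-(phi - 1) * t) * r ^ n * (|wf m t| * dens t)) :=
          mul_le_mul_of_nonneg_right h1 (by positivity)
      _ = _ := by ring
  have hbi : Integrable (fun t => ∑' n, bound n t) (volume.restrict (Ioi (0 : ℝ))) := by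
    have e : (fun t => ∑' n, bound n t) =
        fun t => 25 * (((1 - r) ^ 4)⁻¹ * Real.exp (s5 * t * r / (1 - r))) * G t := by
      funext t
      exact (hbs t).tsum_eq
    rw [e]
    have hK : Integrable (fun t : ℝ => 25 * ((1 - r) ^ 4)⁻¹ * (√(pw m))⁻¹ *
        (t ^ 3 * |lag 3 m (s5 * t)| * Real.exp (-((s5 - c) * t)) +
          t ^ 2 * |lag 3 m (s5 * t)| * Real.exp (-((s5 - c) * t))))
        (volume.restrict (Ioi (0 : ℝ))) :=
      ((match_int_abs 3 m _ hb).add (match_int_abs 2 m _ hb)).const_mul _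
    refine Integrable.mono' hK ?_ ?_
    · refine ContinuousOn.aestronglyMeasurable ?_ measurableSet_Ioi
      rw [hG]
      have h2 := continuous_wf m
      have h3 := continuousOn_dens
      refine ContinuousOn.mul (Continuous.continuousOn (by fun_prop)) ?_
      exact ContinuousOn.mul (Continuous.continuousOn (by fun_prop)) h3
    · refine (ae_restrict_iff' measurableSet_Ioi).2 (Filter.Eventually.of_forall fun t ht => ?_)
      have ht0 : (0 : ℝ) < t := ht
      have h1r : 0 < 1 - r := by linarith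
      have hnn := hGnn t ht0
      rw [Real.norm_eq_abs, abs_of_nonneg (by positivity)]
      rw [hG]
      simp only
      have hw : |wf m t| = Real.exp (-(phi - 1) * t) * |lag 3 m (s5 * t)| / √(pw m) := by
        unfold wf
        rw [abs_div, abs_mul, abs_of_pos (Real.exp_pos _), abs_of_nonneg (Real.sqrt_nonneg _)]
      rw [hw]
      have hd := gram_dens_le ht0
      have e3 : Real.exp (s5 * t * r / (1 - r)) = Real.exp (c * t) := by
        congr 1
        rw [hc]
        ring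
      rw [e3]
      have e4 : Real.exp (-((s5 - c) * t)) = Real.exp (c * t) * Real.exp (-(phi - 1) * t) *
          Real.exp (-(phi - 1) * t) * Real.exp (-t) := by
        rw [← Real.exp_add, ← Real.exp_add, ← Real.exp_add]
        congr 1
        unfold s5
        ring
      rw [e4]
      have hsq : 0 < √(pw m) := Real.sqrt_pos.2 (pw_pos m)
      calc 25 * (((1 - r) ^ 4)⁻¹ * Real.exp (c * t)) * (Real.exp (-(phi - 1) * t) *
            (Real.exp (-(phi - 1) * t) * |lag 3 m (s5 * t)| / √(pw m)) * dens t)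
          ≤ 25 * (((1 - r) ^ 4)⁻¹ * Real.exp (c * t)) * (Real.exp (-(phi - 1) * t) *
            (Real.exp (-(phi - 1) * t) * |lag 3 m (s5 * t)| / √(pw m)) *
              ((t ^ 3 + t ^ 2) * Real.exp (-t))) := by
            refine mul_le_mul_of_nonneg_left ?_ (by positivity)
            exact mul_le_mul_of_nonneg_left hd (by positivity)
        _ = _ := by ring
  have key := hasSum_integral_of_dominated_convergence bound hmeas hle
    (Filter.Eventually.of_forall fun t : ℝ => (hbs t).summable) hbi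
    (f := fun t : ℝ => ((wU u + phi) ^ 4 * Complex.exp (-(wU u * t))) *
      ((wf m t * dens t : ℝ) : ℂ))
    (Filter.Eventually.of_forall fun t : ℝ => (match_exp u hu1 t).mul_right _)
  have h1 : ∫ t in Ioi (0 : ℝ), ((wU u + phi) ^ 4 * Complex.exp (-(wU u * t))) *
      ((wf m t * dens t : ℝ) : ℂ) = (wU u + phi) ^ 4 * (6 * (√(pw m) : ℂ) * Wf m (wU u)) := by
    rw [← match_laplace m (wU u) hz, ← integral_const_mul]
    congr 1
    funext t
    ring
  have h2 : ∀ n, ∫ t in Ioi (0 : ℝ), F n t =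
      25 * (√(pw n) : ℂ) * u ^ n * ((gram n m : ℝ) : ℂ) := by
    intro n
    have e : F n = fun t => (25 * (√(pw n) : ℂ) * u ^ n) *
        ((wf n t * wf m t * dens t : ℝ) : ℂ) := by
      funext t
      rw [hF]
      push_cast
      ring
    rw [e, integral_const_mul, integral_complex_ofReal]
    rfl
  rw [h1] at key
  simp only [h2] at key
  have h12 : (√(pw m) : ℂ) ≠ 0 := by
    exact_mod_cast (Real.sqrt_pos.2 (pw_pos m)).ne'
  have key2 := key.mul_left ((6 * (√(pw m) : ℂ))⁻¹)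
  have e1 : (fun n => ((25 / 6 * √(pw n) / √(pw m) * gram n m : ℝ) : ℂ) * u ^ n) = fun n =>
      (6 * (√(pw m) : ℂ))⁻¹ * (25 * (√(pw n) : ℂ) * u ^ n * ((gram n m : ℝ) : ℂ)) := by
    funext n
    push_cast
    field_simp
  have e2 : (wU u + phi) ^ 4 * Wf m (wU u) =
      (6 * (√(pw m) : ℂ))⁻¹ * ((wU u + phi) ^ 4 * (6 * (√(pw m) : ℂ) * Wf m (wU u))) := by
    field_simp
  rw [e1, e2]
  exact key2

end Pool.Agent.Lib.MP_9ff751_an
end

section

/-!
The eigenvalues of the transfer operator `G_4` alternate in sign.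
-/

namespace Pool.Agent.Lib.MP_9ff751_an

open Module Module.End Set

theorem sum_tw (n : ℕ) : ∑ k ∈ Finset.range (n + 1), tw k = pw n := by
  induction n with
  | zero => unfold tw pw; norm_num
  | succ n ih =>
    rw [Finset.sum_range_succ, ih]
    unfold tw pw
    push_cast
    ring

theorem gram_diag_le (n : ℕ) : gram n n ≤ 1 := by
  have h1 := gram_form 0 (n + 1) (fun k => if k = n then 1 else 0)
  have h2 := gram_upper 0 (n + 1) (fun k => if k = n then 1 else 0)
  rw [← h1, gramJ_three, gramJ_two] at h2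
  have e1 : ∑ a ∈ Finset.range (n + 1), ∑ m ∈ Finset.range (n + 1),
      (if a = n then (1 : ℝ) else 0) * (if m = n then 1 else 0) * gram (a + 0) (m + 0) =
      gram n n := by
    rw [Finset.sum_eq_single_of_mem n (Finset.mem_range.2 (by omega))
      (fun b _ hb => by simp [hb]),
      Finset.sum_eq_single_of_mem n (Finset.mem_range.2 (by omega))
      (fun b _ hb => by simp [hb])]
    simp
  have e2 : ∑ a ∈ Finset.range (n + 1), (if a = n then (1 : ℝ) else 0) ^ 2 = 1 := by
    rw [Finset.sum_eq_single_of_mem n (Finset.mem_range.2 (by omega))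
      (fun b _ hb => by simp [hb])]
    simp
  have e3 : ∑ k ∈ Finset.range (n + 1 + 0), tw k *
      (∑ a ∈ Finset.Ico (k - 0) (n + 1), (if a = n then (1 : ℝ) else 0) / √(pw (a + 0))) ^ 2 =
      1 := by
    have h3 : ∀ k ∈ Finset.range (n + 1 + 0), tw k *
        (∑ a ∈ Finset.Ico (k - 0) (n + 1), (if a = n then (1 : ℝ) else 0) / √(pw (a + 0))) ^ 2 =
        tw k * (1 / pw n) := by
      intro k hk
      rw [Finset.mem_range] at hk
      rw [Finset.sum_eq_single_of_mem n (Finset.mem_Ico.2 (by omega))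
        (fun b _ hb => by simp [hb])]
      rw [if_pos rfl, add_zero, div_pow, Real.sq_sqrt (pw_pos n).le, one_pow]
    rw [Finset.sum_congr rfl h3, ← Finset.sum_mul, add_zero, sum_tw]
    have := (pw_pos n).ne'
    field_simp
  rw [e1, e2, e3] at h2
  have h5 : (2 : ℝ) ≤ s5 := by unfold s5; linarith [phi_gt]
  have h6 : s5 ^ 4 = 25 := by
    have : s5 ^ 4 = (s5 ^ 2) ^ 2 := by ring
    rw [this, s5_sq]
    norm_num
  have h7 : (8 : ℝ) ≤ s5 ^ 3 := by
    calc (8 : ℝ) = 2 ^ 3 := by norm_num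
      _ ≤ s5 ^ 3 := pow_le_pow_left₀ (by norm_num) h5 3
  have h8 : (s5 ^ 3)⁻¹ ≤ 8⁻¹ := inv_anti₀ (by norm_num) h7
  rw [h6] at h2
  linarith

theorem coeff_unique (d e : ℕ → ℂ) (F : ℂ → ℂ)
    (h1 : ∀ u : ℂ, ‖u‖ < 1 / 4 → HasSum (fun n => d n * u ^ n) (F u))
    (h2 : ∀ u : ℂ, ‖u‖ < 1 / 4 → HasSum (fun n => e n * u ^ n) (F u)) (n : ℕ) : d n = e n := by
  let p : FormalMultilinearSeries ℂ ℂ ℂ := fun n =>
    ContinuousMultilinearMap.mkPiRing ℂ (Fin n) (d n - e n)
  have hp : HasFPowerSeriesAt (fun _ => (0 : ℂ)) p 0 := by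
    rw [hasFPowerSeriesAt_iff]
    have hball : Metric.ball (0 : ℂ) (1 / 4) ∈ nhds (0 : ℂ) := Metric.ball_mem_nhds _ (by norm_num)
    filter_upwards [hball] with z hz
    rw [mem_ball_zero_iff] at hz
    have h3 := (h1 z hz).sub (h2 z hz)
    rw [sub_self] at h3
    refine h3.congr_fun ?_ |> fun h => h
    intro n
    simp only [FormalMultilinearSeries.coeff, p, ContinuousMultilinearMap.mkPiRing_apply,
      smul_eq_mul]
    simp
    ring
  have h0 := hp.eq_zero
  have h4 : p n (fun _ => 1) = 0 := by rw [h0]; rfl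
  simp only [p, ContinuousMultilinearMap.mkPiRing_apply] at h4
  simpa [sub_eq_zero] using h4

section

variable {X : Type*} [NormedAddCommGroup X] [NormedSpace ℂ X]

theorem compact_rk1 (c : X →L[ℂ] ℂ) (W : X) : IsCompactOperator (c.smulRight W) := by
  have h4 : IsCompactOperator (c : X →L[ℂ] ℂ) := isCompactOperator_of_locallyCompactSpace_dom _
  have h5 := h4.clm_comp (ContinuousLinearMap.toSpanSingleton ℂ W)
  have h6 : ((c.smulRight W : X →L[ℂ] X) : X → X) =
      (ContinuousLinearMap.toSpanSingleton ℂ W) ∘ c := by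
    funext x
    rw [ContinuousLinearMap.smulRight_apply, Function.comp_apply,
      ContinuousLinearMap.toSpanSingleton_apply]
  rw [h6]
  exact h5

theorem compact_sum1 (W : ℕ → X) (b : ℕ → X →L[ℂ] ℂ) (N : ℕ) :
    IsCompactOperator (fun x => ∑ n ∈ Finset.range N, (b n).smulRight (W n) x) := by
  induction N with
  | zero =>
    have e1 : (fun x : X => ∑ n ∈ Finset.range 0, (b n).smulRight (W n) x) = (0 : X → X) := by
      funext x
      rw [Finset.sum_range_zero]
      rfl
    rw [e1]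
    exact isCompactOperator_zero
  | succ N ih =>
    have e1 : (fun x : X => ∑ n ∈ Finset.range (N + 1), (b n).smulRight (W n) x) =
        (fun x : X => ∑ n ∈ Finset.range N, (b n).smulRight (W n) x) +
          (fun x => (b N).smulRight (W N) x) := by
      funext x
      rw [Finset.sum_range_succ]
      rfl
    rw [e1]
    exact ih.add (compact_rk1 (b N) (W N))

theorem compact_series [CompleteSpace X]
    (G : X →L[ℂ] X) (W : ℕ → X) (b : ℕ → X →L[ℂ] ℂ)
    (hG : ∀ f, HasSum (fun n => b n f • W n) (G f))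
    (hs : Summable fun n => ‖b n‖ * ‖W n‖) : IsCompactOperator G := by
  have h1 : Summable fun n => (b n).smulRight (W n) :=
    Summable.of_norm_bounded hs fun n => (ContinuousLinearMap.norm_smulRight_apply _ _).le
  obtain ⟨S, hS⟩ := h1
  have hGS : G = S := by
    refine ContinuousLinearMap.ext fun f => ?_
    have h2 := (ContinuousLinearMap.apply ℂ X f).hasSum hS
    exact (hG f).unique h2
  rw [hGS]
  have h7 : ∀ N, IsCompactOperator (∑ n ∈ Finset.range N, (b n).smulRight (W n) : X →L[ℂ] X) := by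
    intro N
    have e1 : ((∑ n ∈ Finset.range N, (b n).smulRight (W n) : X →L[ℂ] X) : X → X) =
        fun x => ∑ n ∈ Finset.range N, (b n).smulRight (W n) x := by
      funext x
      exact sum_apply _ _ _
    rw [e1]
    exact compact_sum1 W b N
  exact isCompactOperator_of_tendsto hS.tendsto_sum_nat (Filter.Eventually.of_forall h7)

end

theorem sqrt_pw_le (n : ℕ) : √(pw n) ≤ 2 ^ n := by
  rw [Real.sqrt_le_left (by positivity)]
  induction n with
  | zero => unfold pw; norm_num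
  | succ n ih =>
    have h1 : pw (n + 1) ≤ 4 * pw n := by
      unfold pw
      push_cast
      have : (0 : ℝ) ≤ n := Nat.cast_nonneg n
      nlinarith [mul_nonneg this this, mul_nonneg (mul_nonneg this this) this]
    calc pw (n + 1) ≤ 4 * pw n := h1
      _ ≤ 4 * (2 ^ n) ^ 2 := by linarith
      _ = (2 ^ (n + 1)) ^ 2 := by ring

theorem one_le_sqrt_pw (n : ℕ) : 1 ≤ √(pw n) := by
  rw [Real.one_le_sqrt]
  unfold pw
  have : (0 : ℝ) ≤ n := Nat.cast_nonneg n
  nlinarith [mul_nonneg this this, mul_nonneg (mul_nonneg this this) this]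

theorem main : ∃ G : X →L[ℂ] X,
    (∀ f : X, ∀ z ∈ Dbar, HasSum (fun k : ℕ => 1 / ((k : ℂ) + 1 + z) ^ 4 *
      ext (f : C(Dbar, ℂ)) (1 / ((k : ℂ) + 1 + z))) (ext (G f : C(Dbar, ℂ)) z)) ∧
    IsCompactOperator G ∧
    ∃ l : ℕ → ℝ, (∀ j, 0 < (-1) ^ j * l j) ∧ (∀ j, |l (j + 1)| < |l j|) ∧
      (∀ μ : ℂ, μ ≠ 0 → (HasEigenvalue (G : X →ₗ[ℂ] X) μ ↔ ∃ j, μ = (l j : ℂ))) ∧
      ∀ j, finrank ℂ (maxGenEigenspace (G : X →ₗ[ℂ] X) (l j : ℂ)) = 1 := by
  obtain ⟨G, hG⟩ := exists_G
  obtain ⟨b, ⟨A, hA⟩, hb⟩ := exists_b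
  obtain ⟨W, ⟨B, hB⟩, hW⟩ := exists_W
  have hexp := expand G hG b A hA hb W B hB hW
  have hA0 : 0 ≤ A := by
    have h := (norm_nonneg (b 0)).trans (hA 0)
    simpa using h
  have hB0 : 0 ≤ B := (norm_nonneg (W 0)).trans (hB 0)
  have hq := qq_pos
  have hq2 := qq_lt
  have hqC : ‖(qq : ℂ)‖ = qq := by
    rw [Complex.norm_real, Real.norm_eq_abs, abs_of_pos hq]
  -- the matrix entries
  have hbW : ∀ n m, b n (W m) = ((25 / 6 * √(pw n) / √(pw m) * gram n m : ℝ) : ℂ) := by
    intro n m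
    refine coeff_unique (fun n => b n (W m)) _ (fun u => (wU u + phi) ^ 4 * Wf m (wU u))
      (fun u hu => ?_) (fun u hu => match_series m u hu) n
    have h := hb (W m) u (by linarith)
    have hmem : wU u ∈ Dbar := Metric.ball_subset_closedBall (wU_mem_ball (by linarith))
    rw [hW m _ hmem] at h
    exact h
  obtain ⟨H, i1, i2, i3, w, v, hd, hw, hv, hgr⟩ := exists_vectors
  obtain ⟨hsum, hinf, K, V, hK, hs, hinj, hKs, hV, hD⟩ :=
    exists_operator w v hd qq (9 / 4 * qq) (6 / 25) hq (by linarith) (by linarith) (by norm_num)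
      (fun N c => by
        have h := mul_le_mul_of_nonneg_left (hgr N c) hq.le
        linarith) hv
  -- the scaled operator
  set κ : ℝ := 25 / 6 * qq ^ 2 with hκ
  have hκ0 : 0 < κ := by positivity
  have hws : ∀ n, ‖w n‖ ≤ 1 := by
    intro n
    have h1 : (‖w n‖ : ℂ) ^ 2 = (gram n n : ℂ) := by
      rw [← hw n n]
      exact (inner_self_eq_norm_sq_to_K (𝕜 := ℂ) (w n)).symm
    have h2 : ‖w n‖ ^ 2 = gram n n := by exact_mod_cast h1
    have h3 := gram_diag_le n
    nlinarith [norm_nonneg (w n)]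
  have hsK : ((((κ : ℂ) • K : H →L[ℂ] H)) : H →ₗ[ℂ] H).IsSymmetric := by
    intro x y
    have h := hs x y
    simp only [ContinuousLinearMap.toLinearMap_smul, LinearMap.smul_apply,
      ContinuousLinearMap.coe_coe] at h ⊢
    rw [inner_smul_left, inner_smul_right, h, Complex.conj_ofReal]
  have hKc : IsCompactOperator ((κ : ℂ) • K : H →L[ℂ] H) := hK.smul _
  obtain ⟨l, hl1, hl2, hl3, hl4⟩ := alternation ((κ : ℂ) • K) V hKc hsK (by
      intro x hx
      apply hinj
      have h0 : (κ : ℂ) ≠ 0 := by exact_mod_cast hκ0.ne'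
      exact (smul_eq_zero.1 hx).resolve_left h0) hinf
    (9 / 4 * qq) (by linarith) (by linarith) hV (((√κ : ℝ) : ℂ) • w 0) (by
      intro x
      have h := hD x
      simp only [FunLike.coe_smul, Pi.smul_apply, inner_smul_left,
        Complex.conj_ofReal, norm_mul, Complex.norm_real, Real.norm_eq_abs,
        abs_of_nonneg (Real.sqrt_nonneg κ), mul_pow, Real.sq_sqrt hκ0.le, Complex.re_ofReal_mul]
      rw [h]
      ring)
  have hδ : ∀ n, ‖(κ : ℂ) * (-(qq : ℂ)) ^ n‖ = κ * qq ^ n := by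
    intro n
    rw [norm_mul, norm_pow, norm_neg, hqC, Complex.norm_real, Real.norm_eq_abs, abs_of_pos hκ0]
  have hpos : ∀ n, 0 < √(pw n) := fun n => Real.sqrt_pos.2 (pw_pos n)
  have hlink := link (X := X) (H := H) G ((κ : ℂ) • K)
    (fun n => ((6 / 25 * √(pw n) : ℝ) : ℂ) • W n)
    (fun n => (((√(pw n))⁻¹ : ℝ) : ℂ) • b n) w (fun n => (κ : ℂ) * (-(qq : ℂ)) ^ n)
    (by
      intro n m
      rw [hw, smul_apply, map_smul, hbW, smul_eq_mul, smul_eq_mul,
        ← Complex.ofReal_mul, ← Complex.ofReal_mul]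
      congr 1
      have h1 := (hpos n).ne'
      have h2 := (hpos m).ne'
      field_simp)
    (by
      intro f
      have h := hexp f
      refine h.congr_fun ?_ |> fun h => h
      intro n
      rw [smul_apply, smul_smul, smul_eq_mul]
      congr 1
      have h1 : ((√(pw n) : ℝ) : ℂ) ≠ 0 := by exact_mod_cast (hpos n).ne'
      rw [hκ]
      push_cast
      field_simp)
    (by
      intro x
      have h := (hKs x).const_smul (κ : ℂ)
      refine h.congr_fun ?_ |> fun h => h
      intro n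
      rw [smul_smul]
      congr 1
      ring)
    (by
      have hg : Summable fun n : ℕ => κ * A * (5 / 2 * qq) ^ n :=
        (summable_geometric_of_lt_one (by positivity) (by linarith)).mul_left _
      refine Summable.of_nonneg_of_le (fun n => by positivity) (fun n => ?_) hg
      rw [hδ, norm_smul, Complex.norm_real, Real.norm_eq_abs, abs_of_pos (inv_pos.2 (hpos n))]
      have h1 : (√(pw n))⁻¹ ≤ 1 := inv_le_one_of_one_le₀ (one_le_sqrt_pw n)
      calc κ * qq ^ n * ((√(pw n))⁻¹ * ‖b n‖) * ‖w n‖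
          ≤ κ * qq ^ n * (1 * (A * (5 / 2) ^ n)) * 1 := by
            gcongr
            · exact hA n
            · exact hws n
        _ = κ * A * (5 / 2 * qq) ^ n := by rw [mul_pow]; ring)
    (by
      have hg : Summable fun n : ℕ => κ * (6 / 25) * B * (2 * qq) ^ n :=
        (summable_geometric_of_lt_one (by positivity) (by linarith)).mul_left _
      refine Summable.of_nonneg_of_le (fun n => by positivity) (fun n => ?_) hg
      rw [hδ, norm_smul, Complex.norm_real, Real.norm_eq_abs,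
        abs_of_pos (mul_pos (by norm_num) (hpos n))]
      calc κ * qq ^ n * ‖w n‖ * (6 / 25 * √(pw n) * ‖W n‖)
          ≤ κ * qq ^ n * 1 * (6 / 25 * 2 ^ n * B) := by
            gcongr
            · exact hws n
            · exact sqrt_pw_le n
            · exact hB n
        _ = κ * (6 / 25) * B * (2 * qq) ^ n := by rw [mul_pow]; ring)
    hsK (fun μ hμ => ContinuousLinearMap.finite_dimensional_eigenspace hKc μ hμ)
  have hGc : IsCompactOperator G := by
    apply compact_series G W (fun n => ((-(qq : ℂ)) ^ n * (qq : ℂ) ^ 2) • b n)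
    · intro f
      exact hexp f
    · have hg : Summable fun n : ℕ => qq ^ 2 * A * B * (5 / 2 * qq) ^ n :=
        (summable_geometric_of_lt_one (by positivity) (by linarith)).mul_left _
      refine Summable.of_nonneg_of_le (fun n => by positivity) (fun n => ?_) hg
      rw [norm_smul, norm_mul, norm_pow, norm_pow, norm_neg, hqC]
      calc qq ^ n * qq ^ 2 * ‖b n‖ * ‖W n‖ ≤ qq ^ n * qq ^ 2 * (A * (5 / 2) ^ n) * B := by
            gcongr
            · exact hA n
            · exact hB n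
        _ = qq ^ 2 * A * B * (5 / 2 * qq) ^ n := by rw [mul_pow]; ring
  refine ⟨G, hG, hGc, l, hl1, hl2, ?_, ?_⟩
  · intro μ hμ
    rw [← hl3 μ hμ]
    obtain ⟨hf, hfr⟩ := hlink μ hμ
    have hfK : FiniteDimensional ℂ (eigenspace (((κ : ℂ) • K : H →L[ℂ] H) : H →ₗ[ℂ] H) μ) :=
      ContinuousLinearMap.finite_dimensional_eigenspace hKc μ hμ
    have e1 : maxGenEigenspace (G : X →ₗ[ℂ] X) μ = ⊥ ↔
        eigenspace (((κ : ℂ) • K : H →L[ℂ] H) : H →ₗ[ℂ] H) μ = ⊥ := by
      rw [← Submodule.finrank_eq_zero (R := ℂ), hfr, Submodule.finrank_eq_zero]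
    constructor
    · intro h
      have h1 : maxGenEigenspace (G : X →ₗ[ℂ] X) μ ≠ ⊥ :=
        HasUnifEigenvalue.le (k := 1) le_top h
      exact fun h2 => h1 (e1.2 h2)
    · intro h
      have h1 : HasUnifEigenvalue (G : X →ₗ[ℂ] X) μ ⊤ := fun h2 => h (e1.1 h2)
      exact h1.lt zero_lt_one
  · intro j
    have hj : (l j : ℂ) ≠ 0 := by
      have := hl1 j
      intro h
      have h0 : l j = 0 := by exact_mod_cast h
      rw [h0] at this
      simp at this
    rw [(hlink _ hj).2]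
    exact hl4 j

end Pool.Agent.Lib.MP_9ff751_an
end
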